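import Pool.Agent.H87.PE.Defs

/-!
# Module Tra: from `G = g + δ gau` back to `g`

* `gd_reg`: `reg_props` (H48/PL/EntB).
* `tra`: copy `entB_decomp`, `entB_unice` (private in EntB.lean): `∫ Q_ε(g + δ gau) φ = (1-δ) ∫ Q_ε(g) φ + δ ∫ Q_ε(g + gau) φ`. All three are unchanged if a constant is subtracted from `φ`
 (`weak_cut`: only the increments enter), so assume `|φ v| ≤ A₁ (1 + ‖v‖)`. By `boltzCut_decay_unif H C1 (d + 2)`: `|∫ Q_ε(g + gau) φ| ≤ A A₁ ∫ wt`. So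
 `|∫ Q_ε(g) φ| ≤ (1/(1-δ)) (|∫ Q_ε(G) φ| + δ A A₁ ∫ wt)`, `1/(1-δ) ≤ 2`.
* `Pc_lim`: first part: `hth_boltz H Cl η'`, `Dn = -∫ Q log`. Second part: `cut_decomp` with `η' = η/3`: `Pc ≤ -((1-δ) ∫ Q_ε(g) log G) + η'`, and the right side tends to
 `(1-δ) Dn + η' ≤ Dn + δ η' + η'` (`boltz_weak_tendsto`; `Dn ≥ -η'`), so eventually `Pc ≤ Dn + η`.
* `XW_reg`: `dens a g ≤ dens a G` (`entF_dens_le`) and `0 ≤ om ≤ 1`: `XW(G) - XW(g) = ∫ (dens G - dens g) om ≤ ∫ (dens G - dens g) = XS(G) - XS(g) ≤ η` (`XS_reg` with `A = univ`). `om` is measurable in `p`.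
* `GG_le`: `1 ≤ RR^a`, `dens_integrable`.
-/

set_option autoImplicit false

open MeasureTheory Set Filter Topology Pool.Agent.H25.Kin Pool.Agent.H48.PL
open Pool.Agent.H15.AV (gau UNice)
open Pool.Agent.H48.PI (om XW Dn)

namespace Pool.Agent.H87.PE

variable {d : ℕ} {γ s a C Ca : ℝ} {b : ℝ → ℝ}

section

open Pool.Agent.H15.AV

/-- the increment of a collision -/
private noncomputable def tra_X (φ : Vec d → ℝ) (p : Vec d × Vec d × Vec d) : ℝ :=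
  φ (post p.1 p.2.1 p.2.2) + φ (post' p.1 p.2.1 p.2.2) - φ p.1 - φ p.2.1

private theorem tra_X_meas {φ : Vec d → ℝ} (hφm : Measurable φ) : Measurable (tra_X φ) := by
  have mpost := (continuous_post (d := d)).measurable
  have mpost' := (continuous_post' (d := d)).measurable
  have mv : Measurable fun p : Vec d × Vec d × Vec d => p.1 := measurable_fst
  have mw : Measurable fun p : Vec d × Vec d × Vec d => p.2.1 := measurable_fst.comp measurable_snd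
  exact (((hφm.comp mpost).add (hφm.comp mpost')).sub (hφm.comp mv)).sub (hφm.comp mw)

private theorem tra_X_le {φ : Vec d → ℝ} (hφ : PG φ) : ∃ (K : ℕ) (B : ℝ), 0 ≤ B ∧
    ∀ v w σ : Vec d, nsq σ = 1 → |tra_X φ (v, w, σ)| ≤ B * ((1 + ‖v‖) * (1 + ‖w‖)) ^ K := by
  obtain ⟨K, B, hB0, hB⟩ := pg_post_le hφ
  refine ⟨K, 4 * B, by positivity, fun v w σ hσ => ?_⟩
  obtain ⟨h1, h2, h3, h4⟩ := hB v w σ hσ
  change |φ (post v w σ) + φ (post' v w σ) - φ v - φ w| ≤ _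
  obtain ⟨a1, a2⟩ := abs_le.1 h1
  obtain ⟨b1, b2⟩ := abs_le.1 h2
  obtain ⟨c1, c2⟩ := abs_le.1 h3
  obtain ⟨e1, e2⟩ := abs_le.1 h4
  rw [abs_le]
  constructor <;> linarith

private theorem tra_int (H : Hyp d γ s b C Ca) {ε : ℝ} (hε : 0 < ε) {h : Vec d → ℝ} (hh : RD h)
    (hhc : Continuous h) {φ : Vec d → ℝ} (hφ : PG φ) (hφm : Measurable φ) :
    Integrable (fun p : Vec d × Vec d × Vec d =>
      kerB γ b ε p.1 p.2.1 p.2.2 * (h p.2.1 * h p.1) * tra_X φ p) (mu3 d) := by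
  obtain ⟨K, B, hB0, hB⟩ := tra_X_le hφ
  obtain ⟨A2, hA2, hA2'⟩ := prod_le' hh (d + 1 + (d + 5) + K)
  have mv : Measurable fun p : Vec d × Vec d × Vec d => p.1 := measurable_fst
  have mw : Measurable fun p : Vec d × Vec d × Vec d => p.2.1 := measurable_fst.comp measurable_snd
  exact int_piece (P := fun p : Vec d × Vec d × Vec d => h p.2.1 * h p.1) (Φ := tra_X φ)
    H.hd H.g1 H.g2 H.bm H.bd H.β0 hε
    ((hhc.measurable.comp mw).mul (hhc.measurable.comp mv)) (tra_X_meas hφm) hA2 hB0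
    (fun v w σ _ => by have := hA2' v w; rw [mul_comm] at this; exact this)
    (fun v w σ hσ => hB v w σ hσ)

private theorem tra_weak (H : Hyp d γ s b C Ca) {ε : ℝ} (hε : 0 < ε) {h : Vec d → ℝ} (hh : RD h)
    (hhc : Continuous h) {φ : Vec d → ℝ} (hφ : PG φ) (hφm : Measurable φ) :
    ∫ v, boltzCut γ b ε h v * φ v = (1 / 2) * ∫ p : Vec d × Vec d × Vec d,
      kerB γ b ε p.1 p.2.1 p.2.2 * (h p.2.1 * h p.1) * tra_X φ p ∂(mu3 d) :=
  weak_cut H.hd H.g1 H.g2 H.bm H.bd H.β0 hε hh hhc hφ hφm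

private theorem tra_gau_pos (v : Vec d) : 0 < gau v := Real.exp_pos _

private theorem tra_nice_add {g : Vec d → ℝ} (hg : Nice g) (δ : ℝ) :
    Nice fun v => g v + δ * gau v := by
  have hm := nice_gau (d := d)
  have e1 : fderiv ℝ (fun v => g v + δ * gau v) = fun v => fderiv ℝ g v + δ • fderiv ℝ gau v := by
    funext v
    exact ((hg.diff v).hasFDerivAt.add ((hm.diff v).hasFDerivAt.const_mul δ)).fderiv
  have e2 : fderiv ℝ (fderiv ℝ (fun v => g v + δ * gau v)) =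
      fun v => fderiv ℝ (fderiv ℝ g) v + δ • fderiv ℝ (fderiv ℝ gau) v := by
    rw [e1]
    funext v
    exact ((hg.diff1 v).hasFDerivAt.add ((hm.diff1 v).hasFDerivAt.const_smul δ)).fderiv
  have r : ∀ {E : Type} [NormedAddCommGroup E] [NormedSpace ℝ E] (h : Vec d → E), RD h →
      RD fun v => δ • h v := by
    intro E _ _ h hh
    refine hh.mono |δ| fun v => ?_
    rw [norm_smul, Real.norm_eq_abs]
  refine ⟨hg.smooth.add (contDiff_const.mul hm.smooth), ?_, ?_, ?_⟩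
  · exact hg.rd.add (r _ hm.rd)
  · rw [e1]; exact hg.rd1.add (r _ hm.rd1)
  · rw [e2]; exact hg.rd2.add (r _ hm.rd2)

private theorem tra_fd1 {g : Vec d → ℝ} (hg : Nice g) (δ : ℝ) (v : Vec d) :
    fderiv ℝ (fun v => g v + δ * gau v) v = fderiv ℝ g v + δ • fderiv ℝ gau v :=
  ((hg.diff v).hasFDerivAt.add (((nice_gau (d := d)).diff v).hasFDerivAt.const_mul δ)).fderiv

private theorem tra_fd2 {g : Vec d → ℝ} (hg : Nice g) (δ : ℝ) (v : Vec d) :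
    fderiv ℝ (fderiv ℝ (fun v => g v + δ * gau v)) v =
      fderiv ℝ (fderiv ℝ g) v + δ • fderiv ℝ (fderiv ℝ gau) v := by
  have e1 : fderiv ℝ (fun v => g v + δ * gau v) = fun v => fderiv ℝ g v + δ • fderiv ℝ gau v :=
    funext fun v => tra_fd1 hg δ v
  rw [e1]
  exact ((hg.diff1 v).hasFDerivAt.add
    (((nice_gau (d := d)).diff1 v).hasFDerivAt.const_smul δ)).fderiv

private theorem tra_unice {Cl : ℕ → ℝ} : ∃ C' : ℕ → ℝ, ∀ g : Vec d → ℝ, UNice Cl g →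
    ∀ δ ∈ Ioc (0 : ℝ) 1, UNice C' fun v => g v + δ * gau v := by
  have hm := nice_gau (d := d)
  have h0 : ∀ N, ∃ a, ∀ v : Vec d, (1 + ‖v‖) ^ N * ‖gau v‖ ≤ a := hm.rd
  have h1 : ∀ N, ∃ a, ∀ v : Vec d, (1 + ‖v‖) ^ N * ‖fderiv ℝ gau v‖ ≤ a := hm.rd1
  have h2 : ∀ N, ∃ a, ∀ v : Vec d, (1 + ‖v‖) ^ N * ‖fderiv ℝ (fderiv ℝ gau) v‖ ≤ a := hm.rd2
  choose a0 ha0 using h0
  choose a1 ha1 using h1
  choose a2 ha2 using h2
  refine ⟨fun N => Cl N + (a0 N + a1 N + a2 N), fun g hg δ hδ => ?_⟩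
  have hδ0 : 0 < δ := hδ.1
  have hδ1 : δ ≤ 1 := hδ.2
  refine ⟨tra_nice_add hg.nice δ, fun v => add_nonneg (hg.nonneg v)
    (mul_nonneg hδ0.le (tra_gau_pos v).le), fun N v => ?_⟩
  have hw : 0 ≤ (1 + ‖v‖) ^ N := pow_nonneg (w_pos v).le _
  rw [tra_fd1 hg.nice, tra_fd2 hg.nice]
  have b0 : δ * gau v ≤ ‖gau v‖ := by
    rw [Real.norm_eq_abs, abs_of_pos (tra_gau_pos v)]
    have := mul_le_mul_of_nonneg_right hδ1 (tra_gau_pos v).le
    rwa [one_mul] at this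
  have b1 : ‖fderiv ℝ g v + δ • fderiv ℝ gau v‖ ≤ ‖fderiv ℝ g v‖ + ‖fderiv ℝ gau v‖ := by
    refine (norm_add_le _ _).trans (add_le_add le_rfl ?_)
    rw [norm_smul, Real.norm_eq_abs, abs_of_pos hδ0]
    have := mul_le_mul_of_nonneg_right hδ1 (norm_nonneg (fderiv ℝ (gau (d := d)) v))
    rwa [one_mul] at this
  have b2 : ‖fderiv ℝ (fderiv ℝ g) v + δ • fderiv ℝ (fderiv ℝ gau) v‖ ≤
      ‖fderiv ℝ (fderiv ℝ g) v‖ + ‖fderiv ℝ (fderiv ℝ gau) v‖ := by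
    refine (norm_add_le (fderiv ℝ (fderiv ℝ g) v)
      (δ • fderiv ℝ (fderiv ℝ gau) v)).trans (add_le_add le_rfl ?_)
    have hs : ‖δ • fderiv ℝ (fderiv ℝ (gau (d := d))) v‖ ≤
        ‖δ‖ * ‖fderiv ℝ (fderiv ℝ (gau (d := d))) v‖ :=
      ContinuousLinearMap.opNorm_smul_le δ (fderiv ℝ (fderiv ℝ (gau (d := d))) v)
    refine hs.trans ?_
    rw [Real.norm_eq_abs, abs_of_pos hδ0]
    have hn : 0 ≤ ‖fderiv ℝ (fderiv ℝ (gau (d := d))) v‖ :=
      (fderiv ℝ (fderiv ℝ (gau (d := d))) v).opNorm_nonneg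
    have := mul_le_mul_of_nonneg_right hδ1 hn
    rwa [one_mul] at this
  have hgl := hg.le N v
  have := ha0 N v
  have := ha1 N v
  have := ha2 N v
  calc (1 + ‖v‖) ^ N * (g v + δ * gau v + ‖fderiv ℝ g v + δ • fderiv ℝ gau v‖ +
        ‖fderiv ℝ (fderiv ℝ g) v + δ • fderiv ℝ (fderiv ℝ gau) v‖)
      ≤ (1 + ‖v‖) ^ N * (g v + ‖gau v‖ + (‖fderiv ℝ g v‖ + ‖fderiv ℝ gau v‖) +
        (‖fderiv ℝ (fderiv ℝ g) v‖ + ‖fderiv ℝ (fderiv ℝ gau) v‖)) := by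
        refine mul_le_mul_of_nonneg_left ?_ hw
        linarith
    _ = (1 + ‖v‖) ^ N * (g v + ‖fderiv ℝ g v‖ + ‖fderiv ℝ (fderiv ℝ g) v‖) +
        ((1 + ‖v‖) ^ N * ‖gau v‖ + (1 + ‖v‖) ^ N * ‖fderiv ℝ gau v‖ +
          (1 + ‖v‖) ^ N * ‖fderiv ℝ (fderiv ℝ gau) v‖) := by ring
    _ ≤ Cl N + (a0 N + a1 N + a2 N) := by linarith

private theorem tra_gau_cut (ε : ℝ) (v : Vec d) : boltzCut γ b ε (gau (d := d)) v = 0 := by
  unfold boltzCut
  refine integral_eq_zero_of_ae (Eventually.of_forall fun w => ?_)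
  refine integral_eq_zero_of_ae ?_
  filter_upwards [surf_ae (d := d)] with σ hσ
  have h : gau (post' v w σ) * gau (post v w σ) = gau w * gau v := by
    unfold gau
    rw [← Real.exp_add, ← Real.exp_add]
    have := energy_post (v := v) (w := w) hσ
    congr 1
    linarith
  rw [h, sub_self, mul_zero]
  rfl

private theorem tra_decomp (H : Hyp d γ s b C Ca) {ε : ℝ} (hε : 0 < ε) {g : Vec d → ℝ} (hg : Nice g)
    (δ : ℝ) {φ : Vec d → ℝ} (hφ : PG φ) (hφm : Measurable φ) :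
    ∫ v, boltzCut γ b ε (fun v => g v + δ * gau v) v * φ v =
      (1 - δ) * (∫ v, boltzCut γ b ε g v * φ v) +
        δ * ∫ v, boltzCut γ b ε (fun v => g v + 1 * gau v) v * φ v := by
  have hG := tra_nice_add hg δ
  have hG1 := tra_nice_add hg 1
  have hM := nice_gau (d := d)
  have z : ∫ v, boltzCut γ b ε (gau (d := d)) v * φ v = 0 := by
    simp_rw [tra_gau_cut, zero_mul]
    exact integral_zero _ _
  rw [tra_weak H hε hM.rd hM.cont hφ hφm] at z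
  have i0 := tra_int H hε hg.rd hg.cont hφ hφm
  have i1 := tra_int H hε hG1.rd hG1.cont hφ hφm
  have i2 := tra_int H hε hM.rd hM.cont hφ hφm
  rw [tra_weak H hε hG.rd hG.cont hφ hφm, tra_weak H hε hg.rd hg.cont hφ hφm,
    tra_weak H hε hG1.rd hG1.cont hφ hφm]
  have e : ∫ p : Vec d × Vec d × Vec d, kerB γ b ε p.1 p.2.1 p.2.2 *
      ((g p.2.1 + δ * gau p.2.1) * (g p.1 + δ * gau p.1)) * tra_X φ p ∂(mu3 d) =
      (1 - δ) * (∫ p : Vec d × Vec d × Vec d, kerB γ b ε p.1 p.2.1 p.2.2 *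
        (g p.2.1 * g p.1) * tra_X φ p ∂(mu3 d)) +
      δ * (∫ p : Vec d × Vec d × Vec d, kerB γ b ε p.1 p.2.1 p.2.2 *
        ((g p.2.1 + 1 * gau p.2.1) * (g p.1 + 1 * gau p.1)) * tra_X φ p ∂(mu3 d)) +
      (δ ^ 2 - δ) * ∫ p : Vec d × Vec d × Vec d, kerB γ b ε p.1 p.2.1 p.2.2 *
        (gau p.2.1 * gau p.1) * tra_X φ p ∂(mu3 d) := by
    have i01 : Integrable (fun p : Vec d × Vec d × Vec d =>
        (1 - δ) * (kerB γ b ε p.1 p.2.1 p.2.2 * (g p.2.1 * g p.1) * tra_X φ p) +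
        δ * (kerB γ b ε p.1 p.2.1 p.2.2 *
          ((g p.2.1 + 1 * gau p.2.1) * (g p.1 + 1 * gau p.1)) * tra_X φ p)) (mu3 d) :=
      (i0.const_mul _).add (i1.const_mul _)
    rw [← integral_const_mul, ← integral_const_mul, ← integral_const_mul,
      ← integral_add (i0.const_mul _) (i1.const_mul _),
      ← integral_add i01 (i2.const_mul _)]
    refine integral_congr_ae (Eventually.of_forall fun p => ?_)
    simp only
    ring
  rw [e]
  have z' : ∫ p : Vec d × Vec d × Vec d, kerB γ b ε p.1 p.2.1 p.2.2 *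
        (gau p.2.1 * gau p.1) * tra_X φ p ∂(mu3 d) = 0 := by linarith
  rw [z']
  ring

private lemma tra_pg {A₁ : ℝ} {φ : Vec d → ℝ} (hφ : ∀ v, |φ v - φ 0| ≤ A₁ * (1 + ‖v‖)) :
    PG (fun v => φ v - φ 0) := by
  refine ⟨1, A₁, fun v => ?_⟩
  rw [Real.norm_eq_abs, pow_one]
  exact hφ v

private lemma tra_shift (H : Hyp d γ s b C Ca) {ε : ℝ} (hε : 0 < ε) {h : Vec d → ℝ} (hh : RD h)
    (hhc : Continuous h) {φ : Vec d → ℝ} (hφ : PG φ) (hφm : Measurable φ) (c : ℝ) :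
    ∫ v, boltzCut γ b ε h v * (φ v - c) = ∫ v, boltzCut γ b ε h v * φ v := by
  have h1 : PG fun v : Vec d => φ v + (-c) := hφ.add (PG.const (-c))
  have h2 : PG fun v : Vec d => φ v - c := h1
  rw [tra_weak H hε hh hhc h2 (hφm.sub_const c), tra_weak H hε hh hhc hφ hφm]
  congr 1
  refine integral_congr_ae (Eventually.of_forall fun p => ?_)
  simp only [tra_X]
  ring

end

lemma gd_reg {Cl : ℕ → ℝ} {g : Vec d → ℝ} (hg : UNice Cl g) {δ : ℝ} (hδ : 0 < δ) (hδ1 : δ ≤ 1) :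
    Gd fun v => g v + δ * gau v := by
  obtain ⟨h1, h2, h3, h4⟩ := reg_props hg hδ hδ1
  exact ⟨h1, h2, h3, h4⟩

theorem tra (H : Hyp d γ s b C Ca) (Cl : ℕ → ℝ) (A₁ : ℝ) {η : ℝ} (hη : 0 < η) :
    ∃ δ₀ > 0, δ₀ ≤ 1 / 2 ∧ ∀ δ ∈ Ioc (0 : ℝ) δ₀, ∀ g : Vec d → ℝ, UNice Cl g →
      ∀ φ : Vec d → ℝ, Measurable φ → (∀ v, |φ v - φ 0| ≤ A₁ * (1 + ‖v‖)) → ∀ ε : ℝ, 0 < ε →
      |∫ v, boltzCut γ b ε g v * φ v| ≤
        2 * |∫ v, boltzCut γ b ε (fun v => g v + δ * gau v) v * φ v| + η := by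
  obtain ⟨C1, hC1⟩ := tra_unice (d := d) (Cl := Cl)
  obtain ⟨A, hA0, hA⟩ := Pool.Agent.H15.AV.boltzCut_decay_unif H C1 (d + 2)
  have hI0 : 0 ≤ ∫ z, wt d z := integral_nonneg fun z => wt_nonneg z
  set U : ℝ := A * |A₁| * ∫ z, wt d z with hU
  have hU0 : 0 ≤ U := mul_nonneg (mul_nonneg hA0 (abs_nonneg _)) hI0
  have hD : 0 < 2 * U + 1 := by linarith
  refine ⟨min (1 / 2) (η / (2 * U + 1)), lt_min (by norm_num) (div_pos hη hD), min_le_left _ _,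
    fun δ hδ g hg φ hφm hφ ε hε => ?_⟩
  have hδ0 : 0 < δ := hδ.1
  have hδh : δ ≤ 1 / 2 := hδ.2.trans (min_le_left _ _)
  have hδU : δ * (2 * U) ≤ η := by
    have h1 : δ ≤ η / (2 * U + 1) := hδ.2.trans (min_le_right _ _)
    rw [le_div_iff₀ hD] at h1
    linarith
  obtain ⟨hGr, hGc, -, -⟩ := reg_props hg hδ0 (by linarith : δ ≤ 1)
  have hψ : PG fun v : Vec d => φ v - φ 0 := tra_pg hφ
  have hψm : Measurable fun v : Vec d => φ v - φ 0 := hφm.sub_const _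
  have hφ' : PG φ := by
    have h1 : PG fun v : Vec d => (φ v - φ 0) + φ 0 := hψ.add (PG.const (φ 0))
    simpa using h1
  rw [← tra_shift H hε hg.nice.rd hg.nice.cont hφ' hφm (φ 0),
    ← tra_shift H hε hGr hGc hφ' hφm (φ 0)]
  have hdec := tra_decomp H hε hg.nice δ hψ hψm
  have e2 : |∫ v, boltzCut γ b ε (fun v => g v + 1 * gau v) v * (φ v - φ 0)| ≤ U := by
    have h1 : |∫ v, boltzCut γ b ε (fun v => g v + 1 * gau v) v * (φ v - φ 0)| ≤
        ∫ v, A * |A₁| * wt d v := by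
      rw [← Real.norm_eq_abs]
      refine norm_integral_le_of_norm_le (integrable_wt.const_mul _)
        (Eventually.of_forall fun v => ?_)
      rw [norm_mul, Real.norm_eq_abs, Real.norm_eq_abs]
      have hw := w_pos v
      have h3 := hA _ (hC1 g hg 1 ⟨one_pos, le_refl _⟩) ε hε v
      have h4 : |φ v - φ 0| ≤ |A₁| * (1 + ‖v‖) :=
        (hφ v).trans (mul_le_mul_of_nonneg_right (le_abs_self _) hw.le)
      have hwt : ((1 + ‖v‖) ^ (d + 2))⁻¹ * (1 + ‖v‖) = wt d v := by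
        unfold wt
        have e7 : (1 + ‖v‖) ^ (d + 2) = (1 + ‖v‖) ^ (d + 1) * (1 + ‖v‖) := by ring
        rw [e7, mul_inv, mul_assoc, inv_mul_cancel₀ hw.ne', mul_one]
      calc |boltzCut γ b ε (fun v => g v + 1 * gau v) v| * |φ v - φ 0|
          ≤ (A * ((1 + ‖v‖) ^ (d + 2))⁻¹) * (|A₁| * (1 + ‖v‖)) :=
            mul_le_mul h3 h4 (abs_nonneg _) (by positivity)
        _ = A * |A₁| * (((1 + ‖v‖) ^ (d + 2))⁻¹ * (1 + ‖v‖)) := by ring
        _ = A * |A₁| * wt d v := by rw [hwt]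
    rw [integral_const_mul] at h1
    exact h1
  set Jg := ∫ v, boltzCut γ b ε g v * (φ v - φ 0) with hJg
  set JG := ∫ v, boltzCut γ b ε (fun v => g v + δ * gau v) v * (φ v - φ 0) with hJG
  set J1 := ∫ v, boltzCut γ b ε (fun v => g v + 1 * gau v) v * (φ v - φ 0) with hJ1
  have h5 : (1 - δ) * |Jg| ≤ |JG| + δ * U := by
    have h6 : (1 - δ) * Jg = JG - δ * J1 := by linarith
    have h7 : (1 - δ) * |Jg| = |JG - δ * J1| := by
      rw [← h6, abs_mul, abs_of_pos (by linarith : 0 < 1 - δ)]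
    rw [h7]
    have h8 : |JG - δ * J1| ≤ |JG| + |δ * J1| := abs_sub _ _
    have h9 : |δ * J1| ≤ δ * U := by
      rw [abs_mul, abs_of_pos hδ0]
      exact mul_le_mul_of_nonneg_left e2 hδ0.le
    linarith
  have h10 : 1 / 2 * |Jg| ≤ (1 - δ) * |Jg| :=
    mul_le_mul_of_nonneg_right (by linarith) (abs_nonneg _)
  linarith

theorem Pc_nonneg (H : Hyp d γ s b C Ca) {ε : ℝ} (hε : 0 < ε) {G : Vec d → ℝ} (hG : Gd G) :
    0 ≤ Pc γ b ε G := by
  have h := Pool.Agent.H15.AV.cut_H H hε hG.rd hG.cont hG.pos hG.log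
  unfold Pc
  linarith

theorem Pc_lim (H : Hyp d γ s b C Ca) (Cl : ℕ → ℝ) {η : ℝ} (hη : 0 < η) :
    ∃ δ₀ > 0, δ₀ ≤ 1 / 2 ∧ ∀ δ ∈ Ioc (0 : ℝ) δ₀, ∀ g : Vec d → ℝ, UNice Cl g →
      -η ≤ Dn γ b δ g ∧
      ∀ᶠ ε in 𝓝[>] (0 : ℝ), Pc γ b ε (fun v => g v + δ * gau v) ≤ Dn γ b δ g + η := by
  have hη' : 0 < η / 3 := by linarith
  obtain ⟨δa, hδa, hδah, hdec⟩ := cut_decomp H Cl hη'
  obtain ⟨δc, hδc, hH⟩ := Pool.Agent.H15.AV.hth_boltz H Cl (η / 3) hη'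
  refine ⟨min δa δc, lt_min hδa hδc, (min_le_left _ _).trans hδah, fun δ hδ g hg => ?_⟩
  have hd0 : 0 < δ := hδ.1
  have hda : δ ≤ δa := hδ.2.trans (min_le_left _ _)
  have hdc : δ ≤ δc := hδ.2.trans (min_le_right _ _)
  have hd1 : δ ≤ 1 := by linarith
  obtain ⟨hGr, hGc, hGpos, hGl⟩ := reg_props hg hd0 hd1
  have hJη : ∫ v, boltzQ γ b g v * Real.log (g v + δ * gau v) ≤ η / 3 := hH δ ⟨hd0, hdc⟩ g hg
  have hlim := boltz_weak_tendsto H hg.nice hGl hGc.measurable.log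
  unfold Dn
  set J : ℝ := ∫ v, boltzQ γ b g v * Real.log (g v + δ * gau v) with hJ
  refine ⟨by linarith, ?_⟩
  have hδJ : δ * J ≤ η / 3 := by
    rcases le_total J 0 with h | h
    · exact (mul_nonpos_of_nonneg_of_nonpos hd0.le h).trans hη'.le
    · exact (mul_le_of_le_one_left h hd1).trans hJη
  have hlim2 : Tendsto (fun ε =>
      -((1 - δ) * ∫ v, boltzCut γ b ε g v * Real.log (g v + δ * gau v)) + η / 3)
      (𝓝[>] 0) (𝓝 (-((1 - δ) * J) + η / 3)) :=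
    ((hlim.const_mul (1 - δ)).neg.add_const (η / 3))
  have hlt : -((1 - δ) * J) + η / 3 < -J + η := by linarith
  filter_upwards [(tendsto_order.1 hlim2).2 _ hlt, self_mem_nhdsWithin] with ε h1 hε
  have h2 := hdec δ ⟨hd0, hda⟩ g hg ε hε
  unfold Pc
  linarith

theorem Dn_ge (H : Hyp d γ s b C Ca) (Cl : ℕ → ℝ) {η : ℝ} (hη : 0 < η) :
    ∃ δ₀ > 0, ∀ δ ∈ Ioc (0 : ℝ) δ₀, ∀ g : Vec d → ℝ, UNice Cl g → -η ≤ Dn γ b δ g := by
  obtain ⟨δ₀, h0, h⟩ := Pool.Agent.H15.AV.hth_boltz H Cl η hη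
  refine ⟨δ₀, h0, fun δ hδ g hg => ?_⟩
  have := h δ hδ g hg
  unfold Dn
  linarith

private lemma tra_dens_le {g G : Vec d → ℝ} (hg : ∀ v, 0 ≤ g v) (hgG : ∀ v, g v ≤ G v)
    (p : Vec d × Vec d) : dens a g p ≤ dens a G p := by
  unfold dens
  have h1 : 0 ≤ len (p.1 - p.2) ^ (1 + a) * RR p.1 p.2 ^ a :=
    mul_nonneg (Real.rpow_nonneg (Real.sqrt_nonneg _) _) (Real.rpow_nonneg (Real.sqrt_nonneg _) _)
  refine mul_le_mul_of_nonneg_right ?_ h1
  exact mul_le_mul (hgG _) (hgG _) (hg _) ((hg _).trans (hgG _))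

private lemma tra_om_bd {V : ℝ} (ha1 : a ≤ 1) (hV : 1 ≤ V) (v w : Vec d) :
    0 ≤ om a V (RR v w) ∧ om a V (RR v w) ≤ 1 := by
  have h1 : 0 ≤ RR v w / V := div_nonneg (RR_pos v w).le (by linarith)
  have h2 : 0 ≤ min 1 (RR v w / V) := le_min zero_le_one h1
  exact ⟨Real.rpow_nonneg h2 _, Real.rpow_le_one h2 (min_le_left _ _) (by linarith)⟩

private lemma tra_om_int {V : ℝ} (ha1 : a ≤ 1) (hV : 1 ≤ V) {F : Vec d × Vec d → ℝ}
    (hF : Integrable F) : Integrable fun p : Vec d × Vec d => F p * om a V (RR p.1 p.2) := by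
  have hm : Measurable fun p : Vec d × Vec d => om a V (RR p.1 p.2) := by
    have h : Measurable fun p : Vec d × Vec d => RR p.1 p.2 := by
      unfold RR nsq
      fun_prop
    unfold om
    exact (measurable_const.min (h.div_const V)).pow_const _
  refine hF.mono (hF.aestronglyMeasurable.mul hm.aestronglyMeasurable)
    (Eventually.of_forall fun p => ?_)
  obtain ⟨h1, h2⟩ := tra_om_bd (a := a) ha1 hV p.1 p.2
  rw [norm_mul, Real.norm_eq_abs (om a V (RR p.1 p.2)), abs_of_nonneg h1]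
  exact mul_le_of_le_one_right (norm_nonneg _) h2

theorem XW_reg (ha : 0 ≤ a) (ha1 : a ≤ 1) (Cl : ℕ → ℝ) {η : ℝ} (hη : 0 < η) :
    ∃ δ₀ > 0, ∀ δ ∈ Ioc (0 : ℝ) δ₀, ∀ g : Vec d → ℝ, UNice Cl g → ∀ V : ℝ, 1 ≤ V →
      XW a V (fun v => g v + δ * gau v) univ ≤ XW a V g univ + η := by
  obtain ⟨δ₀, h0, hreg⟩ := XS_reg (d := d) ha ha1 Cl hη
  refine ⟨min 1 δ₀, lt_min one_pos h0, fun δ hδ g hg V hV => ?_⟩
  have hδ0 : 0 < δ := hδ.1
  have hδ1 : δ ≤ 1 := hδ.2.trans (min_le_left _ _)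
  have hS := hreg δ ⟨hδ0, hδ.2.trans (min_le_right _ _)⟩ g hg univ MeasurableSet.univ
  obtain ⟨hGr, hGc, -, -⟩ := reg_props hg hδ0 hδ1
  have iG := dens_integrable ha ha1 hGr hGc
  have ig := dens_integrable ha ha1 hg.nice.rd hg.nice.cont
  have hgG : ∀ v, g v ≤ g v + δ * gau v := fun v => by
    have : 0 ≤ δ * gau v := mul_nonneg hδ0.le (Real.exp_pos _).le
    linarith
  have iGw := tra_om_int ha1 hV iG
  have igw := tra_om_int ha1 hV ig
  unfold XW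
  unfold XS at hS
  simp only [setIntegral_univ] at hS ⊢
  have h1 : ∫ p, dens a (fun v => g v + δ * gau v) p * om a V (RR p.1 p.2) ≤
      ∫ p, (dens a g p * om a V (RR p.1 p.2) +
        (dens a (fun v => g v + δ * gau v) p - dens a g p)) := by
    refine integral_mono iGw (igw.add (iG.sub ig)) fun p => ?_
    have h2 := tra_dens_le (a := a) hg.nonneg hgG p
    obtain ⟨h3, h4⟩ := tra_om_bd (a := a) ha1 hV p.1 p.2
    have h5 : (dens a (fun v => g v + δ * gau v) p - dens a g p) * om a V (RR p.1 p.2) ≤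
        (dens a (fun v => g v + δ * gau v) p - dens a g p) * 1 :=
      mul_le_mul_of_nonneg_left h4 (sub_nonneg.2 h2)
    change dens a (fun v => g v + δ * gau v) p * om a V (RR p.1 p.2) ≤
      dens a g p * om a V (RR p.1 p.2) + (dens a (fun v => g v + δ * gau v) p - dens a g p)
    linarith
  have h6 : Integrable (fun p : Vec d × Vec d =>
      dens a (fun v => g v + δ * gau v) p - dens a g p) := iG.sub ig
  have h7 : ∫ p, (dens a (fun v => g v + δ * gau v) p - dens a g p) =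
      (∫ p, dens a (fun v => g v + δ * gau v) p) - ∫ p, dens a g p := integral_sub iG ig
  rw [integral_add igw h6, h7] at h1
  linarith

lemma GG_le (ha : 0 ≤ a) (ha1 : a ≤ 1) {G : Vec d → ℝ} (hG : RD G) (hGc : Continuous G)
    (h0 : ∀ v, 0 ≤ G v) : GG (1 + a) G ≤ XS a G univ := by
  have iG := dens_integrable ha ha1 hG hGc
  unfold GG XS
  rw [setIntegral_univ]
  refine integral_mono_of_nonneg (Eventually.of_forall fun p => ?_) iG
    (Eventually.of_forall fun p => ?_)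
  · exact mul_nonneg (mul_nonneg (h0 _) (h0 _)) (Real.rpow_nonneg (Real.sqrt_nonneg _) _)
  · have h1 : 1 ≤ RR p.1 p.2 ^ a := Real.one_le_rpow (one_le_RR _ _) ha
    have h2 : 0 ≤ len (p.1 - p.2) ^ (1 + a) := Real.rpow_nonneg (Real.sqrt_nonneg _) _
    have h3 : len (p.1 - p.2) ^ (1 + a) ≤ len (p.1 - p.2) ^ (1 + a) * RR p.1 p.2 ^ a :=
      le_mul_of_one_le_right h2 h1
    exact mul_le_mul_of_nonneg_left h3 (mul_nonneg (h0 _) (h0 _))

end Pool.Agent.H87.PE
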