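import Pool.Agent.H87.PE.Defs
import Pool.Agent.H48.PL.Hw

/-!
# Module AngH: angular integrals of the increments of a Holder function

As `ainc_bd` in H48/PL/Hw.lean (`inc_bd`, `len_of_nsq` with `α = a`, weight `ω` in place of the power): with `y = 1 - cosTh v w σ`, `R = RR v w`, `V = len (v - w)`:
`|ψ(v') - ψ(v)| ≤ A ω(R) V^a y^(a/2)` and the same for `w'`, `w` (`jb_post_le`, `jb_post'_le`, `jb_le_RR_left`, `nsq_post_sub`; `ω` monotone on `[1,∞)`, `jb ≥ 1`), so `|dX ψ| ≤ 2 A ω(R) V^a y^(a/2)`.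
`ang_abs`: `ker_small` with `τ = a/2 > s`, `u = 2`, and `V^a ≤ 2 R^a`. `ang_sq`: `dX² ≤ 4 A² ω(R)² V^(2a) y^a`, `ker_small` with `τ = a > s`, `u = 2`, `V^(2a) ≤ 4 R^(2a)`.
`ang_bd`: `(ψ(v') - ψ(v))² ≤ 2A |ψ(v') - ψ(v)| ≤ 2 A² V^a y^(a/2)` (`ω = 1`), `ker_small` with `τ = a/2`. `ang_neg`: `ker_large` with `u = 1` (`cosTh < 0` gives `y ≥ 1`).
-/

set_option autoImplicit false

open MeasureTheory Set Filter Topology Pool.Agent.H25.Kin Pool.Agent.H48.PL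

namespace Pool.Agent.H87.PE

variable {d : ℕ} {s a C Ca : ℝ} {b : ℝ → ℝ}

private lemma len_of_nsq {x y : Vec d} {t : ℝ} (ht : 0 ≤ t) (h : nsq x = nsq y * (t / 2)) :
    len x ^ a = len y ^ a * (t / 2) ^ (a / 2) := by
  have h1 : len x = len y * (t / 2) ^ (1 / 2 : ℝ) := by
    unfold len
    rw [h, Real.sqrt_mul (sq_nonneg' y), Real.sqrt_eq_rpow (t / 2)]
  rw [h1, Real.mul_rpow (len_nonneg y) (Real.rpow_nonneg (by linarith) _),
    ← Real.rpow_mul (by linarith)]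
  congr 2
  ring

private lemma inc_bd {ω : ℝ → ℝ} {ψ : Vec d → ℝ} {A : ℝ} (hA : 0 ≤ A) (ha : 0 < a)
    (hω0 : ∀ x, 0 ≤ ω x) (hω : ∀ x y, 1 ≤ x → x ≤ y → ω x ≤ ω y) (h : Hol a ω A ψ)
    {v w x y : Vec d} {t : ℝ} (ht : 0 ≤ t) (hx : jb x ≤ RR v w) (hy : jb y ≤ RR v w)
    (hn : nsq (x - y) = nsq (v - w) * (t / 2)) :
    |ψ x - ψ y| ≤ A * (ω (RR v w) * (len (v - w) ^ a * t ^ (a / 2))) := by
  refine (h x y).trans (mul_le_mul_of_nonneg_left ?_ hA)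
  have h4 : ω (max (jb x) (jb y)) ≤ ω (RR v w) :=
    hω _ _ ((one_le_jb x).trans (le_max_left _ _)) (max_le hx hy)
  have h5 : len (x - y) ^ a ≤ len (v - w) ^ a * t ^ (a / 2) := by
    rw [len_of_nsq ht hn]
    refine mul_le_mul_of_nonneg_left ?_ (Real.rpow_nonneg (len_nonneg _) _)
    exact Real.rpow_le_rpow (by linarith) (by linarith) (by linarith)
  exact mul_le_mul h4 h5 (Real.rpow_nonneg (len_nonneg _) _) (hω0 _)

private lemma full (H : Hyp d (1 + a) s b C Ca) {τ : ℝ} (hτ : s < τ) (hτ1 : τ ≤ 1) :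
    ∃ K : ℝ, 0 ≤ K ∧ ∀ ε : ℝ, 0 < ε → ∀ v w : Vec d, v ≠ w →
      Integrable (fun σ => kerB (1 + a) b ε v w σ * (1 - cosTh v w σ) ^ τ) (surf d) ∧
      ∫ σ, kerB (1 + a) b ε v w σ * (1 - cosTh v w σ) ^ τ ∂(surf d) ≤
        K * len (v - w) ^ (1 + a) := by
  obtain ⟨A1, hA1, hk⟩ := ker_small H hτ hτ1
  refine ⟨A1 * 2 ^ (τ - s), by positivity, fun ε hε v w hvw => ?_⟩
  obtain ⟨hi, hb⟩ := hk ε hε v w hvw 2 two_pos
  have hS : (surf d).restrict {σ : Vec d | 1 - cosTh v w σ ≤ 2} = surf d := by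
    refine Measure.restrict_eq_self_of_ae_mem ?_
    filter_upwards [surf_ae] with σ hσ
    have h4 := (abs_le.1 (abs_cosTh_le (v := v) (w := w) hσ)).1
    show 1 - cosTh v w σ ≤ 2
    linarith
  unfold IntegrableOn at hi
  rw [hS] at hi hb
  exact ⟨hi, hb.trans (le_of_eq (by ring))⟩

private lemma dX_bd {ω : ℝ → ℝ} {ψ : Vec d → ℝ} {A : ℝ} (hA : 0 ≤ A) (ha : 0 < a)
    (hω0 : ∀ x, 0 ≤ ω x) (hω : ∀ x y, 1 ≤ x → x ≤ y → ω x ≤ ω y) (h : Hol a ω A ψ)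
    {v w σ : Vec d} (hvw : v ≠ w) (hσ : nsq σ = 1) :
    |dX ψ (v, w, σ)| ≤
      2 * A * (ω (RR v w) * len (v - w) ^ a) * (1 - cosTh v w σ) ^ (a / 2) := by
  have hy := one_sub_cosTh_nonneg (v := v) (w := w) hσ
  have e1 := inc_bd hA ha hω0 hω h hy (jb_post_le (v := v) (w := w) hσ) (jb_le_RR_left v w)
    (nsq_post_sub hvw hσ)
  have e2 := inc_bd hA ha hω0 hω h hy (jb_post'_le (v := v) (w := w) hσ) (jb_le_RR_right v w)
    (nsq_post'_sub hvw hσ)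
  calc |dX ψ (v, w, σ)|
      = |(ψ (post v w σ) - ψ v) + (ψ (post' v w σ) - ψ w)| := by
        unfold dX
        congr 1
        ring
    _ ≤ |ψ (post v w σ) - ψ v| + |ψ (post' v w σ) - ψ w| := abs_add_le _ _
    _ ≤ A * (ω (RR v w) * (len (v - w) ^ a * (1 - cosTh v w σ) ^ (a / 2))) +
        A * (ω (RR v w) * (len (v - w) ^ a * (1 - cosTh v w σ) ^ (a / 2))) := add_le_add e1 e2
    _ = _ := by ring

private lemma len_pow_le {β : ℝ} (hβ : 0 ≤ β) (v w : Vec d) :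
    len (v - w) ^ β ≤ 2 ^ β * RR v w ^ β := by
  rw [← Real.mul_rpow (by norm_num) (RR_pos v w).le]
  exact Real.rpow_le_rpow (len_nonneg _) (len_le_RR v w) hβ

theorem ang_abs (H : Hyp d (1 + a) s b C Ca) (h1 : 2 * s < a) (h3 : a ≤ 1) : ∃ K : ℝ, 0 ≤ K ∧
    ∀ ω : ℝ → ℝ, (∀ x, 0 ≤ ω x) → (∀ x y, 1 ≤ x → x ≤ y → ω x ≤ ω y) →
    ∀ A : ℝ, 0 ≤ A → ∀ ψ : Vec d → ℝ, Hol a ω A ψ → ∀ ε : ℝ, 0 < ε → ∀ v w : Vec d, v ≠ w →
    ∫ σ, kerB (1 + a) b ε v w σ * |dX ψ (v, w, σ)| ∂(surf d) ≤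
      K * A * (ω (RR v w) * (len (v - w) ^ (1 + a) * RR v w ^ a)) := by
  have hs := H.hs
  have ha : 0 < a := by linarith
  obtain ⟨K, hK, hk⟩ := full H (τ := a / 2) (by linarith) (by linarith)
  refine ⟨2 * (2 ^ a * K), by positivity, fun ω hω0 hω A hA ψ hψ ε hε v w hvw => ?_⟩
  obtain ⟨hi, hb⟩ := hk ε hε v w hvw
  have hR0 := RR_pos v w
  have hla : 0 ≤ len (v - w) ^ a := Real.rpow_nonneg (len_nonneg _) _
  have hlg : 0 ≤ len (v - w) ^ (1 + a) := Real.rpow_nonneg (len_nonneg _) _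
  have hω1 := hω0 (RR v w)
  have hle : ∫ σ, kerB (1 + a) b ε v w σ * |dX ψ (v, w, σ)| ∂(surf d) ≤
      ∫ σ, 2 * A * (ω (RR v w) * len (v - w) ^ a) *
        (kerB (1 + a) b ε v w σ * (1 - cosTh v w σ) ^ (a / 2)) ∂(surf d) := by
    refine integral_mono_of_nonneg ?_ (hi.const_mul _) ?_
    · filter_upwards [surf_ae] with σ hσ
      exact mul_nonneg (kerB_nonneg (γ := 1 + a) H.bd hε (v := v) (w := w) hσ) (abs_nonneg _)
    · filter_upwards [surf_ae] with σ hσ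
      have hk0 := kerB_nonneg (γ := 1 + a) H.bd hε (v := v) (w := w) hσ
      calc kerB (1 + a) b ε v w σ * |dX ψ (v, w, σ)|
          ≤ kerB (1 + a) b ε v w σ *
            (2 * A * (ω (RR v w) * len (v - w) ^ a) * (1 - cosTh v w σ) ^ (a / 2)) :=
            mul_le_mul_of_nonneg_left (dX_bd hA ha hω0 hω hψ hvw hσ) hk0
        _ = _ := by ring
  rw [integral_const_mul] at hle
  have hR := len_pow_le ha.le v w
  calc _ ≤ _ := hle
    _ ≤ 2 * A * (ω (RR v w) * len (v - w) ^ a) * (K * len (v - w) ^ (1 + a)) :=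
      mul_le_mul_of_nonneg_left hb (by positivity)
    _ ≤ 2 * A * (ω (RR v w) * (2 ^ a * RR v w ^ a)) * (K * len (v - w) ^ (1 + a)) := by
      gcongr
    _ = _ := by ring

theorem ang_sq (H : Hyp d (1 + a) s b C Ca) (h1 : 2 * s < a) (h3 : a ≤ 1) : ∃ K : ℝ, 0 ≤ K ∧
    ∀ ω : ℝ → ℝ, (∀ x, 0 ≤ ω x) → (∀ x y, 1 ≤ x → x ≤ y → ω x ≤ ω y) →
    ∀ A : ℝ, 0 ≤ A → ∀ ψ : Vec d → ℝ, Hol a ω A ψ → ∀ ε : ℝ, 0 < ε → ∀ v w : Vec d, v ≠ w →
    ∫ σ, kerB (1 + a) b ε v w σ * dX ψ (v, w, σ) ^ 2 ∂(surf d) ≤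
      K * A ^ 2 * (ω (RR v w) ^ 2 * (len (v - w) ^ (1 + a) * RR v w ^ (2 * a))) := by
  have hs := H.hs
  have ha : 0 < a := by linarith
  obtain ⟨K, hK, hk⟩ := full H (τ := a) (by linarith) h3
  refine ⟨4 * (2 ^ (2 * a) * K), by positivity, fun ω hω0 hω A hA ψ hψ ε hε v w hvw => ?_⟩
  obtain ⟨hi, hb⟩ := hk ε hε v w hvw
  have hR0 := RR_pos v w
  have hla : 0 ≤ len (v - w) ^ a := Real.rpow_nonneg (len_nonneg _) _
  have hl2 : 0 ≤ len (v - w) ^ (2 * a) := Real.rpow_nonneg (len_nonneg _) _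
  have hlg : 0 ≤ len (v - w) ^ (1 + a) := Real.rpow_nonneg (len_nonneg _) _
  have hω1 := hω0 (RR v w)
  have hsq : ∀ x : ℝ, 0 ≤ x → (x ^ (a / 2)) ^ 2 = x ^ a := fun x hx => by
    rw [← Real.rpow_natCast, ← Real.rpow_mul hx]
    congr 1
    push_cast
    ring
  have hsq2 : (len (v - w) ^ a) ^ 2 = len (v - w) ^ (2 * a) := by
    rw [← Real.rpow_natCast, ← Real.rpow_mul (len_nonneg _)]
    congr 1
    push_cast
    ring
  have hle : ∫ σ, kerB (1 + a) b ε v w σ * dX ψ (v, w, σ) ^ 2 ∂(surf d) ≤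
      ∫ σ, 4 * A ^ 2 * (ω (RR v w) ^ 2 * len (v - w) ^ (2 * a)) *
        (kerB (1 + a) b ε v w σ * (1 - cosTh v w σ) ^ a) ∂(surf d) := by
    refine integral_mono_of_nonneg ?_ (hi.const_mul _) ?_
    · filter_upwards [surf_ae] with σ hσ
      exact mul_nonneg (kerB_nonneg (γ := 1 + a) H.bd hε (v := v) (w := w) hσ) (sq_nonneg _)
    · filter_upwards [surf_ae] with σ hσ
      have hk0 := kerB_nonneg (γ := 1 + a) H.bd hε (v := v) (w := w) hσ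
      have hy := one_sub_cosTh_nonneg (v := v) (w := w) hσ
      have h5 := dX_bd hA ha hω0 hω hψ hvw hσ
      have h6 : dX ψ (v, w, σ) ^ 2 ≤
          (2 * A * (ω (RR v w) * len (v - w) ^ a) * (1 - cosTh v w σ) ^ (a / 2)) ^ 2 := by
        rw [← sq_abs (dX ψ (v, w, σ))]
        exact pow_le_pow_left₀ (abs_nonneg _) h5 2
      calc kerB (1 + a) b ε v w σ * dX ψ (v, w, σ) ^ 2
          ≤ kerB (1 + a) b ε v w σ *
            (2 * A * (ω (RR v w) * len (v - w) ^ a) * (1 - cosTh v w σ) ^ (a / 2)) ^ 2 :=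
            mul_le_mul_of_nonneg_left h6 hk0
        _ = 4 * A ^ 2 * (ω (RR v w) ^ 2 * (len (v - w) ^ a) ^ 2) *
            (kerB (1 + a) b ε v w σ * ((1 - cosTh v w σ) ^ (a / 2)) ^ 2) := by ring
        _ = _ := by rw [hsq _ hy, hsq2]
  rw [integral_const_mul] at hle
  have hR := len_pow_le (by linarith : 0 ≤ 2 * a) v w
  calc _ ≤ _ := hle
    _ ≤ 4 * A ^ 2 * (ω (RR v w) ^ 2 * len (v - w) ^ (2 * a)) * (K * len (v - w) ^ (1 + a)) :=
      mul_le_mul_of_nonneg_left hb (by positivity)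
    _ ≤ 4 * A ^ 2 * (ω (RR v w) ^ 2 * (2 ^ (2 * a) * RR v w ^ (2 * a))) *
        (K * len (v - w) ^ (1 + a)) := by gcongr
    _ = _ := by ring

theorem ang_bd (H : Hyp d (1 + a) s b C Ca) (h1 : 2 * s < a) (h3 : a ≤ 1) : ∃ K : ℝ, 0 ≤ K ∧
    ∀ A : ℝ, 0 ≤ A → ∀ ψ : Vec d → ℝ, (∀ v, |ψ v| ≤ A) → Hol a (fun _ => 1) A ψ →
    ∀ ε : ℝ, 0 < ε → ∀ v w : Vec d, v ≠ w →
    ∫ σ, kerB (1 + a) b ε v w σ * (ψ (post v w σ) - ψ v) ^ 2 ∂(surf d) ≤
      K * A ^ 2 * (len (v - w) ^ (1 + a) * RR v w ^ a) := by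
  have hs := H.hs
  have ha : 0 < a := by linarith
  obtain ⟨K, hK, hk⟩ := full H (τ := a / 2) (by linarith) (by linarith)
  refine ⟨2 * (2 ^ a * K), by positivity, fun A hA ψ hψA hψ ε hε v w hvw => ?_⟩
  obtain ⟨hi, hb⟩ := hk ε hε v w hvw
  have hR0 := RR_pos v w
  have hla : 0 ≤ len (v - w) ^ a := Real.rpow_nonneg (len_nonneg _) _
  have hlg : 0 ≤ len (v - w) ^ (1 + a) := Real.rpow_nonneg (len_nonneg _) _
  have hle : ∫ σ, kerB (1 + a) b ε v w σ * (ψ (post v w σ) - ψ v) ^ 2 ∂(surf d) ≤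
      ∫ σ, 2 * A ^ 2 * len (v - w) ^ a *
        (kerB (1 + a) b ε v w σ * (1 - cosTh v w σ) ^ (a / 2)) ∂(surf d) := by
    refine integral_mono_of_nonneg ?_ (hi.const_mul _) ?_
    · filter_upwards [surf_ae] with σ hσ
      exact mul_nonneg (kerB_nonneg (γ := 1 + a) H.bd hε (v := v) (w := w) hσ) (sq_nonneg _)
    · filter_upwards [surf_ae] with σ hσ
      have hk0 := kerB_nonneg (γ := 1 + a) H.bd hε (v := v) (w := w) hσ
      have hy := one_sub_cosTh_nonneg (v := v) (w := w) hσ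
      have e1 := inc_bd (ω := fun _ => 1) hA ha (fun _ => zero_le_one) (fun _ _ _ _ => le_rfl) hψ
        hy (jb_post_le (v := v) (w := w) hσ) (jb_le_RR_left v w) (nsq_post_sub hvw hσ)
      rw [one_mul] at e1
      have e2 : |ψ (post v w σ) - ψ v| ≤ 2 * A := by
        have h5 := abs_sub (ψ (post v w σ)) (ψ v)
        have h6 := hψA (post v w σ)
        have h7 := hψA v
        linarith
      have e3 : (ψ (post v w σ) - ψ v) ^ 2 ≤
          2 * A * (A * (len (v - w) ^ a * (1 - cosTh v w σ) ^ (a / 2))) := by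
        rw [← sq_abs, sq]
        exact mul_le_mul e2 e1 (abs_nonneg _) (by positivity)
      calc kerB (1 + a) b ε v w σ * (ψ (post v w σ) - ψ v) ^ 2
          ≤ kerB (1 + a) b ε v w σ *
            (2 * A * (A * (len (v - w) ^ a * (1 - cosTh v w σ) ^ (a / 2)))) :=
            mul_le_mul_of_nonneg_left e3 hk0
        _ = _ := by ring
  rw [integral_const_mul] at hle
  have hR := len_pow_le ha.le v w
  calc _ ≤ _ := hle
    _ ≤ 2 * A ^ 2 * len (v - w) ^ a * (K * len (v - w) ^ (1 + a)) :=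
      mul_le_mul_of_nonneg_left hb (by positivity)
    _ ≤ 2 * A ^ 2 * (2 ^ a * RR v w ^ a) * (K * len (v - w) ^ (1 + a)) := by
      gcongr
    _ = _ := by ring

theorem ang_neg (H : Hyp d (1 + a) s b C Ca) (h0 : 0 < a) : ∃ K : ℝ, 0 ≤ K ∧
    ∀ ε : ℝ, 0 < ε → ∀ v w : Vec d, v ≠ w →
    ∫ σ in {σ : Vec d | cosTh v w σ < 0}, kerB (1 + a) b ε v w σ ∂(surf d) ≤
      K * (len (v - w) ^ (1 + a) * RR v w ^ a) := by
  obtain ⟨A, hA, hk⟩ := ker_large H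
  refine ⟨A, hA, fun ε hε v w hvw => ?_⟩
  obtain ⟨hi, hb⟩ := hk ε hε v w hvw 1 one_pos
  have hlg : 0 ≤ len (v - w) ^ (1 + a) := Real.rpow_nonneg (len_nonneg _) _
  have hsub : {σ : Vec d | cosTh v w σ < 0} ⊆ {σ : Vec d | 1 ≤ 1 - cosTh v w σ} := by
    intro σ hσ
    have h5 : cosTh v w σ < 0 := hσ
    show 1 ≤ 1 - cosTh v w σ
    linarith
  have h6 : ∫ σ in {σ : Vec d | cosTh v w σ < 0}, kerB (1 + a) b ε v w σ ∂(surf d) ≤
      ∫ σ in {σ : Vec d | 1 ≤ 1 - cosTh v w σ}, kerB (1 + a) b ε v w σ ∂(surf d) := by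
    refine setIntegral_mono_set hi ?_ (Eventually.of_forall hsub)
    have h7 : ∀ᵐ σ ∂(surf d), 0 ≤ kerB (1 + a) b ε v w σ := by
      filter_upwards [surf_ae] with σ hσ
      exact kerB_nonneg (γ := 1 + a) H.bd hε (v := v) (w := w) hσ
    exact ae_restrict_of_ae h7
  have h8 : 1 ≤ RR v w ^ a := Real.one_le_rpow (one_le_RR v w) h0.le
  rw [Real.one_rpow, mul_one] at hb
  calc _ ≤ _ := h6
    _ ≤ A * len (v - w) ^ (1 + a) := hb
    _ ≤ A * (len (v - w) ^ (1 + a) * RR v w ^ a) :=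
      mul_le_mul_of_nonneg_left (le_mul_of_one_le_right hlg h8) hA

end Pool.Agent.H87.PE
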