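import Pool.Agent.H87.PE.Sym
import Pool.Agent.H87.PE.AngH

/-!
# Module IntH: the increments of a Holder function against `B G G_*`

Fubini as `ent_fub` (H48/PL/EntA.lean, copy it): for measurable `S` depending only on `(v,w)` and `X` measurable with `PB X`:
`∫_S kx X = ∫_{q ∈ S} G(v)G(w) ∫_σ kerB X` (`kx_int`). Then `ang_*` for every `q = (v,w)`, `v ≠ w` (a.e.: `ent_ne` in EntA), `G ≥ 0`, and `dens_integrable` (the right side is a multiple of `dens`).
`om a V` is nonnegative and monotone in its last variable (`4 - a > 0`, `V ≥ 1`), `≤ 1`.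
* `int_far`: `|∫ kx dX| ≤ ∫_{R₁ < RR} GG ∫ kerB |dX| ≤ K A ∫_{R₁ < RR} dens om a V₁ (RR)`, and `om a V₁ R ≤ om a (max V₁ R₁) R` for `R > R₁` (if `V₁ ≥ R₁` equality, else the right side is `1`).
* `int_near`: `ang_sq`, `om a V₁ (RR) ≤ om a V₁ R₁`, `RR^(2a) = RR^a RR^a ≤ R₁^a RR^a`.
* `int_inc`: `ang_bd`. `int_neg`: `ang_neg`, the set `(Hf d)ᶜ = {cosTh < 0}`.
`Hol` implies `Continuous` and `PG` (`hol_cont`, `hol_PG`: copy `psi_cont`, `psi_PG` of Hw.lean with exponent `0`; here `ω ≤ 1`). `hol_lin`: `|ψ v - ψ 0| ≤ A (d+1)(1 + ‖v‖)` (`len v ≤ jb v ≤ (d+1)(1+‖v‖)`, `jb_le_w`; `a ≤ 1`).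
-/

set_option autoImplicit false

open MeasureTheory Set Filter Topology Pool.Agent.H25.Kin Pool.Agent.H48.PL
open Pool.Agent.H48.PI (om XW)

namespace Pool.Agent.H87.PE

variable {d : ℕ} {s a C Ca : ℝ} {b : ℝ → ℝ}

lemma om_nonneg {V : ℝ} (hV : 1 ≤ V) {R : ℝ} (hR : 0 ≤ R) : 0 ≤ om a V R :=
  Real.rpow_nonneg (le_min zero_le_one (div_nonneg hR (by linarith))) _

lemma om_le_one (ha : a ≤ 1) {V : ℝ} (hV : 1 ≤ V) {R : ℝ} (hR : 0 ≤ R) : om a V R ≤ 1 :=
  Real.rpow_le_one (le_min zero_le_one (div_nonneg hR (by linarith))) (min_le_left _ _) (by linarith)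

private lemma om_mono (ha : a ≤ 1) {V : ℝ} (hV : 1 ≤ V) {x y : ℝ} (hx : 0 ≤ x) (hxy : x ≤ y) :
    om a V x ≤ om a V y := by
  unfold om
  refine Real.rpow_le_rpow (le_min zero_le_one (div_nonneg hx (by linarith))) ?_ (by linarith)
  exact min_le_min le_rfl (div_le_div_of_nonneg_right hxy (by linarith))

private lemma om_max (ha : a ≤ 1) {V R₁ R : ℝ} (hV : 1 ≤ V) (hR₁ : 1 ≤ R₁) (hR : R₁ < R) :
    om a V R ≤ om a (max V R₁) R := by
  rcases le_total R₁ V with h | h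
  · rw [max_eq_left h]
  · rw [max_eq_right h]
    have h1 : om a R₁ R = 1 := by
      unfold om
      rw [min_eq_left ((one_le_div (by linarith)).2 hR.le), Real.one_rpow]
    rw [h1]
    exact om_le_one ha hV (by linarith)

private lemma om_cont (ha : a ≤ 1) (V : ℝ) : Continuous fun R : ℝ => om a V R := by
  unfold om
  exact (continuous_const.min (continuous_id.div_const V)).rpow_const fun _ => Or.inr (by linarith)

private lemma len_zero' : len (0 : Vec d) = 0 := by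
  have h : nsq (0 : Vec d) = 0 := by unfold nsq; simp
  unfold len
  rw [h, Real.sqrt_zero]

private lemma hol_le {ω : ℝ → ℝ} (h1 : ∀ x, 1 ≤ x → ω x ≤ 1) {A : ℝ} (hA : 0 ≤ A)
    {ψ : Vec d → ℝ} (h : Hol a ω A ψ) (w w' : Vec d) : |ψ w - ψ w'| ≤ A * len (w - w') ^ a := by
  refine (h w w').trans (mul_le_mul_of_nonneg_left ?_ hA)
  have h2 := h1 _ ((one_le_jb w).trans (le_max_left (jb w) (jb w')))
  have h3 : 0 ≤ len (w - w') ^ a := Real.rpow_nonneg (len_nonneg _) _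
  calc ω (max (jb w) (jb w')) * len (w - w') ^ a ≤ 1 * len (w - w') ^ a :=
        mul_le_mul_of_nonneg_right h2 h3
    _ = _ := one_mul _

lemma hol_cont (h0 : 0 < a) {ω : ℝ → ℝ} (h1 : ∀ x, 1 ≤ x → ω x ≤ 1) {A : ℝ} (hA : 0 ≤ A)
    {ψ : Vec d → ℝ} (h : Hol a ω A ψ) : Continuous ψ := by
  rw [continuous_iff_continuousAt]
  intro w
  rw [ContinuousAt, tendsto_iff_dist_tendsto_zero]
  have hc : Continuous fun w' : Vec d => A * len (w' - w) ^ a := by
    refine continuous_const.mul ?_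
    exact (continuous_len.comp (continuous_id.sub continuous_const)).rpow_const
      fun w' => Or.inr h0.le
  have h2 : Tendsto (fun w' : Vec d => A * len (w' - w) ^ a) (𝓝 w) (𝓝 0) := by
    have h3 := hc.tendsto w
    rwa [sub_self, len_zero', Real.zero_rpow h0.ne', mul_zero] at h3
  refine squeeze_zero (fun _ => dist_nonneg) (fun w' => ?_) h2
  rw [Real.dist_eq]
  exact hol_le h1 hA h w' w

lemma hol_lin (h0 : 0 < a) (ha : a ≤ 1) {ω : ℝ → ℝ} (h1 : ∀ x, 1 ≤ x → ω x ≤ 1) {A : ℝ} (hA : 0 ≤ A)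
    {ψ : Vec d → ℝ} (h : Hol a ω A ψ) (v : Vec d) :
    |ψ v - ψ 0| ≤ A * ((d : ℝ) + 1) * (1 + ‖v‖) := by
  have h4 := hol_le h1 hA h v 0
  rw [sub_zero] at h4
  have h5 : len v ^ a ≤ jb v := by
    calc len v ^ a ≤ jb v ^ a := Real.rpow_le_rpow (len_nonneg v) (len_le_jb v) h0.le
      _ ≤ jb v ^ (1 : ℝ) := Real.rpow_le_rpow_of_exponent_le (one_le_jb v) ha
      _ = jb v := Real.rpow_one _
  have h6 := jb_le_w v
  calc |ψ v - ψ 0| ≤ A * len v ^ a := h4
    _ ≤ A * (((d : ℝ) + 1) * (1 + ‖v‖)) := mul_le_mul_of_nonneg_left (h5.trans h6) hA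
    _ = _ := by ring

lemma hol_PG (h0 : 0 < a) (ha : a ≤ 1) {ω : ℝ → ℝ} (h1 : ∀ x, 1 ≤ x → ω x ≤ 1) {A : ℝ}
    (hA : 0 ≤ A) {ψ : Vec d → ℝ} (h : Hol a ω A ψ) : PG ψ := by
  refine ⟨1, |ψ 0| + A * ((d : ℝ) + 1), fun v => ?_⟩
  have h2 := hol_lin h0 ha h1 hA h v
  have h3 : |ψ v| ≤ |ψ v - ψ 0| + |ψ 0| := by
    have := abs_add_le (ψ v - ψ 0) (ψ 0)
    rwa [sub_add_cancel] at this
  have h4 : (0 : ℝ) ≤ ‖v‖ := norm_nonneg v
  rw [Real.norm_eq_abs, pow_one]
  nlinarith [abs_nonneg (ψ 0)]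

/-- Fubini on a measurable set -/
private lemma fub {γ : ℝ} (H : Hyp d γ s b C Ca) {ε : ℝ} (hε : 0 < ε) {G : Vec d → ℝ} (hG : RD G)
    (hGc : Continuous G) {X : Vec d × Vec d × Vec d → ℝ} (hX : Measurable X) (hB : PB X)
    {S : Set (Vec d × Vec d × Vec d)} (hS : MeasurableSet S) :
    Integrable (fun q : Vec d × Vec d => G q.1 * G q.2 *
      ∫ σ in {σ : Vec d | (q.1, q.2, σ) ∈ S}, kerB γ b ε q.1 q.2 σ * X (q.1, q.2, σ) ∂(surf d)) ∧
    ∫ p in S, kx γ b ε G p * X p ∂(mu3 d) =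
      ∫ q : Vec d × Vec d, G q.1 * G q.2 *
        ∫ σ in {σ : Vec d | (q.1, q.2, σ) ∈ S}, kerB γ b ε q.1 q.2 σ * X (q.1, q.2, σ)
          ∂(surf d) := by
  have i := (kx_int H hε hG hGc hX hB).indicator hS
  have h3 : MeasurePreserving (MeasurableEquiv.prodAssoc (α := Vec d) (β := Vec d) (γ := Vec d))
      (((volume : Measure (Vec d)).prod volume).prod (surf d)) (mu3 d) :=
    measurePreserving_prodAssoc _ _ _
  have i2 := h3.integrable_comp_of_integrable i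
  have e0 := h3.integral_comp' (S.indicator fun p : Vec d × Vec d × Vec d => kx γ b ε G p * X p)
  have ei : (fun q : Vec d × Vec d => ∫ σ, ((S.indicator fun p : Vec d × Vec d × Vec d =>
      kx γ b ε G p * X p) ∘
      (MeasurableEquiv.prodAssoc (α := Vec d) (β := Vec d) (γ := Vec d))) (q, σ) ∂(surf d)) =
      fun q : Vec d × Vec d => G q.1 * G q.2 *
        ∫ σ in {σ : Vec d | (q.1, q.2, σ) ∈ S}, kerB γ b ε q.1 q.2 σ * X (q.1, q.2, σ)
          ∂(surf d) := by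
    funext q
    have hSq : MeasurableSet {σ : Vec d | (q.1, q.2, σ) ∈ S} :=
      (measurable_const.prodMk (measurable_const.prodMk measurable_id)) hS
    rw [← integral_const_mul, ← integral_indicator hSq]
    refine integral_congr_ae (Eventually.of_forall fun σ => ?_)
    change S.indicator (fun p : Vec d × Vec d × Vec d => kx γ b ε G p * X p) (q.1, q.2, σ) =
      {σ : Vec d | (q.1, q.2, σ) ∈ S}.indicator
        (fun σ => G q.1 * G q.2 * (kerB γ b ε q.1 q.2 σ * X (q.1, q.2, σ))) σ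
    by_cases hm : (q.1, q.2, σ) ∈ S
    · rw [indicator_of_mem hm, indicator_of_mem (show σ ∈ {σ : Vec d | (q.1, q.2, σ) ∈ S} from hm)]
      unfold kx
      ring
    · rw [indicator_of_notMem hm,
        indicator_of_notMem (show σ ∉ {σ : Vec d | (q.1, q.2, σ) ∈ S} from hm)]
  have i3 := i2.integral_prod_left
  have e2 := integral_prod _ i2
  rw [ei] at i3 e2
  refine ⟨i3, ?_⟩
  rw [← integral_indicator hS]
  exact e0.symm.trans e2

private lemma ae_ne (hd : 1 ≤ d) : ∀ᵐ p ∂(volume : Measure (Vec d × Vec d)), p.1 ≠ p.2 := by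
  have hne : Nonempty (Fin d) := ⟨⟨0, by omega⟩⟩
  have hs : MeasurableSet {p : Vec d × Vec d | p.1 ≠ p.2} :=
    (isClosed_eq continuous_fst continuous_snd).measurableSet.compl
  refine (Measure.ae_prod_iff_ae_ae hs).2 (Eventually.of_forall fun v => ?_)
  have : (volume : Measure (Vec d)) {v} = 0 := measure_singleton v
  filter_upwards [compl_mem_ae_iff.2 this] with w hw h
  exact hw h.symm

private lemma maj {γ : ℝ} (H : Hyp d γ s b C Ca) {ε : ℝ} (hε : 0 < ε) {G : Vec d → ℝ} (hG : RD G)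
    (hGc : Continuous G) {X : Vec d × Vec d × Vec d → ℝ} (hX : Measurable X) (hB : PB X)
    {S : Set (Vec d × Vec d × Vec d)} (hS : MeasurableSet S) {M : Vec d × Vec d → ℝ}
    (hM : Integrable M) (hle : ∀ v w : Vec d, v ≠ w → G v * G w *
      ∫ σ in {σ : Vec d | (v, w, σ) ∈ S}, kerB γ b ε v w σ * X (v, w, σ) ∂(surf d) ≤ M (v, w)) :
    ∫ p in S, kx γ b ε G p * X p ∂(mu3 d) ≤ ∫ q, M q := by
  obtain ⟨i1, e1⟩ := fub H hε hG hGc hX hB hS
  rw [e1]
  refine integral_mono_ae i1 hM ?_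
  filter_upwards [ae_ne H.hd1] with q hq
  exact hle q.1 q.2 hq

private lemma RR_set (R₁ : ℝ) :
    MeasurableSet {p : Vec d × Vec d × Vec d | RR p.1 p.2.1 ≤ R₁} := by
  have h : Measurable fun p : Vec d × Vec d × Vec d => RR p.1 p.2.1 :=
    (RR_cont.comp (by fun_prop : Continuous fun p : Vec d × Vec d × Vec d =>
      ((p.1, p.2.1) : Vec d × Vec d))).measurable
  exact measurableSet_le h measurable_const

private lemma hol_om {V : ℝ} {A : ℝ} {ψ : Vec d → ℝ} (h : Hol a (om a V) A ψ) :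
    Hol a (fun x => om a V (max x 0)) A ψ := by
  intro w w'
  have h1 : 0 ≤ max (jb w) (jb w') := (jb_pos w).le.trans (le_max_left _ _)
  have h2 := h w w'
  show |ψ w - ψ w'| ≤ A * (om a V (max (max (jb w) (jb w')) 0) * len (w - w') ^ a)
  rw [max_eq_left h1]
  exact h2

private lemma XW_int (h0 : 0 < a) (h3 : a ≤ 1) {G : Vec d → ℝ} (hG : RD G) (hGc : Continuous G)
    {V : ℝ} (hV : 1 ≤ V) : Integrable fun p : Vec d × Vec d => dens a G p * om a V (RR p.1 p.2) := by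
  have hid := dens_integrable h0.le h3 hG hGc
  refine hid.norm.mono' ?_ (Eventually.of_forall fun p => ?_)
  · exact hid.aestronglyMeasurable.mul ((om_cont h3 V).comp RR_cont).aestronglyMeasurable
  · rw [norm_mul]
    have h4 := om_nonneg (a := a) hV (RR_pos p.1 p.2).le
    have h5 := om_le_one (a := a) h3 hV (RR_pos p.1 p.2).le
    rw [Real.norm_eq_abs (om a V (RR p.1 p.2)), abs_of_nonneg h4]
    calc ‖dens a G p‖ * om a V (RR p.1 p.2) ≤ ‖dens a G p‖ * 1 :=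
          mul_le_mul_of_nonneg_left h5 (norm_nonneg _)
      _ = ‖dens a G p‖ := mul_one _

theorem int_far (H : Hyp d (1 + a) s b C Ca) (h1 : 2 * s < a) (h3 : a ≤ 1) : ∃ K : ℝ, 0 ≤ K ∧
    ∀ G : Vec d → ℝ, RD G → Continuous G → (∀ v, 0 ≤ G v) → ∀ ε : ℝ, 0 < ε → ∀ V₁ : ℝ, 1 ≤ V₁ →
    ∀ R₁ : ℝ, 1 ≤ R₁ → ∀ A : ℝ, 0 ≤ A → ∀ ψ : Vec d → ℝ, Hol a (om a V₁) A ψ →
    |∫ p in {p : Vec d × Vec d × Vec d | RR p.1 p.2.1 ≤ R₁}ᶜ, kx (1 + a) b ε G p * dX ψ p ∂(mu3 d)| ≤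
      K * A * XW a (max V₁ R₁) G univ := by
  obtain ⟨K, hK0, hK⟩ := ang_abs H h1 h3
  refine ⟨K, hK0, fun G hG hGc h0 ε hε V₁ hV₁ R₁ hR₁ A hA ψ hψ => ?_⟩
  have ha0 : 0 < a := by have := H.hs; linarith
  have hw1 : ∀ x, 1 ≤ x → om a V₁ x ≤ 1 := fun x hx => om_le_one h3 hV₁ (by linarith)
  have hψc : Continuous ψ := hol_cont ha0 hw1 hA hψ
  have hψp : PG ψ := hol_PG ha0 h3 hw1 hA hψ
  have hXm : Measurable (dX ψ) := dX_meas hψc.measurable
  have hXB : PB (dX ψ) := dX_PB hψp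
  have hXm' : Measurable fun p => |dX ψ p| := hXm.abs
  have hXB' : PB fun p => |dX ψ p| := by
    obtain ⟨N, B, hB0, hB⟩ := hXB
    refine ⟨N, B, hB0, fun v w σ hσ => ?_⟩
    rw [abs_abs]
    exact hB v w σ hσ
  set S : Set (Vec d × Vec d × Vec d) := {p | RR p.1 p.2.1 ≤ R₁}ᶜ with hS
  have hSm : MeasurableSet S := (RR_set R₁).compl
  have hmx : 1 ≤ max V₁ R₁ := hV₁.trans (le_max_left _ _)
  have e1 : |∫ p in S, kx (1 + a) b ε G p * dX ψ p ∂(mu3 d)| ≤
      ∫ p in S, kx (1 + a) b ε G p * |dX ψ p| ∂(mu3 d) := by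
    rw [← Real.norm_eq_abs]
    refine (norm_integral_le_integral_norm _).trans (le_of_eq ?_)
    refine integral_congr_ae ?_
    refine ae_restrict_of_ae ?_
    filter_upwards [kx_nonneg H hε h0] with p hp
    rw [norm_mul, Real.norm_eq_abs, Real.norm_eq_abs, abs_of_nonneg hp]
  refine e1.trans ?_
  have e2 := maj H hε hG hGc hXm' hXB' hSm
    (M := fun p => K * A * (dens a G p * om a (max V₁ R₁) (RR p.1 p.2)))
    ((XW_int ha0 h3 hG hGc hmx).const_mul (K * A)) ?_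
  · refine e2.trans (le_of_eq ?_)
    rw [integral_const_mul]
    unfold XW
    rw [Measure.restrict_univ]
  · intro v w hvw
    have hGG : 0 ≤ G v * G w := mul_nonneg (h0 v) (h0 w)
    have hKA : 0 ≤ K * A := mul_nonneg hK0 hA
    have hd0 : 0 ≤ dens a G (v, w) := dens_nonneg h0 _
    by_cases hR : RR v w ≤ R₁
    · have hset : {σ : Vec d | (v, w, σ) ∈ S} = ∅ := by
        ext σ
        simp only [mem_ofPred_eq, mem_empty_iff_false, iff_false]
        intro h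
        exact h hR
      rw [hset, setIntegral_empty, mul_zero]
      exact mul_nonneg hKA (mul_nonneg hd0 (om_nonneg hmx (RR_pos v w).le))
    · have hset : {σ : Vec d | (v, w, σ) ∈ S} = univ := by
        ext σ
        simp only [mem_ofPred_eq, mem_univ, iff_true]
        exact fun h => hR h
      rw [hset, Measure.restrict_univ]
      have h5 := hK (fun x => om a V₁ (max x 0)) (fun x => om_nonneg hV₁ (le_max_right _ _))
        (fun x y _ hxy => om_mono h3 hV₁ (le_max_right _ _) (max_le_max hxy le_rfl)) A hA ψ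
        (hol_om hψ) ε hε v w hvw
      have h6 : om a V₁ (max (RR v w) 0) ≤ om a (max V₁ R₁) (RR v w) := by
        rw [max_eq_left (RR_pos v w).le]
        exact om_max h3 hV₁ hR₁ (not_le.1 hR)
      have hl : 0 ≤ len (v - w) ^ (1 + a) * RR v w ^ a :=
        mul_nonneg (Real.rpow_nonneg (len_nonneg _) _) (Real.rpow_nonneg (RR_pos _ _).le _)
      have h7 := mul_le_mul_of_nonneg_left
        (h5.trans (mul_le_mul_of_nonneg_left (mul_le_mul_of_nonneg_right h6 hl) hKA)) hGG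
      refine h7.trans (le_of_eq ?_)
      unfold dens
      ring

theorem int_near (H : Hyp d (1 + a) s b C Ca) (h1 : 2 * s < a) (h3 : a ≤ 1) : ∃ K : ℝ, 0 ≤ K ∧
    ∀ G : Vec d → ℝ, RD G → Continuous G → (∀ v, 0 ≤ G v) → ∀ ε : ℝ, 0 < ε → ∀ V₁ : ℝ, 1 ≤ V₁ →
    ∀ R₁ : ℝ, 1 ≤ R₁ → ∀ A : ℝ, 0 ≤ A → ∀ ψ : Vec d → ℝ, Hol a (om a V₁) A ψ →
    ∫ p in {p : Vec d × Vec d × Vec d | RR p.1 p.2.1 ≤ R₁}, kx (1 + a) b ε G p * dX ψ p ^ 2
      ∂(mu3 d) ≤ K * A ^ 2 * (R₁ ^ a * om a V₁ R₁ ^ 2) * XS a G univ := by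
  obtain ⟨K, hK0, hK⟩ := ang_sq H h1 h3
  refine ⟨K, hK0, fun G hG hGc h0 ε hε V₁ hV₁ R₁ hR₁ A hA ψ hψ => ?_⟩
  have ha0 : 0 < a := by have := H.hs; linarith
  have hw1 : ∀ x, 1 ≤ x → om a V₁ x ≤ 1 := fun x hx => om_le_one h3 hV₁ (by linarith)
  have hψc : Continuous ψ := hol_cont ha0 hw1 hA hψ
  have hψp : PG ψ := hol_PG ha0 h3 hw1 hA hψ
  have hXm : Measurable (dX ψ) := dX_meas hψc.measurable
  have hXB : PB (dX ψ) := dX_PB hψp
  have hXm' : Measurable fun p => dX ψ p ^ 2 := hXm.pow_const 2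
  have hXB' : PB fun p => dX ψ p ^ 2 := by
    have := PB_mul hXB hXB
    simpa only [sq] using this
  have hKA : 0 ≤ K * A ^ 2 * (R₁ ^ a * om a V₁ R₁ ^ 2) :=
    mul_nonneg (mul_nonneg hK0 (sq_nonneg _))
      (mul_nonneg (Real.rpow_nonneg (by linarith) _) (sq_nonneg _))
  have e2 := maj H hε hG hGc hXm' hXB' (RR_set R₁)
    (M := fun p => K * A ^ 2 * (R₁ ^ a * om a V₁ R₁ ^ 2) * dens a G p)
    ((dens_integrable ha0.le h3 hG hGc).const_mul _) ?_
  · refine e2.trans (le_of_eq ?_)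
    rw [integral_const_mul]
    unfold XS
    rw [Measure.restrict_univ]
  · intro v w hvw
    have hGG : 0 ≤ G v * G w := mul_nonneg (h0 v) (h0 w)
    have hd0 : 0 ≤ dens a G (v, w) := dens_nonneg h0 _
    by_cases hR : RR v w ≤ R₁
    · have hset : {σ : Vec d | (v, w, σ) ∈ {p : Vec d × Vec d × Vec d | RR p.1 p.2.1 ≤ R₁}} =
          univ := by
        ext σ
        simp only [mem_ofPred_eq, mem_univ, iff_true]
        exact hR
      rw [hset, Measure.restrict_univ]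
      have h5 := hK (fun x => om a V₁ (max x 0)) (fun x => om_nonneg hV₁ (le_max_right _ _))
        (fun x y _ hxy => om_mono h3 hV₁ (le_max_right _ _) (max_le_max hxy le_rfl)) A hA ψ
        (hol_om hψ) ε hε v w hvw
      have hR0 := RR_pos v w
      have h6 : om a V₁ (max (RR v w) 0) ^ 2 ≤ om a V₁ R₁ ^ 2 := by
        rw [max_eq_left hR0.le]
        exact pow_le_pow_left₀ (om_nonneg hV₁ hR0.le) (om_mono h3 hV₁ hR0.le hR) 2
      have hl1 : 0 ≤ len (v - w) ^ (1 + a) := Real.rpow_nonneg (len_nonneg _) _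
      have hRa : 0 ≤ RR v w ^ a := Real.rpow_nonneg hR0.le _
      have h7 : RR v w ^ (2 * a) ≤ R₁ ^ a * RR v w ^ a := by
        rw [two_mul, Real.rpow_add hR0]
        exact mul_le_mul_of_nonneg_right (Real.rpow_le_rpow hR0.le hR ha0.le) hRa
      have h8 : om a V₁ (max (RR v w) 0) ^ 2 * (len (v - w) ^ (1 + a) * RR v w ^ (2 * a)) ≤
          om a V₁ R₁ ^ 2 * (len (v - w) ^ (1 + a) * (R₁ ^ a * RR v w ^ a)) :=
        mul_le_mul h6 (mul_le_mul_of_nonneg_left h7 hl1)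
          (mul_nonneg hl1 (Real.rpow_nonneg hR0.le _)) (sq_nonneg _)
      have h9 := mul_le_mul_of_nonneg_left
        (h5.trans (mul_le_mul_of_nonneg_left h8 (mul_nonneg hK0 (sq_nonneg A)))) hGG
      refine h9.trans (le_of_eq ?_)
      unfold dens
      ring
    · have hset : {σ : Vec d | (v, w, σ) ∈ {p : Vec d × Vec d × Vec d | RR p.1 p.2.1 ≤ R₁}} =
          ∅ := by
        ext σ
        simp only [mem_ofPred_eq, mem_empty_iff_false, iff_false]
        exact hR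
      rw [hset, setIntegral_empty, mul_zero]
      exact mul_nonneg hKA hd0

theorem int_inc (H : Hyp d (1 + a) s b C Ca) (h1 : 2 * s < a) (h3 : a ≤ 1) : ∃ K : ℝ, 0 ≤ K ∧
    ∀ G : Vec d → ℝ, RD G → Continuous G → (∀ v, 0 ≤ G v) → ∀ ε : ℝ, 0 < ε →
    ∀ A : ℝ, 0 ≤ A → ∀ ψ : Vec d → ℝ, (∀ v, |ψ v| ≤ A) → Hol a (fun _ => 1) A ψ →
    ∫ p, kx (1 + a) b ε G p * (ψ (post p.1 p.2.1 p.2.2) - ψ p.1) ^ 2 ∂(mu3 d) ≤
      K * A ^ 2 * XS a G univ := by
  obtain ⟨K, hK0, hK⟩ := ang_bd H h1 h3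
  refine ⟨K, hK0, fun G hG hGc h0 ε hε A hA ψ hψA hψ => ?_⟩
  have ha0 : 0 < a := by have := H.hs; linarith
  have hψc : Continuous ψ := hol_cont ha0 (fun _ _ => le_rfl) hA hψ
  have hXm : Measurable fun p : Vec d × Vec d × Vec d =>
      (ψ (post p.1 p.2.1 p.2.2) - ψ p.1) ^ 2 := by
    have hp : Measurable fun p : Vec d × Vec d × Vec d => post p.1 p.2.1 p.2.2 :=
      continuous_post.measurable
    exact ((hψc.measurable.comp hp).sub (hψc.measurable.comp measurable_fst)).pow_const 2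
  have hXB : PB fun p : Vec d × Vec d × Vec d => (ψ (post p.1 p.2.1 p.2.2) - ψ p.1) ^ 2 := by
    refine ⟨0, (2 * A) ^ 2, sq_nonneg _, fun v w σ _ => ?_⟩
    rw [pow_zero, mul_one, abs_of_nonneg (sq_nonneg _)]
    have h4 := abs_le.1 (hψA (post v w σ))
    have h5 := abs_le.1 (hψA v)
    exact sq_le_sq' (by linarith) (by linarith)
  have e2 := maj H hε hG hGc hXm hXB MeasurableSet.univ
    (M := fun p => K * A ^ 2 * dens a G p)
    ((dens_integrable ha0.le h3 hG hGc).const_mul _) ?_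
  · rw [Measure.restrict_univ] at e2
    refine e2.trans (le_of_eq ?_)
    rw [integral_const_mul]
    unfold XS
    rw [Measure.restrict_univ]
  · intro v w hvw
    have hGG : 0 ≤ G v * G w := mul_nonneg (h0 v) (h0 w)
    have hset : {σ : Vec d | (v, w, σ) ∈ (univ : Set (Vec d × Vec d × Vec d))} = univ := by
      ext σ
      simp
    rw [hset, Measure.restrict_univ]
    have h5 := mul_le_mul_of_nonneg_left (hK A hA ψ hψA hψ ε hε v w hvw) hGG
    refine h5.trans (le_of_eq ?_)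
    unfold dens
    ring

theorem int_neg (H : Hyp d (1 + a) s b C Ca) (h0 : 0 < a) (h3 : a ≤ 1) : ∃ K : ℝ, 0 ≤ K ∧
    ∀ G : Vec d → ℝ, RD G → Continuous G → (∀ v, 0 ≤ G v) → ∀ ε : ℝ, 0 < ε →
    ∫ p in (Hf d)ᶜ, kx (1 + a) b ε G p ∂(mu3 d) ≤ K * XS a G univ := by
  obtain ⟨K, hK0, hK⟩ := ang_neg H h0
  refine ⟨K, hK0, fun G hG hGc hG0 ε hε => ?_⟩
  have hXB : PB fun _ : Vec d × Vec d × Vec d => (1 : ℝ) :=
    ⟨0, 1, zero_le_one, fun v w σ _ => by simp⟩
  have e2 := maj H hε hG hGc (X := fun _ => (1 : ℝ)) measurable_const hXB (Hf_meas (d := d)).compl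
    (M := fun p => K * dens a G p) ((dens_integrable h0.le h3 hG hGc).const_mul _) ?_
  · simp only [mul_one] at e2
    refine e2.trans (le_of_eq ?_)
    rw [integral_const_mul]
    unfold XS
    rw [Measure.restrict_univ]
  · intro v w hvw
    have hGG : 0 ≤ G v * G w := mul_nonneg (hG0 v) (hG0 w)
    have hset : {σ : Vec d | (v, w, σ) ∈ (Hf d)ᶜ} = {σ : Vec d | cosTh v w σ < 0} := by
      ext σ
      show ¬ (0 ≤ cosTh v w σ) ↔ cosTh v w σ < 0
      exact not_le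
    rw [hset]
    simp only [mul_one]
    have h5 := mul_le_mul_of_nonneg_left (hK ε hε v w hvw) hGG
    refine h5.trans (le_of_eq ?_)
    unfold dens
    ring

end Pool.Agent.H87.PE
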