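import Pool.Agent.H87.PE.Cs
import Pool.Agent.H87.PE.IntH
import Pool.Agent.H87.PE.Tra

/-!
# Module Hold: the collision operator tested with a Holder function

`K = max` of the constants of `int_near`, `int_far`. For `G = g + δ gau` (`gd_reg`): `∫ Q_ε(G) ψ = (1/2) ∫ kx dX ψ` (`weak_cut`), split `S = {RR ≤ R₁}` (`RR_post`: invariant) and `Sᶜ`:
`|∫ Q_ε(G) ψ| ≤ (1/2)[(1/e₀) Pc + (e₀/4) K A² (R₁^a om²) XS(G) + K A XW(G)]` (`cs_cut` with `lam = e₀`). `tra`: `|∫ Q_ε(g) ψ| ≤ 2 (...) + η'`; `Pc ≤ Dn + η'` for small `ε` (`Pc_lim`),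
`XS(G) ≤ XS(g) + η'`, `XW(G) ≤ XW(g) + η'`; `ε → 0` by `boltz_weak_tendsto`. `η'` small depending on `e₀, A₁, R₁, K, η`.
-/

set_option autoImplicit false

open MeasureTheory Set Filter Topology Pool.Agent.H25.Kin Pool.Agent.H48.PL
open Pool.Agent.H15.AV (gau UNice)
open Pool.Agent.H48.PI (om XW Dn)
open Pool.Agent.H82.CM (HypL)

namespace Pool.Agent.H87.PE

variable {d : ℕ} {s a C Ca : ℝ} {b : ℝ → ℝ}

private lemma eh_RR_meas : Measurable fun p : Vec d × Vec d × Vec d => RR p.1 p.2.1 :=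
  (RR_cont.comp (by fun_prop : Continuous fun p : Vec d × Vec d × Vec d =>
    ((p.1, p.2.1) : Vec d × Vec d))).measurable

private lemma eh_S_meas (R₁ : ℝ) :
    MeasurableSet {p : Vec d × Vec d × Vec d | RR p.1 p.2.1 ≤ R₁} :=
  measurableSet_le eh_RR_meas measurable_const

private lemma eh_weak {γ : ℝ} (H : Hyp d γ s b C Ca) {ε : ℝ} (hε : 0 < ε) {G : Vec d → ℝ} (hG : RD G)
    (hGc : Continuous G) {φ : Vec d → ℝ} (hφ : PG φ) (hφm : Measurable φ) :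
    ∫ v, boltzCut γ b ε G v * φ v = (1 / 2) * ∫ p, kx γ b ε G p * dX φ p ∂(mu3 d) :=
  weak_cut H.hd H.g1 H.g2 H.bm H.bd H.β0 hε hG hGc hφ hφm

/-- the estimate at the cut-off level -/
private lemma eh_cut (H : Hyp d (1 + a) s b C Ca) (h1 : 2 * s < a) (h3 : a ≤ 1) : ∃ K : ℝ, 0 ≤ K ∧
    ∀ R₁ : ℝ, 1 ≤ R₁ → ∀ e₀ : ℝ, 0 < e₀ → ∀ G : Vec d → ℝ, Gd G → ∀ ε : ℝ, 0 < ε → ∀ V₁ : ℝ, 1 ≤ V₁ →
    ∀ A : ℝ, 0 ≤ A → ∀ ψ : Vec d → ℝ, Hol a (om a V₁) A ψ →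
    2 * |∫ v, boltzCut (1 + a) b ε G v * ψ v| ≤ (1 / e₀) * Pc (1 + a) b ε G +
      e₀ * K * A ^ 2 * (R₁ ^ a * om a V₁ R₁ ^ 2) * XS a G univ + K * A * XW a (max V₁ R₁) G univ := by
  have hs := H.hs
  have h0 : 0 < a := by linarith
  obtain ⟨K₁, hK₁, hnear⟩ := int_near H h1 h3
  obtain ⟨K₂, hK₂, hfar⟩ := int_far H h1 h3
  refine ⟨max K₁ K₂, hK₁.trans (le_max_left _ _), ?_⟩
  intro R₁ hR₁ e₀ he₀ G hG ε hε V₁ hV₁ A hA ψ hψ
  have hom1 : ∀ x : ℝ, 1 ≤ x → om a V₁ x ≤ 1 := fun x hx => om_le_one h3 hV₁ (by linarith)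
  have hc := hol_cont h0 hom1 hA hψ
  have hPG := hol_PG h0 h3 hom1 hA hψ
  have hG0 : ∀ v, 0 ≤ G v := fun v => (hG.pos v).le
  set S : Set (Vec d × Vec d × Vec d) := {p | RR p.1 p.2.1 ≤ R₁} with hS
  have hSm : MeasurableSet S := eh_S_meas R₁
  have hSc : ∀ v w σ : Vec d, v ≠ w → nsq σ = 1 → (coll (v, w, σ) ∈ S ↔ (v, w, σ) ∈ S) := by
    intro v w σ _ hσ
    show RR (post v w σ) (post' v w σ) ≤ R₁ ↔ RR v w ≤ R₁
    rw [RR_post hσ]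
  have hi : Integrable (fun p => kx (1 + a) b ε G p * dX ψ p) (mu3 d) :=
    kx_int H hε hG.rd hG.cont (dX_meas hc.measurable) (dX_PB hPG)
  have hw := eh_weak H hε hG.rd hG.cont hPG hc.measurable
  rw [← integral_add_compl hSm hi] at hw
  have a1 := cs_cut H hε hG hPG hc.measurable hSm hSc he₀
  have a2 := hnear G hG.rd hG.cont hG0 ε hε V₁ hV₁ R₁ hR₁ A hA ψ hψ
  have a3 := hfar G hG.rd hG.cont hG0 ε hε V₁ hV₁ R₁ hR₁ A hA ψ hψ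
  have hXS : 0 ≤ XS a G univ := XS_nonneg hG0 univ
  have hXW : 0 ≤ XW a (max V₁ R₁) G univ := by
    unfold XW
    refine integral_nonneg fun p => mul_nonneg (dens_nonneg hG0 p) ?_
    exact om_nonneg (hV₁.trans (le_max_left _ _)) (by
      have := one_le_RR p.1 p.2
      linarith)
  have hT : 0 ≤ R₁ ^ a * om a V₁ R₁ ^ 2 := by positivity
  have b1 : (e₀ / 4) * (K₁ * A ^ 2 * (R₁ ^ a * om a V₁ R₁ ^ 2) * XS a G univ) ≤
      e₀ * max K₁ K₂ * A ^ 2 * (R₁ ^ a * om a V₁ R₁ ^ 2) * XS a G univ := by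
    have c1 : (e₀ / 4) * (K₁ * A ^ 2 * (R₁ ^ a * om a V₁ R₁ ^ 2) * XS a G univ) =
        (e₀ * K₁ / 4) * (A ^ 2 * (R₁ ^ a * om a V₁ R₁ ^ 2) * XS a G univ) := by ring
    have c2 : e₀ * max K₁ K₂ * A ^ 2 * (R₁ ^ a * om a V₁ R₁ ^ 2) * XS a G univ =
        (e₀ * max K₁ K₂) * (A ^ 2 * (R₁ ^ a * om a V₁ R₁ ^ 2) * XS a G univ) := by ring
    rw [c1, c2]
    refine mul_le_mul_of_nonneg_right ?_ (by positivity)
    have c3 : e₀ * K₁ ≤ e₀ * max K₁ K₂ := mul_le_mul_of_nonneg_left (le_max_left _ _) he₀.le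
    have c4 : 0 ≤ e₀ * K₁ := by positivity
    linarith
  have b2 : K₂ * A * XW a (max V₁ R₁) G univ ≤ max K₁ K₂ * A * XW a (max V₁ R₁) G univ := by
    refine mul_le_mul_of_nonneg_right ?_ hXW
    exact mul_le_mul_of_nonneg_right (le_max_right _ _) hA
  have b3 := mul_le_mul_of_nonneg_left a2 (by positivity : (0 : ℝ) ≤ e₀ / 4)
  have b4 : 2 * |∫ v, boltzCut (1 + a) b ε G v * ψ v| ≤
      |∫ p in S, kx (1 + a) b ε G p * dX ψ p ∂(mu3 d)| +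
        |∫ p in Sᶜ, kx (1 + a) b ε G p * dX ψ p ∂(mu3 d)| := by
    rw [hw, abs_mul, abs_of_pos (by norm_num : (0 : ℝ) < 1 / 2)]
    have := abs_add_le (∫ p in S, kx (1 + a) b ε G p * dX ψ p ∂(mu3 d))
      (∫ p in Sᶜ, kx (1 + a) b ε G p * dX ψ p ∂(mu3 d))
    linarith
  linarith

theorem err_hold (H : Hyp d (1 + a) s b C Ca) (h1 : 2 * s < a) (h3 : a ≤ 1) :
    ∃ K : ℝ, 0 ≤ K ∧ ∀ R₁ : ℝ, 1 ≤ R₁ → ∀ e₀ : ℝ, 0 < e₀ → ∀ (A₁ : ℝ) (Cl : ℕ → ℝ) (η : ℝ), 0 < η →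
      ∃ δ₀ > 0, ∀ δ ∈ Ioc (0 : ℝ) δ₀, ∀ g : Vec d → ℝ, UNice Cl g → ∀ V₁ : ℝ, 1 ≤ V₁ →
      ∀ A : ℝ, 0 ≤ A → A ≤ A₁ → ∀ ψ : Vec d → ℝ,
      (∀ w w' : Vec d, |ψ w - ψ w'| ≤ A * (om a V₁ (max (jb w) (jb w')) * len (w - w') ^ a)) →
      |∫ w, boltzQ (1 + a) b g w * ψ w| ≤
        (1 / e₀) * Dn (1 + a) b δ g + e₀ * K * A ^ 2 * (R₁ ^ a * om a V₁ R₁ ^ 2) * XS a g univ +
          K * A * XW a (max V₁ R₁) g univ + η := by
  have hs := H.hs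
  have h0 : 0 < a := by linarith
  obtain ⟨K, hK, hcut⟩ := eh_cut H h1 h3
  refine ⟨K, hK, fun R₁ hR₁ e₀ he₀ A₁ Cl η hη => ?_⟩
  have hR0 : 0 ≤ R₁ ^ a := Real.rpow_nonneg (by linarith) _
  set B : ℝ := 1 / e₀ + e₀ * K * A₁ ^ 2 * R₁ ^ a + K * |A₁| + 1 with hB
  have hB0 : 0 < B := by positivity
  set η' : ℝ := η / B with hη'
  have hη'0 : 0 < η' := div_pos hη hB0
  have hηB : B * η' = η := by
    rw [hη']
    field_simp
  obtain ⟨δa, hδa, hδah, htra⟩ := tra H Cl (A₁ * ((d : ℝ) + 1)) hη'0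
  obtain ⟨δb, hδb, hδbh, hPc⟩ := Pc_lim H Cl hη'0
  obtain ⟨δc, hδc, hXS⟩ := XS_reg (d := d) h0.le h3 Cl hη'0
  obtain ⟨δe, hδe, hXW⟩ := XW_reg (d := d) h0.le h3 Cl hη'0
  refine ⟨min (min δa δb) (min δc δe), lt_min (lt_min hδa hδb) (lt_min hδc hδe), ?_⟩
  intro δ hδ g hg V₁ hV₁ A hA hAA ψ hψ
  have hd0 : 0 < δ := hδ.1
  have hda : δ ≤ δa := hδ.2.trans ((min_le_left _ _).trans (min_le_left _ _))
  have hdb : δ ≤ δb := hδ.2.trans ((min_le_left _ _).trans (min_le_right _ _))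
  have hdc : δ ≤ δc := hδ.2.trans ((min_le_right _ _).trans (min_le_left _ _))
  have hde : δ ≤ δe := hδ.2.trans ((min_le_right _ _).trans (min_le_right _ _))
  have hd1 : δ ≤ 1 := by linarith
  have hom1 : ∀ x : ℝ, 1 ≤ x → om a V₁ x ≤ 1 := fun x hx => om_le_one h3 hV₁ (by linarith)
  have hom0 : ∀ x : ℝ, 0 ≤ x → 0 ≤ om a V₁ x := fun x hx => om_nonneg hV₁ hx
  have hψ' : Hol a (om a V₁) A ψ := hψ
  have hc := hol_cont h0 hom1 hA hψ'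
  have hPG := hol_PG h0 h3 hom1 hA hψ'
  have hG := gd_reg hg hd0 hd1
  have hA1 : 0 ≤ A₁ := hA.trans hAA
  have hlin : ∀ v, |ψ v - ψ 0| ≤ A₁ * ((d : ℝ) + 1) * (1 + ‖v‖) := by
    intro v
    refine (hol_lin h0 h3 hom1 hA hψ' v).trans ?_
    have hw := (w_pos v).le
    have hdd : (0 : ℝ) ≤ (d : ℝ) + 1 := by positivity
    gcongr
  obtain ⟨hDn, hev⟩ := hPc δ ⟨hd0, hdb⟩ g hg
  have hx1 := hXS δ ⟨hd0, hdc⟩ g hg univ MeasurableSet.univ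
  have hx2 := hXW δ ⟨hd0, hde⟩ g hg (max V₁ R₁) (hV₁.trans (le_max_left _ _))
  have hlim := (boltz_weak_tendsto H hg.nice hPG hc.measurable).abs
  refine le_of_tendsto hlim ?_
  filter_upwards [hev, self_mem_nhdsWithin] with ε hPε hε
  have hε0 : 0 < ε := hε
  have t1 := htra δ ⟨hd0, hda⟩ g hg ψ hc.measurable hlin ε hε0
  have t2 := hcut R₁ hR₁ e₀ he₀ _ hG ε hε0 V₁ hV₁ A hA ψ hψ'
  set T : ℝ := R₁ ^ a * om a V₁ R₁ ^ 2 with hT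
  have hT0 : 0 ≤ T := by positivity
  have hTR : T ≤ R₁ ^ a := by
    have c1 : om a V₁ R₁ ^ 2 ≤ 1 := pow_le_one₀ (hom0 R₁ (by linarith)) (hom1 R₁ hR₁)
    exact mul_le_of_le_one_right hR0 c1
  have s1 : (1 / e₀) * Pc (1 + a) b ε (fun v => g v + δ * gau v) ≤
      (1 / e₀) * Dn (1 + a) b δ g + (1 / e₀) * η' := by
    have := mul_le_mul_of_nonneg_left hPε (by positivity : (0 : ℝ) ≤ 1 / e₀)
    linarith
  have s2 : e₀ * K * A ^ 2 * T * XS a (fun v => g v + δ * gau v) univ ≤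
      e₀ * K * A ^ 2 * T * XS a g univ + e₀ * K * A₁ ^ 2 * R₁ ^ a * η' := by
    have c0 : 0 ≤ e₀ * K * A ^ 2 * T := by positivity
    have c1 := mul_le_mul_of_nonneg_left hx1 c0
    have c2 : e₀ * K * A ^ 2 * T ≤ e₀ * K * A₁ ^ 2 * R₁ ^ a := by gcongr
    have c3 := mul_le_mul_of_nonneg_right c2 hη'0.le
    linarith
  have s3 : K * A * XW a (max V₁ R₁) (fun v => g v + δ * gau v) univ ≤
      K * A * XW a (max V₁ R₁) g univ + K * |A₁| * η' := by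
    have c0 : 0 ≤ K * A := by positivity
    have c1 := mul_le_mul_of_nonneg_left hx2 c0
    have c2 : K * A ≤ K * |A₁| := mul_le_mul_of_nonneg_left (hAA.trans (le_abs_self _)) hK
    have c3 := mul_le_mul_of_nonneg_right c2 hη'0.le
    linarith
  have s4 : B * η' = (1 / e₀) * η' + e₀ * K * A₁ ^ 2 * R₁ ^ a * η' + K * |A₁| * η' + η' := by
    rw [hB]
    ring
  linarith

end Pool.Agent.H87.PE
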