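import Pool.Agent.H87.PE.Sym

/-!
# Module Cs: Cauchy-Schwarz against the entropy production

Scalar: for `x, y > 0`: `(x - y)² ≤ ((x + y)/2) (x - y)(log x - log y)` (for `x > y`, `t = x/y > 1`: `log t ≥ 2(t-1)/(t+1)`: the derivative of the difference is
`(t-1)²/(t(t+1)²) ≥ 0`). Hence for every real `F` and `lam > 0`:
`|(x - y) F| ≤ (x-y)(log x - log y)/(2 lam) + (lam/4)(x + y) F²` (square both sides, `(p+q)² ≥ 4pq`).
`F := S.indicator (dX φ)`: `F (coll p) = - F p` for good `p` (`dX_coll`, hypothesis on `S`), so `∫ kx F = -∫ ky F` (`coll_sw`) and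
`2 ∫ kx F = ∫ (kx - ky) F`. Pointwise a.e. (multiply the scalar inequality by `kerB ≥ 0`): `|(kx - ky) F| ≤ (1/(2 lam)) (kx - ky) lg + (lam/4)(kx + ky) F²`.
Integrate: `≤ (1/(2 lam)) 4 Pc + (lam/4)·2 ∫ kx F²` (`prd_eq`, `coll_sw` for `F²`). Integrability: `kx_int`, `ky_int` with `PB` of `F`, `F²` (`dX_PB`, `PB_ind`, `PB_mul`).
-/

set_option autoImplicit false

open MeasureTheory Set Filter Topology Pool.Agent.H25.Kin Pool.Agent.H48.PL

namespace Pool.Agent.H87.PE

variable {d : ℕ} {γ s C Ca : ℝ} {b : ℝ → ℝ}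

private lemma log_gap {x y : ℝ} (hy : 0 < y) (hxy : y ≤ x) :
    (x - y) ^ 2 ≤ (x + y) / 2 * ((x - y) * (Real.log x - Real.log y)) := by
  have hx : 0 < x := lt_of_lt_of_le hy hxy
  have hz : 0 ≤ (x - y) / y := div_nonneg (by linarith) hy.le
  have h1 := Real.le_log_one_add_of_nonneg hz
  have h2 : 1 + (x - y) / y = x / y := by field_simp; ring
  have h3 : 2 * ((x - y) / y) / ((x - y) / y + 2) = 2 * (x - y) / (x + y) := by
    have : (x - y) / y + 2 = (x + y) / y := by field_simp; ring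
    rw [this]; field_simp
  rw [h2, h3, Real.log_div hx.ne' hy.ne', div_le_iff₀ (by linarith)] at h1
  have h4 := mul_le_mul_of_nonneg_left h1 (show (0 : ℝ) ≤ x - y by linarith)
  nlinarith [h4]

private lemma log_gap' {x y : ℝ} (hx : 0 < x) (hy : 0 < y) :
    (x - y) ^ 2 ≤ (x + y) / 2 * ((x - y) * (Real.log x - Real.log y)) := by
  rcases le_total y x with h | h
  · exact log_gap hy h
  · have := log_gap hx h
    nlinarith [this]

private lemma log_amgm {x y F lam : ℝ} (hx : 0 < x) (hy : 0 < y) (hl : 0 < lam) :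
    |(x - y) * F| ≤ 1 / (2 * lam) * ((x - y) * (Real.log x - Real.log y)) +
      lam / 4 * ((x + y) * F ^ 2) := by
  have h0 := log_gap' hx hy
  set A := (x - y) * (Real.log x - Real.log y) with hA
  have hS : 0 < x + y := by linarith
  have hA0 : 0 ≤ A := by
    by_contra hneg
    push Not at hneg
    have : (x + y) / 2 * A < 0 := mul_neg_of_pos_of_neg (by linarith) hneg
    nlinarith [sq_nonneg (x - y)]
  set P := 1 / (2 * lam) * A with hP
  set Q := lam / 4 * ((x + y) * F ^ 2) with hQ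
  have hP0 : 0 ≤ P := mul_nonneg (by positivity) hA0
  have hQ0 : 0 ≤ Q := by positivity
  have hPQ : 4 * (P * Q) = (x + y) / 2 * A * F ^ 2 := by
    rw [hP, hQ]; field_simp
  have h5 : ((x - y) * F) ^ 2 ≤ (P + Q) ^ 2 := by
    have h6 : (x - y) ^ 2 * F ^ 2 ≤ (x + y) / 2 * A * F ^ 2 :=
      mul_le_mul_of_nonneg_right h0 (sq_nonneg F)
    nlinarith [sq_nonneg (P - Q)]
  exact abs_le_of_sq_le_sq h5 (by linarith)

theorem cs_cut (H : Hyp d γ s b C Ca) {ε : ℝ} (hε : 0 < ε) {G : Vec d → ℝ} (hG : Gd G)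
    {φ : Vec d → ℝ} (hφ : PG φ) (hφm : Measurable φ) {S : Set (Vec d × Vec d × Vec d)}
    (hS : MeasurableSet S)
    (hc : ∀ v w σ : Vec d, v ≠ w → nsq σ = 1 → (coll (v, w, σ) ∈ S ↔ (v, w, σ) ∈ S))
    {lam : ℝ} (hl : 0 < lam) :
    |∫ p in S, kx γ b ε G p * dX φ p ∂(mu3 d)| ≤
      (1 / lam) * Pc γ b ε G + (lam / 4) * ∫ p in S, kx γ b ε G p * dX φ p ^ 2 ∂(mu3 d) := by
  have hGm : Measurable G := hG.cont.measurable
  set F : Vec d × Vec d × Vec d → ℝ := S.indicator (dX φ) with hF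
  have hFm : Measurable F := (dX_meas hφm).indicator hS
  have hFB : PB F := PB_ind (dX_PB hφ) S
  have hF2m : Measurable fun p => F p * F p := hFm.mul hFm
  have hF2B : PB fun p => F p * F p := PB_mul hFB hFB
  have e1 : ∫ p in S, kx γ b ε G p * dX φ p ∂(mu3 d) = ∫ p, kx γ b ε G p * F p ∂(mu3 d) := by
    rw [← integral_indicator hS]
    refine integral_congr_ae (ae_of_all _ fun p => ?_)
    by_cases hp : p ∈ S
    · simp [hF, hp]
    · simp [hF, hp]
  have e2 : ∫ p in S, kx γ b ε G p * dX φ p ^ 2 ∂(mu3 d) =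
      ∫ p, kx γ b ε G p * (F p * F p) ∂(mu3 d) := by
    rw [← integral_indicator hS]
    refine integral_congr_ae (ae_of_all _ fun p => ?_)
    by_cases hp : p ∈ S
    · simp [hF, hp, sq]
    · simp [hF, hp]
  have hgood := ae_good (d := d) H.hd1
  have hFc : ∀ᵐ p ∂(mu3 d), F (coll p) = -F p := by
    filter_upwards [hgood] with p hp
    obtain ⟨v, w, σ⟩ := p
    have h1 := hc v w σ hp.1 hp.2
    have h2 := dX_coll φ hp.1 hp.2
    simp only [hF]
    by_cases hm : (v, w, σ) ∈ S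
    · rw [Set.indicator_of_mem (h1.2 hm), Set.indicator_of_mem hm, h2]
    · rw [Set.indicator_of_notMem (fun h => hm (h1.1 h)), Set.indicator_of_notMem hm, neg_zero]
  have iX := kx_int H hε hG.rd hG.cont hFm hFB
  have iY := ky_int H hε hG.rd hG.cont hFm hFB
  have iX2 := kx_int H hε hG.rd hG.cont hF2m hF2B
  have iY2 := ky_int H hε hG.rd hG.cont hF2m hF2B
  have s1 : ∫ p, ky γ b ε G p * F p ∂(mu3 d) = -∫ p, kx γ b ε G p * F p ∂(mu3 d) := by
    rw [← coll_sw H ε hGm hFm, ← integral_neg]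
    refine integral_congr_ae ?_
    filter_upwards [hFc] with p hp
    rw [hp]; ring
  have s2 : ∫ p, ky γ b ε G p * (F p * F p) ∂(mu3 d) = ∫ p, kx γ b ε G p * (F p * F p) ∂(mu3 d) := by
    rw [← coll_sw H ε hGm hF2m]
    refine integral_congr_ae ?_
    filter_upwards [hFc] with p hp
    rw [hp]; ring
  have s3 : 2 * ∫ p, kx γ b ε G p * F p ∂(mu3 d) =
      ∫ p, (kx γ b ε G p * F p - ky γ b ε G p * F p) ∂(mu3 d) := by
    rw [integral_sub iX iY, s1]; ring
  have iP := prd_int H hε hG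
  have iQ : Integrable (fun p => kx γ b ε G p * (F p * F p) + ky γ b ε G p * (F p * F p)) (mu3 d) :=
    iX2.add iY2
  have iR : Integrable (fun p => 1 / (2 * lam) * ((kx γ b ε G p - ky γ b ε G p) * lg G p) +
      lam / 4 * (kx γ b ε G p * (F p * F p) + ky γ b ε G p * (F p * F p))) (mu3 d) :=
    (iP.const_mul _).add (iQ.const_mul _)
  have hpt : ∀ᵐ p ∂(mu3 d), ‖kx γ b ε G p * F p - ky γ b ε G p * F p‖ ≤
      1 / (2 * lam) * ((kx γ b ε G p - ky γ b ε G p) * lg G p) +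
      lam / 4 * (kx γ b ε G p * (F p * F p) + ky γ b ε G p * (F p * F p)) := by
    filter_upwards [kx_nonneg H hε (fun v => (hG.pos v).le)] with p hp
    have hx : 0 < G p.2.1 * G p.1 := mul_pos (hG.pos _) (hG.pos _)
    have hy : 0 < G (post p.1 p.2.1 p.2.2) * G (post' p.1 p.2.1 p.2.2) :=
      mul_pos (hG.pos _) (hG.pos _)
    have hk : 0 ≤ kerB γ b ε p.1 p.2.1 p.2.2 := by
      unfold kx at hp
      exact nonneg_of_mul_nonneg_left hp hx
    have h1 := mul_le_mul_of_nonneg_left (log_amgm (F := F p) hx hy hl) hk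
    rw [Real.norm_eq_abs]
    unfold kx ky lg
    rw [show kerB γ b ε p.1 p.2.1 p.2.2 * (G p.2.1 * G p.1) * F p -
        kerB γ b ε p.1 p.2.1 p.2.2 * (G (post p.1 p.2.1 p.2.2) * G (post' p.1 p.2.1 p.2.2)) * F p =
        kerB γ b ε p.1 p.2.1 p.2.2 * ((G p.2.1 * G p.1 -
          G (post p.1 p.2.1 p.2.2) * G (post' p.1 p.2.1 p.2.2)) * F p) by ring,
      abs_mul, abs_of_nonneg hk]
    refine h1.trans (le_of_eq ?_)
    ring
  have hI := norm_integral_le_of_norm_le iR hpt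
  rw [integral_add (iP.const_mul _) (iQ.const_mul _), integral_const_mul,
    integral_const_mul, prd_eq H hε hG] at hI
  have hI2 : ∫ p, (kx γ b ε G p * (F p * F p) + ky γ b ε G p * (F p * F p)) ∂(mu3 d) =
      2 * ∫ p, kx γ b ε G p * (F p * F p) ∂(mu3 d) := by
    rw [integral_add iX2 iY2, s2]; ring
  have hI3 : |2 * ∫ p, kx γ b ε G p * F p ∂(mu3 d)| ≤ 1 / (2 * lam) * (4 * Pc γ b ε G) +
      lam / 4 * (2 * ∫ p, kx γ b ε G p * (F p * F p) ∂(mu3 d)) := by
    rw [s3, ← hI2]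
    exact hI
  rw [abs_mul, abs_of_pos (by norm_num : (0 : ℝ) < 2)] at hI3
  rw [e1, e2]
  have h7 : 1 / (2 * lam) * (4 * Pc γ b ε G) = 2 * (1 / lam * Pc γ b ε G) := by
    field_simp; ring
  rw [h7] at hI3
  linarith

end Pool.Agent.H87.PE
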