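import Pool.Agent.H87.PE.Defs
import Pool.Agent.H48.PL.TimB

/-!
# Module Drop: the production in time is the entropy drop

Copy the private lemmas of H48/PL/TimB.lean (`tebt`, `teh`, `teS`, `tb_tsol`, `tb_lim`, ...). For `τ ∈ (0,T)`: `∫x Dn δ (f τ x) = -∫ Q log(f + δ gau) dν = -∫ teS δ Q f τ dν` (mass conservation
`boltz_HasInvariants` kills `∫ Q dν = 0`, as in `tb_step`; `nu_integral`), and `∫_r^t ∫ teS dν = ∫ teh δ f t dν - ∫ teh δ f r dν` (`TSol.ftc`). By `tb_lim` at `t` and at `r`: for `δ → 0+` the right side tends to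
`Hs (f t) - Hs (f r)`. Continuity in `τ`: `τ ↦ ∫ teS dν` is continuous on `(0,T)`: `CSol.contI` for a `CSol` built from `teh`, `teS` (see `csol_of_hasFDeriv`-type constructions in CSolF/CSolP.lean; `Q = transport f`
is continuous on `(0,T)`), or dominated convergence directly with the decay `TSol.decS` and continuity of `teS` on `(0,T) × univ`.
-/

set_option autoImplicit false

open MeasureTheory Set Filter Topology Pool.Agent.H25.Kin Pool.Agent.H48.PL
open Pool.Agent.H15.AV (TSol pair gau UNice sol_unice nu_integral)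
open Pool.Agent.H48.PI (Dn Hs)

namespace Pool.Agent.H87.PE

variable {d : ℕ} {γ s C Ca : ℝ} {b : ℝ → ℝ}

section Aux

variable {T : ℝ} {f : ℝ → Vec d → Vec d → ℝ} {Q : (Vec d → ℝ) → Vec d → ℝ}

/-! ### the function `a log a` -/

private noncomputable def tebt (a : ℝ) : ℝ := a * Real.log a

private theorem tebt_cont : Continuous tebt := Real.continuous_mul_log

private theorem tebt_zero : tebt 0 = 0 := by simp [tebt]

private theorem tb_log {c y : ℝ} (hc : 0 < c) (hcy : c ≤ y) :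
    |Real.log y| ≤ |Real.log c| + y := by
  have hy : 0 < y := hc.trans_le hcy
  rcases le_total 1 y with h | h
  · rw [abs_of_nonneg (Real.log_nonneg h)]
    have h1 := Real.log_le_self hy.le
    have h2 := abs_nonneg (Real.log c)
    linarith
  · have h1 : Real.log y ≤ 0 := Real.log_nonpos hy.le h
    have h2 := Real.log_le_log hc hcy
    rw [abs_of_nonpos h1]
    have h3 := neg_abs_le (Real.log c)
    linarith

private theorem tb_abs {a : ℝ} (ha : 0 ≤ a) : |tebt a| ≤ a ^ 2 + 2 * √a := by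
  rcases ha.eq_or_lt with h0 | h0
  · rw [← h0, tebt_zero]
    simp
  · unfold tebt
    rw [abs_mul, abs_of_pos h0]
    rcases le_total 1 a with h | h
    · rw [abs_of_nonneg (Real.log_nonneg h)]
      have h1 := mul_le_mul_of_nonneg_left (Real.log_le_self ha) ha
      have h2 := Real.sqrt_nonneg a
      nlinarith
    · rw [abs_of_nonpos (Real.log_nonpos ha h)]
      have hr : 0 < √a := Real.sqrt_pos.2 h0
      have h1 : Real.log (√a)⁻¹ ≤ (√a)⁻¹ - 1 := Real.log_le_sub_one_of_pos (inv_pos.2 hr)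
      rw [Real.log_inv, Real.log_sqrt ha] at h1
      have h2 : -Real.log a ≤ 2 * (√a)⁻¹ := by linarith
      have h3 : a * (√a)⁻¹ = √a := by
        nth_rw 1 [← Real.mul_self_sqrt ha]
        rw [mul_assoc, mul_inv_cancel₀ hr.ne', mul_one]
      calc a * -Real.log a ≤ a * (2 * (√a)⁻¹) := mul_le_mul_of_nonneg_left h2 ha
        _ = 2 * (a * (√a)⁻¹) := by ring
        _ = 2 * √a := by rw [h3]
        _ ≤ a ^ 2 + 2 * √a := by nlinarith [sq_nonneg a]

private theorem tb_diff {a b : ℝ} (ha : 0 ≤ a) (hb : 0 < b) (hb1 : b ≤ 1) :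
    |tebt (a + b) - tebt b| ≤ 2 * a ^ 2 + 2 * a + 2 * √a := by
  rcases ha.eq_or_lt with h0 | h0
  · rw [← h0, zero_add, sub_self, abs_zero]
    positivity
  · have hab : 0 < a + b := by linarith
    have e : tebt (a + b) - tebt b = a * Real.log (a + b) + b * (Real.log (a + b) - Real.log b) := by
      unfold tebt; ring
    have h1 : 0 ≤ Real.log (a + b) - Real.log b :=
      sub_nonneg.2 (Real.log_le_log hb (by linarith))
    have h2 : Real.log (a + b) - Real.log b ≤ a / b := by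
      rw [← Real.log_div hab.ne' hb.ne']
      refine (Real.log_le_sub_one_of_pos (div_pos hab hb)).trans (le_of_eq ?_)
      field_simp
      ring
    have h3 : b * (Real.log (a + b) - Real.log b) ≤ a := by
      calc b * (Real.log (a + b) - Real.log b) ≤ b * (a / b) :=
            mul_le_mul_of_nonneg_left h2 hb.le
        _ = a := by field_simp
    have h4 := tb_log h0 (by linarith : a ≤ a + b)
    have h5 := tb_abs ha
    have h6 : |a * Real.log (a + b)| ≤ |tebt a| + a * (a + b) := by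
      unfold tebt
      rw [abs_mul, abs_mul, abs_of_pos h0, ← mul_add]
      exact mul_le_mul_of_nonneg_left h4 ha
    rw [e]
    refine (abs_add_le _ _).trans ?_
    rw [abs_of_nonneg (mul_nonneg hb.le h1)]
    nlinarith

/-! ### the regularized entropy -/

private theorem tgau_pos (v : Vec d) : 0 < gau v := Real.exp_pos _

private theorem tgau_le (v : Vec d) : gau v ≤ 1 := by
  unfold gau
  rw [← Real.exp_zero]
  exact Real.exp_le_exp.2 (by linarith [sq_nonneg' v])

private theorem tgau_smooth : ContDiff ℝ 1 (gau : Vec d → ℝ) := by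
  unfold gau nsq
  fun_prop

private theorem tb_wt_le (v : Vec d) : wt d v ≤ 1 := by
  unfold wt
  exact inv_le_one_of_one_le₀ (one_le_pow₀ (one_le_w v))

private noncomputable def teh (δ : ℝ) (f : ℝ → Vec d → Vec d → ℝ) (t : ℝ) (x v : Vec d) : ℝ :=
  tebt (f t x v + δ * gau v) - tebt (δ * gau v)

private noncomputable def teS (δ : ℝ) (Q' f : ℝ → Vec d → Vec d → ℝ) (t : ℝ) (x v : Vec d) : ℝ :=
  (1 + Real.log (f t x v + δ * gau v)) * Q' t x v

private theorem tb_bd {Q' : ℝ → Vec d → Vec d → ℝ} (hf : IsClassicalSol T Q' f) {T₁ : ℝ}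
    (h1 : T₁ < T) : ∃ K, 0 ≤ K ∧ ∀ t ∈ Icc 0 T₁, ∀ x v, f t x v ≤ K * wt d v ∧
      f t x v ^ 2 ≤ K * wt d v ∧ √(f t x v) ≤ K * wt d v := by
  obtain ⟨C, hC0, hC⟩ := hf.f_le h1 (2 * (d + 1))
  refine ⟨C + C ^ 2 + √C, by positivity, fun t ht x v => ?_⟩
  have h2 := hC t ht x v
  have h0 := hf.nonneg t ⟨ht.1, ht.2.trans_lt h1⟩ x v
  rw [abs_of_nonneg h0] at h2
  have hw0 := wt_nonneg (d := d) v
  have hw1 := tb_wt_le v
  have e : ((1 + ‖v‖) ^ (2 * (d + 1)))⁻¹ = wt d v ^ 2 := by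
    unfold wt
    rw [mul_comm 2, pow_mul, inv_pow]
  rw [e] at h2
  have hs := Real.sqrt_nonneg C
  have hw2 : wt d v ^ 2 ≤ wt d v := by nlinarith
  have h3 : f t x v ≤ C * wt d v := h2.trans (mul_le_mul_of_nonneg_left hw2 hC0)
  have h4 : f t x v ^ 2 ≤ C ^ 2 * wt d v := by
    have h5 : f t x v ^ 2 ≤ (C * wt d v) ^ 2 := pow_le_pow_left₀ h0 h3 2
    rw [mul_pow] at h5
    exact h5.trans (mul_le_mul_of_nonneg_left hw2 (by positivity))
  have h6 : √(f t x v) ≤ √C * wt d v := by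
    refine (Real.sqrt_le_sqrt h2).trans (le_of_eq ?_)
    rw [Real.sqrt_mul hC0, Real.sqrt_sq hw0]
  refine ⟨?_, ?_, ?_⟩ <;> nlinarith [mul_nonneg hC0 hw0, mul_nonneg (sq_nonneg C) hw0,
    mul_nonneg hs hw0]

private theorem tb_tsol {Q' : ℝ → Vec d → Vec d → ℝ} (hf : IsClassicalSol T Q' f) {δ : ℝ}
    (h0 : 0 < δ) (h1 : δ ≤ 1) : TSol T (teS δ Q' f) (teh δ f) where
  per := by
    intro t ht x v i
    unfold teh
    rw [hf.periodic t ht x v i]
  cont := by
    have hg : Continuous fun p : ℝ × Vec d × Vec d => δ * gau p.2.2 :=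
      continuous_const.mul (tgau_smooth.continuous.comp (by fun_prop))
    have h2 : unc (teh δ f) = fun p => tebt (unc f p + δ * gau p.2.2) - tebt (δ * gau p.2.2) := rfl
    rw [h2]
    exact (tebt_cont.comp_continuousOn (hf.cont.add hg.continuousOn)).sub
      (tebt_cont.comp hg).continuousOn
  smooth := by
    have hg : ContDiff ℝ 1 fun p : ℝ × Vec d × Vec d => δ * gau p.2.2 :=
      contDiff_const.mul (tgau_smooth.comp (by fun_prop))
    have h2 : unc (teh δ f) = fun p => (unc f p + δ * gau p.2.2) *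
        Real.log (unc f p + δ * gau p.2.2) - (δ * gau p.2.2) * Real.log (δ * gau p.2.2) := rfl
    rw [h2]
    have h3 : ContDiffOn ℝ 1 (fun p => unc f p + δ * gau p.2.2) (Ioo 0 T ×ˢ univ) :=
      (hf.smooth.of_le (by norm_num)).add hg.contDiffOn
    refine (h3.mul (h3.log fun p hp => ?_)).sub (hg.contDiffOn.mul (hg.contDiffOn.log fun p _ => ?_))
    · have := hf.nonneg p.1 ⟨hp.1.1.le, hp.1.2⟩ p.2.1 p.2.2
      have h5 := mul_pos h0 (tgau_pos p.2.2)
      exact (by unfold unc; linarith : 0 < unc f p + δ * gau p.2.2).ne'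
    · exact (mul_pos h0 (tgau_pos p.2.2)).ne'
  dec := by
    intro T₁ hT₁
    obtain ⟨K, hK0, hK⟩ := tb_bd hf hT₁
    refine ⟨6 * K, fun t ht x v => ?_⟩
    obtain ⟨a1, a2, a3⟩ := hK t ht x v
    have h2 := tb_diff (hf.nonneg t ⟨ht.1, ht.2.trans_lt hT₁⟩ x v) (mul_pos h0 (tgau_pos v))
      (by have := tgau_le v; have := tgau_pos v; nlinarith)
    unfold teh
    linarith
  decS := by
    intro T₀ hT₀ T₁ hT₁
    obtain ⟨D, hD0, hD⟩ := hf.Q_le hT₀ hT₁ (2 + (d + 1))
    obtain ⟨K, hK0, hK⟩ := tb_bd hf hT₁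
    refine ⟨(2 + |Real.log δ| + d + K) * D, fun t ht x v => ?_⟩
    have ht' : t ∈ Icc 0 T₁ := ⟨hT₀.le.trans ht.1, ht.2⟩
    obtain ⟨a1, -, -⟩ := hK t ht' x v
    have hn := hf.nonneg t ⟨ht'.1, ht'.2.trans_lt hT₁⟩ x v
    have hb := mul_pos h0 (tgau_pos v)
    have h2 := tb_log hb (by linarith : δ * gau v ≤ f t x v + δ * gau v)
    have h3 : |Real.log (δ * gau v)| ≤ |Real.log δ| + nsq v := by
      rw [Real.log_mul h0.ne' (tgau_pos v).ne']
      refine (abs_add_le _ _).trans ?_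
      unfold gau
      rw [Real.log_exp, abs_neg, abs_of_nonneg (sq_nonneg' v)]
    have h4 := sq_le v
    have hw1 := tb_wt_le v
    have hw0 := wt_nonneg (d := d) v
    have hb1 : δ * gau v ≤ 1 := by have := tgau_le v; have := tgau_pos v; nlinarith
    have hv := norm_nonneg v
    have h5 : f t x v ≤ K := a1.trans (by nlinarith)
    have h6 : |1 + Real.log (f t x v + δ * gau v)| ≤
        (2 + |Real.log δ| + d + K) * (1 + ‖v‖) ^ 2 := by
      have h7 : |1 + Real.log (f t x v + δ * gau v)| ≤ 1 + |Real.log (f t x v + δ * gau v)| := by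
        refine (abs_add_le _ _).trans ?_
        rw [abs_one]
      have h8 : |1 + Real.log (f t x v + δ * gau v)| ≤
          1 + (|Real.log δ| + d * ‖v‖ ^ 2) + (K + 1) := by linarith
      refine h8.trans ?_
      have h9 : (1 : ℝ) ≤ (1 + ‖v‖) ^ 2 := one_le_pow₀ (one_le_w v)
      have h10 : ‖v‖ ^ 2 ≤ (1 + ‖v‖) ^ 2 := pow_le_pow_left₀ hv (by linarith) 2
      have h11 := abs_nonneg (Real.log δ)
      have h12 : (d : ℝ) * ‖v‖ ^ 2 ≤ d * (1 + ‖v‖) ^ 2 :=
        mul_le_mul_of_nonneg_left h10 (Nat.cast_nonneg d)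
      nlinarith
    unfold teS
    rw [abs_mul]
    calc |1 + Real.log (f t x v + δ * gau v)| * |Q' t x v| ≤
        ((2 + |Real.log δ| + d + K) * (1 + ‖v‖) ^ 2) * (D * ((1 + ‖v‖) ^ (2 + (d + 1)))⁻¹) :=
          mul_le_mul h6 (hD t ht x v) (abs_nonneg _) (by positivity)
      _ = _ := wt_bound (by positivity) hD0 v 2
  solves := by
    intro t ht x v
    have hn := hf.nonneg t ⟨ht.1.le, ht.2⟩ x v
    have hb := mul_pos h0 (tgau_pos v)
    have hF : HasFDerivAt (unc f) (fderiv ℝ (unc f) (t, x, v)) (t, x, v) :=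
      ((hf.cda ht x v).differentiableAt (by norm_num)).hasFDerivAt
    have hG : HasFDerivAt (fun p : ℝ × Vec d × Vec d => δ * gau p.2.2)
        (δ • (fderiv ℝ gau v).comp ((ContinuousLinearMap.snd ℝ (Vec d) (Vec d)).comp
          (ContinuousLinearMap.snd ℝ ℝ (Vec d × Vec d)))) (t, x, v) := by
      have h2 : HasFDerivAt (gau : Vec d → ℝ) (fderiv ℝ gau v) v :=
        (tgau_smooth.differentiable one_ne_zero v).hasFDerivAt
      have h3 : HasFDerivAt (fun p : ℝ × Vec d × Vec d => p.2.2)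
          ((ContinuousLinearMap.snd ℝ (Vec d) (Vec d)).comp
          (ContinuousLinearMap.snd ℝ ℝ (Vec d × Vec d))) (t, x, v) :=
        ((ContinuousLinearMap.snd ℝ (Vec d) (Vec d)).comp
          (ContinuousLinearMap.snd ℝ ℝ (Vec d × Vec d))).hasFDerivAt
      have h4 : HasFDerivAt (fun p : ℝ × Vec d × Vec d => gau p.2.2)
          ((fderiv ℝ gau v).comp ((ContinuousLinearMap.snd ℝ (Vec d) (Vec d)).comp
          (ContinuousLinearMap.snd ℝ ℝ (Vec d × Vec d)))) (t, x, v) :=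
        HasFDerivAt.comp (g := (gau : Vec d → ℝ)) (t, x, v) h2 h3
      exact h4.const_mul δ
    have hA := hF.add hG
    have d1 : HasDerivAt tebt (Real.log (f t x v + δ * gau v) + 1) (f t x v + δ * gau v) :=
      Real.hasDerivAt_mul_log (by linarith [hb] : 0 < f t x v + δ * gau v).ne'
    have d2 : HasDerivAt tebt (Real.log (δ * gau v) + 1) (δ * gau v) :=
      Real.hasDerivAt_mul_log hb.ne'
    have e1 := HasDerivAt.comp_hasFDerivAt (h₂ := tebt)
      (f := fun p : ℝ × Vec d × Vec d => unc f p + δ * gau p.2.2) (t, x, v) d1 hA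
    have e2 := HasDerivAt.comp_hasFDerivAt (h₂ := tebt)
      (f := fun p : ℝ × Vec d × Vec d => δ * gau p.2.2) (t, x, v) d2 hG
    have e3 := e1.sub e2
    have e4 : unc (teh δ f) = (tebt ∘ fun p : ℝ × Vec d × Vec d => unc f p + δ * gau p.2.2) -
        (tebt ∘ fun p : ℝ × Vec d × Vec d => δ * gau p.2.2) := rfl
    unfold transport
    rw [e4, e3.fderiv]
    simp only [sub_apply, smul_apply, add_apply, ContinuousLinearMap.comp_apply,
      ContinuousLinearMap.coe_snd', map_zero, smul_eq_mul]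
    rw [hf.eqn t ht x v]
    unfold teS
    ring

private theorem tb_lim {Q' : ℝ → Vec d → Vec d → ℝ} (hf : IsClassicalSol T Q' f) {t : ℝ}
    (ht : t ∈ Ico 0 T) : Tendsto (fun δ => ∫ q, teh δ f t q.2 q.1 ∂(nu d)) (𝓝[>] 0)
      (𝓝 (∫ q, tebt (f t q.2 q.1) ∂(nu d))) := by
  obtain ⟨K, hK0, hK⟩ := tb_bd hf ht.2
  have cf : Continuous fun q : Vec d × Vec d => f t q.2 q.1 :=
    (hf.cont_slice ht).comp (by fun_prop : Continuous fun q : Vec d × Vec d => (q.2, q.1))
  have cg : Continuous fun q : Vec d × Vec d => gau q.1 := tgau_smooth.continuous.comp continuous_fst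
  have hev : ∀ᶠ δ : ℝ in 𝓝[>] 0, δ ∈ Ioo (0 : ℝ) 1 := Ioo_mem_nhdsGT one_pos
  refine tendsto_integral_filter_of_dominated_convergence (fun q => 6 * K * wt d q.1) ?_ ?_ ?_ ?_
  · refine Eventually.of_forall fun δ => ?_
    exact ((tebt_cont.comp (cf.add (continuous_const.mul cg))).sub
      (tebt_cont.comp (continuous_const.mul cg))).aestronglyMeasurable
  · filter_upwards [hev] with δ hδ
    refine Eventually.of_forall fun q => ?_
    obtain ⟨a1, a2, a3⟩ := hK t ⟨ht.1, le_rfl⟩ q.2 q.1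
    have h2 := tb_diff (hf.nonneg t ht q.2 q.1) (mul_pos hδ.1 (tgau_pos q.1))
      (by have := tgau_le q.1; have := tgau_pos q.1; nlinarith [hδ.1, hδ.2])
    rw [Real.norm_eq_abs]
    unfold teh
    linarith
  · exact ((integrable_wt (d := d)).comp_fst (muD d)).const_mul _
  · refine Eventually.of_forall fun q => ?_
    have hc : Continuous fun δ : ℝ => teh δ f t q.2 q.1 := by
      unfold teh
      exact (tebt_cont.comp (continuous_const.add (continuous_id.mul continuous_const))).sub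
        (tebt_cont.comp (continuous_id.mul continuous_const))
    have h2 : teh 0 f t q.2 q.1 = tebt (f t q.2 q.1) := by
      unfold teh
      rw [zero_mul, add_zero, tebt_zero, sub_zero]
    rw [← h2]
    exact (hc.tendsto 0).mono_left nhdsWithin_le_nhds

private theorem pe_pair (Q' : ℝ → Vec d → Vec d → ℝ) (τ : ℝ) :
    pair (fun _ => 1) Q' τ = ∫ q, Q' τ q.2 q.1 ∂(nu d) := by
  unfold pair
  simp only [one_mul]

/-- the source of the regularized entropy at a fixed time -/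
private theorem pe_slice (hf' : IsClassicalSol T (fun t x => Q (f t x)) f)
    (hI : HasInvariants T fun t x => Q (f t x)) {δ : ℝ} (h0 : 0 < δ) (h1 : δ ≤ 1) {τ : ℝ}
    (hτ : τ ∈ Ioo 0 T) :
    Integrable (fun x : Vec d => ∫ v, Q (f τ x) v * Real.log (f τ x v + δ * gau v)) (muD d) ∧
      pair (fun _ => 1) (teS δ (fun t x => Q (f t x)) f) τ =
        ∫ x, (∫ v, Q (f τ x) v * Real.log (f τ x v + δ * gau v)) ∂(muD d) := by
  have H := tb_tsol hf' h0 h1
  have hτ'' : τ ∈ Ico 0 T := ⟨hτ.1.le, hτ.2⟩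
  have hm : τ ∈ Icc τ τ := ⟨le_rfl, le_rfl⟩
  obtain ⟨K, hK⟩ := H.decS τ hτ.1 τ hτ.2
  obtain ⟨D, hD0, hD⟩ := hf'.Q_le hτ.1 hτ.2 (d + 1)
  have cQ := hf'.cont_Q hτ
  have cf := hf'.cont_slice hτ''
  have cL : Continuous fun q : Vec d × Vec d => Real.log (f τ q.1 q.2 + δ * gau q.2) := by
    refine Continuous.log ?_ fun q => ?_
    · exact cf.add (continuous_const.mul (tgau_smooth.continuous.comp continuous_snd))
    · have h2 := hf'.nonneg τ hτ'' q.1 q.2
      have h3 := mul_pos h0 (tgau_pos q.2)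
      exact (by linarith : 0 < f τ q.1 q.2 + δ * gau q.2).ne'
  have cS : Continuous fun q : Vec d × Vec d =>
      teS δ (fun t x => Q (f t x)) f τ q.2 q.1 := by
    have h2 : Continuous fun q : Vec d × Vec d => (1 + Real.log (f τ q.1 q.2 + δ * gau q.2)) *
        Q (f τ q.1) q.2 := (continuous_const.add cL).mul cQ
    exact h2.comp (by fun_prop : Continuous fun q : Vec d × Vec d => (q.2, q.1))
  have iS : Integrable (fun q : Vec d × Vec d =>
      teS δ (fun t x => Q (f t x)) f τ q.2 q.1)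
      (nu d) := integrable_nu cS.aestronglyMeasurable fun q => hK τ hm q.2 q.1
  have e1 : ∀ x : Vec d, ∫ v, teS δ (fun t x => Q (f t x)) f τ x v =
      ∫ v, Q (f τ x) v * Real.log (f τ x v + δ * gau v) := by
    intro x
    have c1 : Continuous fun v : Vec d => Q (f τ x) v :=
      cQ.comp (by fun_prop : Continuous fun v : Vec d => (x, v))
    have c2 : Continuous fun v : Vec d => Real.log (f τ x v + δ * gau v) :=
      cL.comp (by fun_prop : Continuous fun v : Vec d => (x, v))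
    have i1 : Integrable fun v : Vec d => Q (f τ x) v := by
      refine (integrable_wt.const_mul D).mono' c1.aestronglyMeasurable
        (Eventually.of_forall fun v => ?_)
      exact hD τ hm x v
    have i2 : Integrable fun v : Vec d =>
        teS δ (fun t x => Q (f t x)) f τ x v := by
      refine (integrable_wt.const_mul K).mono' ((continuous_const.add c2).mul
        c1).aestronglyMeasurable (Eventually.of_forall fun v => ?_)
      exact hK τ hm x v
    have i3 : Integrable fun v : Vec d =>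
        Q (f τ x) v * Real.log (f τ x v + δ * gau v) := by
      refine (i2.sub i1).congr (Eventually.of_forall fun v => ?_)
      simp only [Pi.sub_apply, teS]
      ring
    have e2 : ∫ v, teS δ (fun t x => Q (f t x)) f τ x v =
        (∫ v, Q (f τ x) v) +
          ∫ v, Q (f τ x) v * Real.log (f τ x v + δ * gau v) := by
      rw [← integral_add i1 i3]
      refine integral_congr_ae (Eventually.of_forall fun v => ?_)
      simp only [teS]
      ring
    rw [e2, (hI τ hτ x).1, zero_add]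
  have hint : Integrable (fun x : Vec d =>
      ∫ v, teS δ (fun t x => Q (f t x)) f τ x v) (muD d) := by
    have := iS
    unfold nu at this
    exact this.integral_prod_right
  rw [pe_pair, nu_integral iS]
  simp only [e1] at hint ⊢
  exact ⟨hint, trivial⟩

end Aux

theorem Dn_int (H : Hyp d γ s b C Ca) {T : ℝ} {f : ℝ → Vec d → Vec d → ℝ}
    (hf : IsBoltzmannSol γ b T f) {δ : ℝ} (hδ : 0 < δ) (hδ1 : δ ≤ 1) {τ : ℝ} (hτ : τ ∈ Ioo 0 T) :
    Integrable (fun x => Dn γ b δ (f τ x)) (muD d) := by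
  have hf' : IsClassicalSol T (fun t x => boltzQ γ b (f t x)) f := hf
  have hI := boltz_HasInvariants H hf
  exact (pe_slice (Q := boltzQ γ b) hf' hI hδ hδ1 hτ).1.neg

private theorem Dn_eq (H : Hyp d γ s b C Ca) {T : ℝ} {f : ℝ → Vec d → Vec d → ℝ}
    (hf : IsBoltzmannSol γ b T f) {δ : ℝ} (hδ : 0 < δ) (hδ1 : δ ≤ 1) {τ : ℝ} (hτ : τ ∈ Ioo 0 T) :
    ∫ x, Dn γ b δ (f τ x) ∂(muD d) =
      -pair (fun _ => 1) (teS δ (fun t x => boltzQ γ b (f t x)) f) τ := by
  have hf' : IsClassicalSol T (fun t x => boltzQ γ b (f t x)) f := hf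
  have hI := boltz_HasInvariants H hf
  rw [(pe_slice (Q := boltzQ γ b) hf' hI hδ hδ1 hτ).2, ← integral_neg]
  rfl

theorem Dn_cont (H : Hyp d γ s b C Ca) {T : ℝ} {f : ℝ → Vec d → Vec d → ℝ}
    (hf : IsBoltzmannSol γ b T f) {δ : ℝ} (hδ : 0 < δ) (hδ1 : δ ≤ 1) :
    ContinuousOn (fun τ => ∫ x, Dn γ b δ (f τ x) ∂(muD d)) (Ioo 0 T) := by
  have hf' : IsClassicalSol T (fun t x => boltzQ γ b (f t x)) f := hf
  have h1 := (tb_tsol hf' hδ hδ1).pairS_cont (φ := fun _ : Vec d × Vec d => (1 : ℝ))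
    continuous_const (A := 1) (fun _ => by simp) (fun _ _ _ => rfl)
  exact h1.neg.congr fun τ hτ => Dn_eq H hf hδ hδ1 hτ

theorem drop_lim (H : Hyp d γ s b C Ca) {T : ℝ} {f : ℝ → Vec d → Vec d → ℝ}
    (hf : IsBoltzmannSol γ b T f) {r t : ℝ} (hr : 0 < r) (hrt : r ≤ t) (ht : t < T) {η : ℝ}
    (hη : 0 < η) : ∃ δ₀ > 0, ∀ δ ∈ Ioc (0 : ℝ) δ₀,
      |(∫ τ in r..t, (∫ x, Dn γ b δ (f τ x) ∂(muD d))) - (Hs (f r) - Hs (f t))| ≤ η := by
  have hf' : IsClassicalSol T (fun t x => boltzQ γ b (f t x)) f := hf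
  have l1 := tb_lim hf' (t := t) ⟨hr.le.trans hrt, ht⟩
  have l2 := tb_lim hf' (t := r) ⟨hr.le, hrt.trans_lt ht⟩
  have l3 : ∀ᶠ δ : ℝ in 𝓝[>] 0,
      ((∫ q, teh δ f r q.2 q.1 ∂(nu d)) - ∫ q, teh δ f t q.2 q.1 ∂(nu d)) ∈
        Metric.closedBall ((∫ q, tebt (f r q.2 q.1) ∂(nu d)) -
          ∫ q, tebt (f t q.2 q.1) ∂(nu d)) η :=
    (l2.sub l1).eventually (Metric.closedBall_mem_nhds _ hη)
  obtain ⟨u, hu, hsub⟩ := mem_nhdsGT_iff_exists_Ioc_subset.1 l3
  have hu' : (0 : ℝ) < u := hu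
  refine ⟨min u 1, lt_min hu' one_pos, fun δ hδ => ?_⟩
  have hδ1 : δ ≤ 1 := hδ.2.trans (min_le_right _ _)
  have h3 := hsub ⟨hδ.1, hδ.2.trans (min_le_left _ _)⟩
  have h4 := (tb_tsol hf' hδ.1 hδ1).ftc (φ := fun _ : Vec d × Vec d => (1 : ℝ))
    continuous_const (A := 1) (fun _ => by simp) (fun _ _ _ => rfl) hr hrt ht
  have h5 : ∫ τ in r..t, (∫ x, Dn γ b δ (f τ x) ∂(muD d)) =
      -∫ τ in r..t, pair (fun _ => 1) (teS δ (fun t x => boltzQ γ b (f t x)) f) τ := by
    rw [← intervalIntegral.integral_neg]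
    refine intervalIntegral.integral_congr fun τ hτ => ?_
    rw [uIcc_of_le hrt] at hτ
    exact Dn_eq H hf hδ.1 hδ1 ⟨hr.trans_le hτ.1, hτ.2.trans_lt ht⟩
  have h6 : |((∫ q, teh δ f r q.2 q.1 ∂(nu d)) - ∫ q, teh δ f t q.2 q.1 ∂(nu d)) -
      ((∫ q, tebt (f r q.2 q.1) ∂(nu d)) - ∫ q, tebt (f t q.2 q.1) ∂(nu d))| ≤ η := h3
  rw [h5, ← h4, pe_pair, pe_pair]
  unfold Hs
  unfold tebt at h6
  refine le_trans (le_of_eq ?_) h6
  congr 1
  ring

end Pool.Agent.H87.PE
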