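import Pool.Agent.H48.PI.Defs

/-!
# Module Bet: the derivative of the bounded part

`bet' C₀ r = (1 + ρ)^(-2)`, `ρ = r/C₀`. With `p = √r`, `q = √r'`, `h(p) = (C₀/(C₀+p²))²`: `h(p) - h(q) = (q-p)(p+q) C₀² (2C₀+p²+q²)/((C₀+p²)²(C₀+q²)²)`
`= (q-p)(p+q) C₀²/((C₀+p²)(C₀+q²)) (1/(C₀+p²) + 1/(C₀+q²))`, so `|p (h(p)-h(q))| ≤ |p-q| (p² + pq) 2 C₀/((C₀+p²)(C₀+q²)) ≤ |p-q| (2 + 1)`: `p² C₀ ≤ (C₀+p²)(C₀+q²)` and
`2 p q C₀ ≤ C₀ p² + C₀ q² ≤ (C₀+p²)(C₀+q²)`. Squared: `r (bet'(r) - bet'(r'))² ≤ 9 (√r - √r')²`.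
`bet_lip`: `h(r) - h(r')` with `r, r' ≥ 0`: the same formula: `|r - r'| C₀² (2C₀+r+r')/((C₀+r)²(C₀+r')²) ≤ (2/C₀)|r - r'|`.
-/

set_option autoImplicit false

open Set Pool.Agent.H48.PI

namespace Pool.Agent.H87.PE

lemma bet_nonneg (C₀ r : ℝ) : 0 ≤ bet' C₀ r := by
  unfold bet'
  exact sq_nonneg _

private lemma frac_pos {C r : ℝ} (hC : 0 < C) (hr : 0 ≤ r) : 0 < C / (C + r) := by positivity

private lemma frac_le {C r : ℝ} (hC : 0 < C) (hr : 0 ≤ r) : C / (C + r) ≤ 1 := by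
  rw [div_le_one (by positivity)]
  linarith

private lemma frac_sub {C r r' : ℝ} (hC : 0 < C) (hr : 0 ≤ r) (hr' : 0 ≤ r') :
    C / (C + r) - C / (C + r') = (r' - r) * (C / (C + r) * (C / (C + r'))) / C := by
  have h1 : C + r ≠ 0 := by positivity
  have h2 : C + r' ≠ 0 := by positivity
  field_simp
  ring

lemma bet_le_one {C₀ r : ℝ} (hC : 0 < C₀) (hr : 0 ≤ r) : bet' C₀ r ≤ 1 := by
  unfold bet'
  exact pow_le_one₀ (frac_pos hC hr).le (frac_le hC hr)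

lemma bet_lip {C₀ r r' : ℝ} (hC : 0 < C₀) (hr : 0 ≤ r) (hr' : 0 ≤ r') :
    |bet' C₀ r - bet' C₀ r'| ≤ 2 / C₀ * |r - r'| := by
  unfold bet'
  have hx0 := frac_pos hC hr
  have hy0 := frac_pos hC hr'
  have hx1 := frac_le hC hr
  have hy1 := frac_le hC hr'
  have hs := frac_sub hC hr hr'
  obtain ⟨x, hx⟩ : ∃ x, x = C₀ / (C₀ + r) := ⟨_, rfl⟩
  obtain ⟨y, hy⟩ : ∃ y, y = C₀ / (C₀ + r') := ⟨_, rfl⟩
  rw [← hx, ← hy] at hs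
  rw [← hx] at hx0 hx1
  rw [← hy] at hy0 hy1
  rw [← hx, ← hy]
  have e : x ^ 2 - y ^ 2 = (r' - r) * (x * y * (x + y) / C₀) := by
    have e1 : x ^ 2 - y ^ 2 = (x - y) * (x + y) := by ring
    rw [e1, hs]
    ring
  rw [e, abs_mul, abs_sub_comm r' r, mul_comm]
  refine mul_le_mul_of_nonneg_right ?_ (abs_nonneg _)
  rw [abs_of_nonneg (by positivity)]
  refine div_le_div_of_nonneg_right ?_ hC.le
  have h1 : x * y ≤ 1 := mul_le_one₀ hx1 hy0.le hy1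
  have h2 : 0 ≤ x * y := by positivity
  nlinarith

lemma bet_sq {C₀ r r' : ℝ} (hC : 0 < C₀) (hr : 0 ≤ r) (hr' : 0 ≤ r') :
    r * (bet' C₀ r' - bet' C₀ r) ^ 2 ≤ 9 * (Real.sqrt r' - Real.sqrt r) ^ 2 := by
  obtain ⟨p, hp⟩ : ∃ p, p = Real.sqrt r := ⟨_, rfl⟩
  obtain ⟨q, hq⟩ : ∃ q, q = Real.sqrt r' := ⟨_, rfl⟩
  have hp0 : 0 ≤ p := by rw [hp]; exact Real.sqrt_nonneg _
  have hq0 : 0 ≤ q := by rw [hq]; exact Real.sqrt_nonneg _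
  have hpr : r = p ^ 2 := by rw [hp, Real.sq_sqrt hr]
  have hqr : r' = q ^ 2 := by rw [hq, Real.sq_sqrt hr']
  rw [← hp, ← hq]
  have hx0 := frac_pos hC hr
  have hy0 := frac_pos hC hr'
  have hx1 := frac_le hC hr
  have hy1 := frac_le hC hr'
  have hs := frac_sub hC hr hr'
  unfold bet'
  rw [hpr] at hx0 hx1 hs
  rw [hqr] at hy0 hy1 hs
  rw [hpr, hqr]
  have hpx : p ^ 2 * (C₀ / (C₀ + p ^ 2) * (C₀ / (C₀ + q ^ 2))) / C₀ ≤ 1 := by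
    have h1 : p ^ 2 * (C₀ / (C₀ + p ^ 2) * (C₀ / (C₀ + q ^ 2))) / C₀ = p ^ 2 / (C₀ + p ^ 2) * (C₀ / (C₀ + q ^ 2)) := by
      field_simp
    rw [h1]
    refine mul_le_one₀ ?_ hy0.le hy1
    rw [div_le_one (by positivity)]
    linarith
  have hpq : 2 * (p * q * (C₀ / (C₀ + p ^ 2) * (C₀ / (C₀ + q ^ 2))) / C₀) ≤ 1 := by
    have h1 : 2 * (p * q * (C₀ / (C₀ + p ^ 2) * (C₀ / (C₀ + q ^ 2))) / C₀) = 2 * p * q * C₀ / ((C₀ + p ^ 2) * (C₀ + q ^ 2)) := by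
      field_simp
    rw [h1, div_le_one (by positivity)]
    nlinarith [mul_nonneg hC.le (sq_nonneg (p - q)), sq_nonneg C₀, mul_nonneg (sq_nonneg p) (sq_nonneg q)]
  obtain ⟨x, hx⟩ : ∃ x, x = C₀ / (C₀ + p ^ 2) := ⟨_, rfl⟩
  obtain ⟨y, hy⟩ : ∃ y, y = C₀ / (C₀ + q ^ 2) := ⟨_, rfl⟩
  rw [← hx, ← hy] at hs hpx hpq
  rw [← hx] at hx0 hx1
  rw [← hy] at hy0 hy1
  rw [← hx, ← hy]
  have e : p ^ 2 * (y ^ 2 - x ^ 2) ^ 2 = ((q - p) * ((p ^ 2 * (x * y) / C₀ + p * q * (x * y) / C₀) * (x + y))) ^ 2 := by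
    have e1 : y ^ 2 - x ^ 2 = -((x - y) * (x + y)) := by ring
    rw [e1, hs]
    ring
  rw [e, mul_pow, mul_comm]
  refine mul_le_mul_of_nonneg_right ?_ (sq_nonneg _)
  have h0 : 0 ≤ (p ^ 2 * (x * y) / C₀ + p * q * (x * y) / C₀) := by positivity
  have h1 : (p ^ 2 * (x * y) / C₀ + p * q * (x * y) / C₀) ≤ 3 / 2 := by linarith
  have h2 : (p ^ 2 * (x * y) / C₀ + p * q * (x * y) / C₀) * (x + y) ≤ 3 / 2 * 2 :=
    mul_le_mul h1 (by linarith) (by positivity) (by norm_num)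
  have h3 : 0 ≤ (p ^ 2 * (x * y) / C₀ + p * q * (x * y) / C₀) * (x + y) := by positivity
  nlinarith

end Pool.Agent.H87.PE
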