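import Pool.Agent.H87.PE.CanA
import Pool.Agent.H82.BK.Coll

/-!
# Module CanB: the cancellation inequality from above

Decay: on `Hf d` (`nsq σ = 1`): `nsq (v - w') = nsq (v - w)(1 + cosTh)/2 ≥ nsq (v - w)/2`, so `‖v - w‖ ≤ c_d (‖v‖ + ‖w'‖)` and
`(1+‖v‖)(1+‖w‖) ≤ c_d' ((1+‖v‖)(1+‖w'‖))²`: for `RD G` and all `N` there is `A` with `|G v G(w')| ≤ A pw N v w` on `Hf d`. Hence `int_piece` (with `P = (Hf d).indicator (G v G w')`, `Φ = 1`)
gives the integrability of `kerB G(v) G(w')` on `Hf d`; by `exch` (`exch_preserving`, measure preserving, `kerB` and `Hf` are invariant) that of `kerB G(w) G(v')`.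
Inequality: by `exch` the left side is `∫_{Hf} kerB (G v (G w' - G w))`. As in H15/AVB/Canc.lean (`canc`, `Canc_v`): pass to lintegrals; for fixed `v`, by `coll_cv` (BK/Coll) with `β = bp b ε`,
`Φ a _ = ofReal (G a)`: `∫∫ ofReal(len^γ β(cosTh)) G(w') = ∫_m ∫_{m·σ>0} ofReal (|m|^γ Kn) G(v-m) ≤ ∫_m |m|^γ G(v-m) (∫ β(dir m · σ) + K) = ∫_w ∫_σ ofReal(len^γ β(cosTh)) G(w) + K ∫_w |v-w|^γ G(w)`
(`can_ang`, `bp_ker`, `lintegral_sub_left_eq_self`). Multiply by `G v`, integrate in `v`; all integrals are finite (`kx_int` with `X = 1`, and `G G len^γ` integrable: `kg_pair`/`kg_bound` as in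
`dens_integrable`, H48/PL/XB).
-/

set_option autoImplicit false

open MeasureTheory Set Filter Topology Pool.Agent.H25.Kin Pool.Agent.H48.PL
open scoped ENNReal

namespace Pool.Agent.H87.PE

variable {d : ℕ} {γ s C Ca : ℝ} {b : ℝ → ℝ}

open Pool.Agent.H82.BK (bcut Kn co dir coll_cv)

/-! ### Decay of `G(w) G(v')` for `cos θ ≥ 0` -/

private theorem CanB_nsq {v w σ : Vec d} (hσ : nsq σ = 1) (hc : 0 ≤ cosTh v w σ) :
    nsq (v - w) ≤ 2 * nsq (post v w σ - w) := by
  have e : post v w σ - w = (1 / 2 : ℝ) • (v - w) + (len (v - w) / 2) • σ := by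
    unfold post
    ext i
    simp
    ring
  have h1 : 0 ≤ len (v - w) * dot (v - w) σ := by
    rcases eq_or_ne (len (v - w)) 0 with h | h
    · rw [h, zero_mul]
    · have hl := len_nonneg (v - w)
      have h2 : 0 < len (v - w) := lt_of_le_of_ne hl (Ne.symm h)
      unfold cosTh at hc
      have h3 : 0 ≤ dot σ (v - w) := by
        by_contra h4
        push Not at h4
        have := div_neg_of_neg_of_pos h4 h2
        linarith
      rw [dot_comm]
      exact mul_nonneg hl h3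
  have h2 := len_sq (v - w)
  rw [e, nsq_add, nsq_smul, nsq_smul, smul_dot, dot_smul, hσ]
  nlinarith

private theorem CanB_w (v w σ : Vec d) (hσ : nsq σ = 1) (hc : 0 ≤ cosTh v w σ) :
    (1 + ‖v‖) * (1 + ‖w‖) ≤ (2 * d + 1) * ((1 + ‖w‖) * (1 + ‖post v w σ‖)) ^ 2 := by
  have h1 := CanB_nsq hσ hc
  have h2 := norm_le_len (v - w)
  have h3 := sq_le (post v w σ - w)
  have h4 := len_sq (v - w)
  have hd : (0 : ℝ) ≤ d := Nat.cast_nonneg d
  have n1 := norm_nonneg (post v w σ - w)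
  have n2 := norm_sub_le (post v w σ) w
  have n3 : ‖v‖ ≤ ‖v - w‖ + ‖w‖ := by
    have := norm_add_le (v - w) w
    rwa [sub_add_cancel] at this
  have n4 := norm_nonneg (v - w)
  have nw := norm_nonneg w
  have np := norm_nonneg (post v w σ)
  have h5 : ‖v - w‖ ^ 2 ≤ 2 * d * ‖post v w σ - w‖ ^ 2 := by
    have : ‖v - w‖ ^ 2 ≤ len (v - w) ^ 2 := pow_le_pow_left₀ n4 h2 2
    nlinarith
  rcases Nat.eq_zero_or_pos d with h0 | h0
  · subst h0
    have e1 : ‖v‖ = 0 := by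
      rw [norm_eq_zero]; exact Subsingleton.elim _ _
    have e2 : ‖w‖ = 0 := by
      rw [norm_eq_zero]; exact Subsingleton.elim _ _
    rw [e1, e2]
    simp only [Nat.cast_zero, mul_zero, zero_add, one_mul, add_zero]
    nlinarith
  · have hd1 : (1 : ℝ) ≤ d := by exact_mod_cast h0
    have h6 : ‖v - w‖ ≤ 2 * d * ‖post v w σ - w‖ := by
      refine le_of_sq_le_sq ?_ (by positivity)
      have e : (2 * (d : ℝ) * ‖post v w σ - w‖) ^ 2 = 2 * d * (2 * d) * ‖post v w σ - w‖ ^ 2 := by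
        ring
      rw [e]
      have h7 : 2 * (d : ℝ) * ‖post v w σ - w‖ ^ 2 ≤ 2 * d * (2 * d) * ‖post v w σ - w‖ ^ 2 := by
        have : (2 : ℝ) * d ≤ 2 * d * (2 * d) := by nlinarith
        exact mul_le_mul_of_nonneg_right this (sq_nonneg _)
      linarith
    have h8 : 1 + ‖v‖ ≤ (2 * d + 1) * ((1 + ‖w‖) * (1 + ‖post v w σ‖)) := by
      have h9 : 2 * (d : ℝ) * ‖post v w σ - w‖ ≤ 2 * d * (‖post v w σ‖ + ‖w‖) :=
        mul_le_mul_of_nonneg_left n2 (by positivity)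
      nlinarith [mul_nonneg nw np, mul_nonneg hd nw, mul_nonneg hd np,
        mul_nonneg hd (mul_nonneg nw np)]
    have h10 : 1 + ‖w‖ ≤ (1 + ‖w‖) * (1 + ‖post v w σ‖) :=
      le_mul_of_one_le_right (w_pos w).le (one_le_w _)
    have h11 : 0 < (1 + ‖w‖) * (1 + ‖post v w σ‖) := mul_pos (w_pos _) (w_pos _)
    calc (1 + ‖v‖) * (1 + ‖w‖)
        ≤ ((2 * d + 1) * ((1 + ‖w‖) * (1 + ‖post v w σ‖))) * ((1 + ‖w‖) * (1 + ‖post v w σ‖)) :=
          mul_le_mul h8 h10 (w_pos w).le (by positivity)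
      _ = _ := by ring

private theorem CanB_dec {G : Vec d → ℝ} (hG : RD G) (N : ℕ) : ∃ A, 0 ≤ A ∧
    ∀ v w σ : Vec d, nsq σ = 1 → 0 ≤ cosTh v w σ →
      |G w * G (post v w σ)| ≤ A * pw N v w := by
  obtain ⟨K, hK0, hK⟩ := hG.bound (2 * N)
  refine ⟨K ^ 2 * (2 * d + 1) ^ N, by positivity, fun v w σ hσ hc => ?_⟩
  refine (prod_le hK0 hK _ _).trans ?_
  have h1 := pow_le_pow_left₀ (mul_pos (w_pos v) (w_pos w)).le (CanB_w v w σ hσ hc) N
  have h2 : 0 < ((1 + ‖v‖) * (1 + ‖w‖)) ^ N := pow_pos (mul_pos (w_pos v) (w_pos w)) N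
  have h3 : 0 < ((1 + ‖w‖) * (1 + ‖post v w σ‖)) ^ (2 * N) :=
    pow_pos (mul_pos (w_pos _) (w_pos _)) _
  have e : ((2 * (d : ℝ) + 1) * ((1 + ‖w‖) * (1 + ‖post v w σ‖)) ^ 2) ^ N =
      (2 * d + 1) ^ N * ((1 + ‖w‖) * (1 + ‖post v w σ‖)) ^ (2 * N) := by
    rw [mul_pow (2 * (d : ℝ) + 1), ← pow_mul]
  rw [e] at h1
  have h4 : (((1 + ‖w‖) * (1 + ‖post v w σ‖)) ^ (2 * N))⁻¹ ≤
      (2 * d + 1) ^ N * (((1 + ‖v‖) * (1 + ‖w‖)) ^ N)⁻¹ := by
    rw [← div_eq_mul_inv, le_div_iff₀ h2, inv_mul_le_iff₀ h3]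
    linarith
  unfold pw
  calc K ^ 2 * (((1 + ‖w‖) * (1 + ‖post v w σ‖)) ^ (2 * N))⁻¹
      ≤ K ^ 2 * ((2 * d + 1) ^ N * (((1 + ‖v‖) * (1 + ‖w‖)) ^ N)⁻¹) := by gcongr
    _ = _ := by ring

theorem GG_int (H : Hyp d γ s b C Ca) {G : Vec d → ℝ} (hG : RD G) (hGc : Continuous G) :
    Integrable (fun q : Vec d × Vec d => G q.1 * G q.2 * len (q.1 - q.2) ^ γ) := by
  obtain ⟨A, hA0, hA⟩ := prod_le' hG (d + 1 + (d + 5))
  have hI : Integrable (fun q : Vec d × Vec d => A * (wt d q.1 * kg γ (q.1 - q.2)))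
      (volume : Measure (Vec d × Vec d)) := (kg_pair H.hd H.g1 H.g2).const_mul A
  have hm : Measurable fun q : Vec d × Vec d => G q.1 * G q.2 * len (q.1 - q.2) ^ γ := by
    have h1 : Measurable fun q : Vec d × Vec d => len (q.1 - q.2) :=
      (continuous_len.comp (by fun_prop : Continuous fun q : Vec d × Vec d => q.1 - q.2)).measurable
    exact ((hGc.measurable.comp measurable_fst).mul (hGc.measurable.comp measurable_snd)).mul
      (h1.pow_const γ)
  refine hI.mono' hm.aestronglyMeasurable (Eventually.of_forall fun q => ?_)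
  obtain ⟨v, w⟩ := q
  have hl := Real.rpow_nonneg (len_nonneg (v - w)) γ
  have hs := sq_nonneg' (v - w)
  have hp := pw_nonneg (d + 1 + (d + 5)) v w
  have h1 := kg_bound γ (d + 1) v w
  simp only [Real.norm_eq_abs]
  rw [abs_mul, abs_of_nonneg hl]
  calc |G v * G w| * len (v - w) ^ γ ≤ (A * pw (d + 1 + (d + 5)) v w) * len (v - w) ^ γ := by
        gcongr
        exact hA v w
    _ = A * (len (v - w) ^ γ * 1 * pw (d + 1 + (d + 5)) v w) := by ring
    _ ≤ A * (len (v - w) ^ γ * (1 + nsq (v - w)) * pw (d + 1 + (d + 5)) v w) := by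
        gcongr
        linarith
    _ ≤ A * (wt d v * kg γ (v - w)) := by
        refine mul_le_mul_of_nonneg_left ?_ hA0
        exact h1

private theorem CanB_eq (γ : ℝ) (b : ℝ → ℝ) (ε : ℝ) (F : Vec d × Vec d × Vec d → ℝ) :
    (Hf d).indicator (fun p : Vec d × Vec d × Vec d => kerB γ b ε p.1 p.2.1 p.2.2 * F p) =
      fun p => len (p.1 - p.2.1) ^ γ * bp b ε (cosTh p.1 p.2.1 p.2.2) * F p := by
  funext p
  rw [bp_ker]
  by_cases h : p ∈ Hf d
  · have h' : 0 ≤ cosTh p.1 p.2.1 p.2.2 := h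
    rw [indicator_of_mem h, if_pos h']
  · have h' : ¬ 0 ≤ cosTh p.1 p.2.1 p.2.2 := h
    rw [indicator_of_notMem h, if_neg h', zero_mul]

theorem src_int (H : Hyp d γ s b C Ca) {ε : ℝ} (hε : 0 < ε) {G : Vec d → ℝ} (hG : RD G)
    (hGc : Continuous G) :
    IntegrableOn (fun p : Vec d × Vec d × Vec d =>
      kerB γ b ε p.1 p.2.1 p.2.2 * (G p.2.1 * G (post p.1 p.2.1 p.2.2))) (Hf d) (mu3 d) := by
  obtain ⟨A, hA0, hA⟩ := CanB_dec hG (d + 1 + (d + 5) + 0)
  have mpost := (continuous_post (d := d)).measurable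
  have mw : Measurable fun p : Vec d × Vec d × Vec d => p.2.1 := measurable_fst.comp measurable_snd
  have mP : Measurable ((Hf d).indicator fun p : Vec d × Vec d × Vec d =>
      G p.2.1 * G (post p.1 p.2.1 p.2.2)) :=
    ((hGc.measurable.comp mw).mul (hGc.measurable.comp mpost)).indicator Hf_meas
  have h := int_piece (γ := γ) (P := (Hf d).indicator fun p : Vec d × Vec d × Vec d =>
      G p.2.1 * G (post p.1 p.2.1 p.2.2)) (Φ := fun _ => 1) (K := 0) (A := A) (B := 1)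
    H.hd H.g1 H.g2 H.bm H.bd H.β0 hε mP measurable_const hA0 zero_le_one
    (fun v w σ hσ => by
      by_cases hm : (v, w, σ) ∈ Hf d
      · rw [indicator_of_mem hm]
        exact hA v w σ hσ hm
      · rw [indicator_of_notMem hm, abs_zero]
        exact mul_nonneg hA0 (pw_nonneg _ _ _))
    (fun v w σ _ => by simp)
  rw [← integrable_indicator_iff Hf_meas]
  refine h.congr (Eventually.of_forall fun p => ?_)
  by_cases hm : p ∈ Hf d
  · simp only [indicator_of_mem hm, mul_one]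
  · simp only [indicator_of_notMem hm, mul_zero, mul_one]

/-! ### The inequality for fixed `v` -/

private theorem CanB_half (m : Vec d) : MeasurableSet {σ : Vec d | 0 < dot m σ} :=
  measurableSet_lt measurable_const (dot_cont m).measurable

private theorem CanB_meas (hb : Measurable b) (ε : ℝ) (m : Vec d) :
    Measurable fun σ : Vec d => ENNReal.ofReal (Kn d γ (bp b ε) (co m σ)) := by
  have h1 : Measurable fun σ : Vec d => co m σ := by
    unfold co
    exact (dot_cont m).measurable.div_const _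
  have h2 : Measurable fun c : ℝ => Kn d γ (bp b ε) c := by
    unfold Kn
    exact ((measurable_id.pow_const _).const_mul _).mul
      ((bp_meas hb ε).comp (((measurable_id.pow_const 2).const_mul 2).sub_const 1))
  exact (h2.comp h1).ennreal_ofReal

private theorem CanB_v (H : Hyp d γ s b C Ca) {ε K : ℝ}
    (hK : ∀ m : Vec d, m ≠ 0 →
      ∫⁻ σ in {σ : Vec d | 0 < dot m σ}, ENNReal.ofReal (Kn d γ (bp b ε) (co m σ)) ∂(surf d) ≤
        (∫⁻ σ, ENNReal.ofReal (bp b ε (dot (dir m) σ)) ∂(surf d)) + ENNReal.ofReal K)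
    {Φ : Vec d → ℝ≥0∞} (hΦ : Measurable Φ) (v : Vec d) :
    ∫⁻ w, ∫⁻ σ, ENNReal.ofReal (len (v - w) ^ γ * bp b ε (cosTh v w σ)) *
        Φ (post' v w σ) ∂(surf d) ≤
      ∫⁻ w, ((∫⁻ σ, ENNReal.ofReal (len (v - w) ^ γ * bp b ε (cosTh v w σ)) * Φ w ∂(surf d)) +
        ENNReal.ofReal K * (ENNReal.ofReal (len (v - w) ^ γ) * Φ w)) := by
  have hbp := bp_meas H.bm ε
  have hcv := coll_cv H.hd γ hbp (Φ := fun a _ => Φ a) (hΦ.comp measurable_fst) v
  rw [hcv, ← lintegral_sub_left_eq_self (fun w => (∫⁻ σ, ENNReal.ofReal (len (v - w) ^ γ *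
    bp b ε (cosTh v w σ)) * Φ w ∂(surf d)) +
    ENNReal.ofReal K * (ENNReal.ofReal (len (v - w) ^ γ) * Φ w)) v]
  have hne : Nonempty (Fin d) := ⟨⟨0, by have := H.hd1; omega⟩⟩
  have h0 : ∀ᵐ m : Vec d ∂volume, m ∉ ({0} : Set (Vec d)) :=
    (Set.countable_singleton 0).ae_notMem volume
  refine lintegral_mono_ae ?_
  filter_upwards [h0] with m hm0
  have hm : m ≠ 0 := fun h => hm0 h
  have hl := Real.rpow_nonneg (len_nonneg m) γ
  have e1 : ∀ σ, cosTh v (v - m) σ = dot (dir m) σ := fun σ => by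
    rw [cosTh_eq]
    unfold dirk dir
    rw [sub_sub_cancel]
  have hm1 : Measurable fun σ : Vec d => ENNReal.ofReal (bp b ε (dot (dir m) σ)) :=
    (hbp.comp (dot_cont (dir m)).measurable).ennreal_ofReal
  calc ∫⁻ σ in {σ : Vec d | 0 < dot m σ}, ENNReal.ofReal (len m ^ γ * Kn d γ (bp b ε) (co m σ)) *
        Φ (v - m) ∂(surf d)
      = (ENNReal.ofReal (len m ^ γ) * Φ (v - m)) * ∫⁻ σ in {σ : Vec d | 0 < dot m σ},
        ENNReal.ofReal (Kn d γ (bp b ε) (co m σ)) ∂(surf d) := by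
        rw [← lintegral_const_mul _ (CanB_meas H.bm ε m)]
        refine lintegral_congr fun σ => ?_
        rw [ENNReal.ofReal_mul hl]
        ring
    _ ≤ (ENNReal.ofReal (len m ^ γ) * Φ (v - m)) *
        ((∫⁻ σ, ENNReal.ofReal (bp b ε (dot (dir m) σ)) ∂(surf d)) + ENNReal.ofReal K) := by
        gcongr
        exact hK m hm
    _ = _ := by
        rw [mul_add, sub_sub_cancel]
        congr 1
        · rw [← lintegral_const_mul _ hm1]
          refine lintegral_congr fun σ => ?_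
          rw [e1, ENNReal.ofReal_mul hl]
          ring
        · ring

theorem can_up (H : Hyp d γ s b C Ca) : ∃ K : ℝ, 0 ≤ K ∧ ∀ ε : ℝ, 0 < ε → ∀ G : Vec d → ℝ, RD G →
    Continuous G → (∀ v, 0 ≤ G v) →
    ∫ p in Hf d, kerB γ b ε p.1 p.2.1 p.2.2 * (G p.2.1 * (G (post p.1 p.2.1 p.2.2) - G p.1)) ∂(mu3 d) ≤
      K * GG γ G := by
  obtain ⟨K, hK0, hK⟩ := can_ang H
  refine ⟨K, hK0, fun ε hε G hG hGc hG0 => ?_⟩
  have hgm := hGc.measurable
  have mpost := (continuous_post (d := d)).measurable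
  have mpost' := (continuous_post' (d := d)).measurable
  have mv : Measurable fun p : Vec d × Vec d × Vec d => p.1 := measurable_fst
  have mw : Measurable fun p : Vec d × Vec d × Vec d => p.2.1 := measurable_fst.comp measurable_snd
  set A : Vec d × Vec d × Vec d → ℝ := fun p =>
    len (p.1 - p.2.1) ^ γ * bp b ε (cosTh p.1 p.2.1 p.2.2) with hA
  have mA : Measurable A := (measurable_lenpow γ).mul ((bp_meas H.bm ε).comp measurable_cosTh)
  have nA : ∀ᵐ p ∂(mu3 d), 0 ≤ A p := by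
    filter_upwards [ae_good H.hd1] with p hp
    rw [hA]
    simp only
    rw [bp_ker]
    split_ifs
    · exact kerB_nonneg H.bd hε hp.2
    · exact le_rfl
  set F0 : Vec d × Vec d × Vec d → ℝ := fun p => A p * (G p.2.1 * G (post p.1 p.2.1 p.2.2)) with hF0
  set F1 : Vec d × Vec d × Vec d → ℝ := fun p => A p * (G p.1 * G (post' p.1 p.2.1 p.2.2)) with hF1
  set F2 : Vec d × Vec d × Vec d → ℝ := fun p => A p * (G p.2.1 * G p.1) with hF2
  have mF0 : Measurable F0 := mA.mul ((hgm.comp mw).mul (hgm.comp mpost))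
  have mF1 : Measurable F1 := mA.mul ((hgm.comp mv).mul (hgm.comp mpost'))
  have mF2 : Measurable F2 := mA.mul ((hgm.comp mw).mul (hgm.comp mv))
  have hex : ∀ p, F0 (exch p) = F1 p := by
    rintro ⟨v, w, σ⟩
    simp only [hF0, hF1, hA, exch]
    rw [cosTh_swap, post_swap, len_comm w v]
  have i0 : Integrable F0 (mu3 d) := by
    have h1 := (src_int H hε hG hGc).integrable_indicator Hf_meas
    rw [CanB_eq] at h1
    exact h1
  have i1 : Integrable F1 (mu3 d) := by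
    have h1 := ((exch_preserving H.hd1).integrable_comp mF0.aestronglyMeasurable).mpr i0
    exact h1.congr (Eventually.of_forall hex)
  have e01 : ∫ p, F0 p ∂(mu3 d) = ∫ p, F1 p ∂(mu3 d) := by
    rw [← integral_comp_mp (exch_preserving H.hd1) mF0]
    exact integral_congr_ae (Eventually.of_forall hex)
  have i2 : Integrable F2 (mu3 d) := by
    have hone : PB (fun _ : Vec d × Vec d × Vec d => (1 : ℝ)) :=
      ⟨0, 1, zero_le_one, fun v w σ _ => by simp⟩
    have h1 := kx_int H hε hG hGc (X := (Hf d).indicator fun _ => (1 : ℝ))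
      (measurable_const.indicator Hf_meas) (PB_ind hone (Hf d))
    refine h1.congr (Eventually.of_forall fun p => ?_)
    simp only [hF2, hA, kx]
    rw [bp_ker]
    by_cases hm : p ∈ Hf d
    · have h' : 0 ≤ cosTh p.1 p.2.1 p.2.2 := hm
      rw [indicator_of_mem hm, if_pos h', mul_one]
    · have h' : ¬ 0 ≤ cosTh p.1 p.2.1 p.2.2 := hm
      rw [indicator_of_notMem hm, if_neg h', mul_zero, zero_mul]
  have i3 := GG_int H hG hGc
  -- the left side
  have eL : ∫ p in Hf d, kerB γ b ε p.1 p.2.1 p.2.2 *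
      (G p.2.1 * (G (post p.1 p.2.1 p.2.2) - G p.1)) ∂(mu3 d) =
      (∫ p, F1 p ∂(mu3 d)) - ∫ p, F2 p ∂(mu3 d) := by
    rw [← integral_indicator Hf_meas, CanB_eq γ b ε
      (fun p => G p.2.1 * (G (post p.1 p.2.1 p.2.2) - G p.1)), ← e01, ← integral_sub i0 i2]
    refine integral_congr_ae (Eventually.of_forall fun p => ?_)
    simp only [hF0, hF2, hA]
    ring
  rw [eL]
  -- everything is nonnegative
  have n1 : 0 ≤ᵐ[mu3 d] F1 := by
    filter_upwards [nA] with p hp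
    exact mul_nonneg hp (mul_nonneg (hG0 _) (hG0 _))
  have n2 : 0 ≤ᵐ[mu3 d] F2 := by
    filter_upwards [nA] with p hp
    exact mul_nonneg hp (mul_nonneg (hG0 _) (hG0 _))
  have n3 : 0 ≤ᵐ[(volume : Measure (Vec d × Vec d))]
      fun q : Vec d × Vec d => G q.1 * G q.2 * len (q.1 - q.2) ^ γ :=
    Eventually.of_forall fun q =>
      mul_nonneg (mul_nonneg (hG0 _) (hG0 _)) (Real.rpow_nonneg (len_nonneg _) _)
  have key : ∫⁻ p, ENNReal.ofReal (F1 p) ∂(mu3 d) ≤ (∫⁻ p, ENNReal.ofReal (F2 p) ∂(mu3 d)) +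
      ENNReal.ofReal K * ∫⁻ q : Vec d × Vec d, ENNReal.ofReal
        (G q.1 * G q.2 * len (q.1 - q.2) ^ γ) := by
    have m1 := mF1.ennreal_ofReal
    have m2 := mF2.ennreal_ofReal
    have m3 : Measurable fun q : Vec d × Vec d => ENNReal.ofReal
        (G q.1 * G q.2 * len (q.1 - q.2) ^ γ) := by
      have h1 : Measurable fun q : Vec d × Vec d => len (q.1 - q.2) :=
        (continuous_len.comp (by fun_prop : Continuous fun q : Vec d × Vec d =>
          q.1 - q.2)).measurable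
      exact (((hgm.comp measurable_fst).mul (hgm.comp measurable_snd)).mul
        (h1.pow_const γ)).ennreal_ofReal
    have E1 : ∫⁻ p, ENNReal.ofReal (F1 p) ∂(mu3 d) =
        ∫⁻ v, ∫⁻ y, ENNReal.ofReal (F1 (v, y)) ∂((volume : Measure (Vec d)).prod (surf d)) :=
      lintegral_prod _ m1.aemeasurable
    have E2 : ∫⁻ p, ENNReal.ofReal (F2 p) ∂(mu3 d) =
        ∫⁻ v, ∫⁻ y, ENNReal.ofReal (F2 (v, y)) ∂((volume : Measure (Vec d)).prod (surf d)) :=
      lintegral_prod _ m2.aemeasurable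
    have E3 : ∫⁻ q : Vec d × Vec d, ENNReal.ofReal (G q.1 * G q.2 * len (q.1 - q.2) ^ γ) =
        ∫⁻ v, ∫⁻ w, ENNReal.ofReal (G v * G w * len (v - w) ^ γ) := by
      rw [Measure.volume_eq_prod]
      exact lintegral_prod _ m3.aemeasurable
    have m3' : Measurable fun v : Vec d => ∫⁻ w, ENNReal.ofReal (G v * G w * len (v - w) ^ γ) :=
      m3.lintegral_prod_right'
    rw [E1, E2, E3, ← lintegral_const_mul _ m3', ← lintegral_add_right _ (m3'.const_mul _)]
    refine lintegral_mono fun v => ?_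
    have m1' : Measurable fun y : Vec d × Vec d => ENNReal.ofReal (F1 (v, y)) :=
      m1.comp measurable_prodMk_left
    have m2' : Measurable fun y : Vec d × Vec d => ENNReal.ofReal (F2 (v, y)) :=
      m2.comp measurable_prodMk_left
    have m3v : Measurable fun w : Vec d => ENNReal.ofReal (G v * G w * len (v - w) ^ γ) :=
      m3.comp measurable_prodMk_left
    rw [lintegral_prod _ m1'.aemeasurable, lintegral_prod _ m2'.aemeasurable,
      ← lintegral_const_mul _ m3v, ← lintegral_add_right _ (m3v.const_mul _)]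
    have k1 := CanB_v H (hK ε hε) (Φ := fun u => ENNReal.ofReal (G v * G u))
      (hgm.const_mul _).ennreal_ofReal v
    refine (le_of_eq ?_).trans (k1.trans (le_of_eq ?_))
    · refine lintegral_congr fun w => lintegral_congr fun σ => ?_
      exact ENNReal.ofReal_mul' (mul_nonneg (hG0 _) (hG0 _))
    · refine lintegral_congr fun w => ?_
      congr 1
      · refine lintegral_congr fun σ => ?_
        rw [← ENNReal.ofReal_mul' (mul_nonneg (hG0 _) (hG0 _))]
        simp only [hF2, hA]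
        rw [mul_comm (G v) (G w)]
      · rw [← ENNReal.ofReal_mul (Real.rpow_nonneg (len_nonneg _) _)]
        congr 2
        ring
  -- back to real numbers
  have f1 : ∫ p, F1 p ∂(mu3 d) = (∫⁻ p, ENNReal.ofReal (F1 p) ∂(mu3 d)).toReal :=
    integral_eq_lintegral_of_nonneg_ae n1 i1.1
  have f2 : ∫ p, F2 p ∂(mu3 d) = (∫⁻ p, ENNReal.ofReal (F2 p) ∂(mu3 d)).toReal :=
    integral_eq_lintegral_of_nonneg_ae n2 i2.1
  have f3 : GG γ G = (∫⁻ q : Vec d × Vec d, ENNReal.ofReal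
      (G q.1 * G q.2 * len (q.1 - q.2) ^ γ)).toReal :=
    integral_eq_lintegral_of_nonneg_ae n3 i3.1
  have t2 : ∫⁻ p, ENNReal.ofReal (F2 p) ∂(mu3 d) ≠ ⊤ :=
    ((hasFiniteIntegral_iff_ofReal n2).1 i2.2).ne
  have t3 : ∫⁻ q : Vec d × Vec d, ENNReal.ofReal (G q.1 * G q.2 * len (q.1 - q.2) ^ γ) ≠ ⊤ :=
    ((hasFiniteIntegral_iff_ofReal n3).1 i3.2).ne
  have t4 : ENNReal.ofReal K * ∫⁻ q : Vec d × Vec d, ENNReal.ofReal
      (G q.1 * G q.2 * len (q.1 - q.2) ^ γ) ≠ ⊤ := ENNReal.mul_ne_top ENNReal.ofReal_ne_top t3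
  have h5 := ENNReal.toReal_mono (ENNReal.add_ne_top.mpr ⟨t2, t4⟩) key
  rw [ENNReal.toReal_add t2 t4, ENNReal.toReal_mul, ENNReal.toReal_ofReal hK0] at h5
  rw [f1, f2, f3]
  linarith

end Pool.Agent.H87.PE
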