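import Pool.Agent.H87.PE.CoA
import Pool.Agent.H87.PE.CanB

/-!
# Module Coe: coercivity of the production

Scalar: for `r, r' > 0`: `(√r' - √r)² ≤ r (log r - log r') + (r' - r)`: with `t = √(r'/r)` this is `(t-1)² ≤ -2 log t + t² - 1`, i.e. `log t ≤ t - 1` (`Real.log_le_sub_one_of_pos`).
Multiply with `r = G(v)`, `r' = G(v')` by `kerB G(w) ≥ 0` and integrate over `Hf d`: `co_log` and `can_up`. The right side is integrable (`co_log`.1, `src_int`, `kx_int`), the left side is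
nonnegative, measurable and smaller, hence integrable.
-/

set_option autoImplicit false

open MeasureTheory Set Filter Topology Pool.Agent.H25.Kin Pool.Agent.H48.PL

namespace Pool.Agent.H87.PE

variable {d : ℕ} {γ s C Ca : ℝ} {b : ℝ → ℝ}

private lemma scal {r q : ℝ} (hr : 0 < r) (hq : 0 < q) :
    (Real.sqrt q - Real.sqrt r) ^ 2 ≤ r * (Real.log r - Real.log q) + (q - r) := by
  have sr := Real.sqrt_pos.2 hr
  have sq := Real.sqrt_pos.2 hq
  have er := Real.sq_sqrt hr.le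
  have eq := Real.sq_sqrt hq.le
  have lr : Real.log r = 2 * Real.log (Real.sqrt r) := by
    rw [Real.log_sqrt hr.le]; ring
  have lq : Real.log q = 2 * Real.log (Real.sqrt q) := by
    rw [Real.log_sqrt hq.le]; ring
  have h := Real.log_le_sub_one_of_pos (div_pos sq sr)
  rw [Real.log_div sq.ne' sr.ne'] at h
  have h2 : r * (Real.log q - Real.log r) ≤ 2 * (Real.sqrt r * Real.sqrt q - r) := by
    rw [lr, lq]
    have h3 : r * (Real.log (Real.sqrt q) - Real.log (Real.sqrt r)) ≤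
        r * (Real.sqrt q / Real.sqrt r - 1) := mul_le_mul_of_nonneg_left h hr.le
    have h4 : r * (Real.sqrt q / Real.sqrt r - 1) = Real.sqrt r * Real.sqrt q - r := by
      nth_rewrite 1 [← er]
      field_simp
      nlinarith [er]
    rw [h4] at h3
    linarith
  nlinarith

theorem coer (H : Hyp d γ s b C Ca) : ∃ K : ℝ, 0 ≤ K ∧ ∀ ε : ℝ, 0 < ε → ∀ G : Vec d → ℝ, Gd G →
    IntegrableOn (fun p : Vec d × Vec d × Vec d => kerB γ b ε p.1 p.2.1 p.2.2 *
      (G p.2.1 * (Real.sqrt (G (post p.1 p.2.1 p.2.2)) - Real.sqrt (G p.1)) ^ 2)) (Hf d) (mu3 d) ∧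
    ∫ p in Hf d, kerB γ b ε p.1 p.2.1 p.2.2 *
      (G p.2.1 * (Real.sqrt (G (post p.1 p.2.1 p.2.2)) - Real.sqrt (G p.1)) ^ 2) ∂(mu3 d) ≤
      Pc γ b ε G + K * GG γ G := by
  obtain ⟨K, hK0, hK⟩ := can_up H
  refine ⟨K, hK0, fun ε hε G hG => ?_⟩
  obtain ⟨hcI, hcL⟩ := co_log H hε hG
  have hcan := hK ε hε G hG.rd hG.cont fun v => (hG.pos v).le
  have mk := measurable_kerB (d := d) γ H.bm ε
  have mG := hG.cont.measurable
  have mpost : Measurable fun p : Vec d × Vec d × Vec d => G (post p.1 p.2.1 p.2.2) :=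
    mG.comp continuous_post.measurable
  have mL : Measurable fun p : Vec d × Vec d × Vec d => kerB γ b ε p.1 p.2.1 p.2.2 *
      (G p.2.1 * (Real.sqrt (G (post p.1 p.2.1 p.2.2)) - Real.sqrt (G p.1)) ^ 2) :=
    mk.mul ((mG.comp (measurable_fst.comp measurable_snd)).mul
      ((mpost.sqrt.sub (mG.comp measurable_fst).sqrt).pow_const 2))
  -- the second part of the right side
  have hB1 : PB (fun _ : Vec d × Vec d × Vec d => (1 : ℝ)) :=
    ⟨0, 1, zero_le_one, fun v w σ _ => by simp⟩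
  have i1 : IntegrableOn (fun p => kx γ b ε G p * (1 : ℝ)) (Hf d) (mu3 d) :=
    (kx_int H hε hG.rd hG.cont measurable_const hB1).integrableOn
  have i2 : IntegrableOn (fun p : Vec d × Vec d × Vec d => kerB γ b ε p.1 p.2.1 p.2.2 *
      (G p.2.1 * (G (post p.1 p.2.1 p.2.2) - G p.1))) (Hf d) (mu3 d) := by
    refine ((src_int H hε hG.rd hG.cont).sub i1).congr
      (Filter.Eventually.of_forall fun p => ?_)
    simp only [Pi.sub_apply, kx]
    ring
  have i3 : IntegrableOn (fun p : Vec d × Vec d × Vec d =>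
      kx γ b ε G p * (Real.log (G p.1) - Real.log (G (post p.1 p.2.1 p.2.2)))) (Hf d) (mu3 d) :=
    hcI.integrableOn
  have hpt : ∀ᵐ p ∂(mu3 d), 0 ≤ kerB γ b ε p.1 p.2.1 p.2.2 *
      (G p.2.1 * (Real.sqrt (G (post p.1 p.2.1 p.2.2)) - Real.sqrt (G p.1)) ^ 2) ∧
      kerB γ b ε p.1 p.2.1 p.2.2 *
      (G p.2.1 * (Real.sqrt (G (post p.1 p.2.1 p.2.2)) - Real.sqrt (G p.1)) ^ 2) ≤
      kx γ b ε G p * (Real.log (G p.1) - Real.log (G (post p.1 p.2.1 p.2.2))) +
        kerB γ b ε p.1 p.2.1 p.2.2 * (G p.2.1 * (G (post p.1 p.2.1 p.2.2) - G p.1)) := by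
    filter_upwards [kx_nonneg H hε fun v => (hG.pos v).le] with p hp
    have hk : 0 ≤ kerB γ b ε p.1 p.2.1 p.2.2 := by
      unfold kx at hp
      exact nonneg_of_mul_nonneg_left hp (mul_pos (hG.pos _) (hG.pos _))
    have hw := hG.pos p.2.1
    refine ⟨mul_nonneg hk (mul_nonneg hw.le (sq_nonneg _)), ?_⟩
    have h := scal (hG.pos p.1) (hG.pos (post p.1 p.2.1 p.2.2))
    have h2 := mul_le_mul_of_nonneg_left (mul_le_mul_of_nonneg_left h hw.le) hk
    refine h2.trans (le_of_eq ?_)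
    unfold kx
    ring
  have hptR := ae_restrict_of_ae (s := Hf d) hpt
  have hI : IntegrableOn (fun p : Vec d × Vec d × Vec d => kerB γ b ε p.1 p.2.1 p.2.2 *
      (G p.2.1 * (Real.sqrt (G (post p.1 p.2.1 p.2.2)) - Real.sqrt (G p.1)) ^ 2)) (Hf d)
      (mu3 d) := by
    refine Integrable.mono' (i3.add i2) mL.aestronglyMeasurable ?_
    filter_upwards [hptR] with p hp
    rw [Real.norm_of_nonneg hp.1]
    exact hp.2
  refine ⟨hI, ?_⟩
  have h1 := integral_mono_ae hI (i3.add i2) (by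
    filter_upwards [hptR] with p hp
    exact hp.2)
  have h2 := integral_add i3 i2
  simp only [Pi.add_apply] at h1
  rw [h2] at h1
  linarith

end Pool.Agent.H87.PE
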