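import Pool.Agent.H87.PE.Cs
import Pool.Agent.H87.PE.Coe
import Pool.Agent.H87.PE.IntH
import Pool.Agent.H87.PE.Tra
import Pool.Agent.H87.PE.Bet

/-!
# Module Ren: the renormalized part

`G = g + δ gau`, `Lam v = bet' C₀ (G v) * ψ v` (bounded by `A`, continuous). `cs_cut` with `S = univ`, `lam = e₀/A` (`A > 0`): `|∫ Q_ε(G) Lam| ≤ (1/2)[(A/e₀) Pc + (e₀/(4A)) ∫ kx dX²]`.
`∫ kx (dX Lam)² ≤ 4 ∫ kx (Lam(v') - Lam(v))²` (`(p+q)² ≤ 2p²+2q²`, `exch_sw`), `(Lam(v') - Lam(v))² ≤ 2A²(bet' G' - bet' G)² + 2(ψ' - ψ)²`. `∫ kx (ψ'-ψ)² ≤ K₁ A² XS(G)` (`int_inc`);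
`∫ kx (bet' G' - bet' G)² ≤ ∫_{Hf} + ∫_{Hfᶜ} kx`, the second `≤ K₁ XS(G)` (`int_neg`), the first `≤ 9 ∫_{Hf} kerB G_* (√G' - √G)² ≤ 9 (Pc + K₂ GG)` (`bet_sq`, `coer`), `GG ≤ XS` (`GG_le`).
`tra` with `A₁' = 2 A₁`: `|∫ Q_ε(g) Lam| ≤ A[(1/e₀ + K) Pc + e₀ K XS(G)] + η'`; `Pc_lim`, `XS_reg`; `ε → 0` (`boltz_weak_tendsto` for `g`, `Lam`).
Last: `|∫ Q(g) (bet' G - bet' g) ψ| ≤ A₁ (2δ/C₀) ∫ |Q(g)|` (`bet_lip`, `gau ≤ 1`), `|Q(g)| ≤ A' wt` (limit of `boltzCut_decay_unif`): small for `δ` small.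
-/

set_option autoImplicit false

open MeasureTheory Set Filter Topology Pool.Agent.H25.Kin Pool.Agent.H48.PL
open Pool.Agent.H15.AV (gau UNice)
open Pool.Agent.H48.PI (om XW Dn bet')

namespace Pool.Agent.H87.PE

variable {d : ℕ} {s a C Ca : ℝ} {b : ℝ → ℝ}

private lemma er_weak {γ : ℝ} (H : Hyp d γ s b C Ca) {ε : ℝ} (hε : 0 < ε) {G : Vec d → ℝ} (hG : RD G)
    (hGc : Continuous G) {φ : Vec d → ℝ} (hφ : PG φ) (hφm : Measurable φ) :
    ∫ v, boltzCut γ b ε G v * φ v = (1 / 2) * ∫ p, kx γ b ε G p * dX φ p ∂(mu3 d) :=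
  weak_cut H.hd H.g1 H.g2 H.bm H.bd H.β0 hε hG hGc hφ hφm

private lemma er_PG {φ : Vec d → ℝ} {A : ℝ} (h : ∀ v, |φ v| ≤ A) : PG φ := by
  refine ⟨0, A, fun v => ?_⟩
  rw [pow_zero, mul_one, Real.norm_eq_abs]
  exact h v

private lemma er_PB {X : Vec d × Vec d × Vec d → ℝ} {A : ℝ} (hA : 0 ≤ A) (h : ∀ p, |X p| ≤ A) :
    PB X := ⟨0, A, hA, fun v w σ _ => by rw [pow_zero, mul_one]; exact h _⟩

/-- the square of the increment of a bounded function -/
private lemma er_sq {γ : ℝ} (H : Hyp d γ s b C Ca) {ε : ℝ} (hε : 0 < ε) {G : Vec d → ℝ} (hG : RD G)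
    (hGc : Continuous G) (hG0 : ∀ v, 0 ≤ G v) {L : Vec d → ℝ} {A : ℝ} (hL : ∀ v, |L v| ≤ A)
    (hLm : Measurable L) :
    ∫ p, kx γ b ε G p * dX L p ^ 2 ∂(mu3 d) ≤
      4 * ∫ p, kx γ b ε G p * (L (post p.1 p.2.1 p.2.2) - L p.1) ^ 2 ∂(mu3 d) := by
  have hA : 0 ≤ A := (abs_nonneg _).trans (hL 0)
  have mpost := (continuous_post (d := d)).measurable
  have mpost' := (continuous_post' (d := d)).measurable
  have mv : Measurable fun p : Vec d × Vec d × Vec d => p.1 := measurable_fst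
  have mw : Measurable fun p : Vec d × Vec d × Vec d => p.2.1 := measurable_fst.comp measurable_snd
  have m1 : Measurable fun p : Vec d × Vec d × Vec d => (L (post p.1 p.2.1 p.2.2) - L p.1) ^ 2 :=
    ((hLm.comp mpost).sub (hLm.comp mv)).pow_const 2
  have m2 : Measurable fun p : Vec d × Vec d × Vec d => (L (post' p.1 p.2.1 p.2.2) - L p.2.1) ^ 2 :=
    ((hLm.comp mpost').sub (hLm.comp mw)).pow_const 2
  have hsq : ∀ x y : Vec d, (L x - L y) ^ 2 ≤ (2 * A) ^ 2 := by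
    intro x y
    have h1 := abs_le.1 (hL x)
    have h2 := abs_le.1 (hL y)
    have h3 : |L x - L y| ≤ 2 * A := by
      rw [abs_le]
      constructor <;> linarith
    calc (L x - L y) ^ 2 = |L x - L y| ^ 2 := (sq_abs _).symm
      _ ≤ (2 * A) ^ 2 := pow_le_pow_left₀ (abs_nonneg _) h3 2
  have B1 : PB fun p : Vec d × Vec d × Vec d => (L (post p.1 p.2.1 p.2.2) - L p.1) ^ 2 :=
    er_PB (A := (2 * A) ^ 2) (by positivity) fun p => by
      rw [abs_of_nonneg (sq_nonneg _)]; exact hsq _ _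
  have B2 : PB fun p : Vec d × Vec d × Vec d => (L (post' p.1 p.2.1 p.2.2) - L p.2.1) ^ 2 :=
    er_PB (A := (2 * A) ^ 2) (by positivity) fun p => by
      rw [abs_of_nonneg (sq_nonneg _)]; exact hsq _ _
  have i1 := kx_int H hε hG hGc m1 B1
  have i2 := kx_int H hε hG hGc m2 B2
  have e : ∫ p, kx γ b ε G p * (L (post' p.1 p.2.1 p.2.2) - L p.2.1) ^ 2 ∂(mu3 d) =
      ∫ p, kx γ b ε G p * (L (post p.1 p.2.1 p.2.2) - L p.1) ^ 2 ∂(mu3 d) := by
    rw [← exch_sw H ε hGc.measurable m1]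
    refine integral_congr_ae (Eventually.of_forall fun p => ?_)
    obtain ⟨v, w, σ⟩ := p
    have hp : post w v (-σ) = post' v w σ := by
      have hl : len (w - v) = len (v - w) := by
        have h : nsq (w - v) = nsq (v - w) := by
          unfold nsq
          exact Finset.sum_congr rfl fun i _ => by simp only [Pi.sub_apply]; ring
        unfold len
        rw [h]
      unfold post post'
      rw [hl, smul_neg, add_comm w v, ← sub_eq_add_neg]
    simp only [exch]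
    rw [hp]
  have hk := kx_nonneg H hε hG0
  have step : ∫ p, kx γ b ε G p * dX L p ^ 2 ∂(mu3 d) ≤
      ∫ p, (2 * (kx γ b ε G p * (L (post p.1 p.2.1 p.2.2) - L p.1) ^ 2) +
        2 * (kx γ b ε G p * (L (post' p.1 p.2.1 p.2.2) - L p.2.1) ^ 2)) ∂(mu3 d) := by
    refine integral_mono_of_nonneg ?_ ((i1.const_mul 2).add (i2.const_mul 2)) ?_
    · filter_upwards [hk] with p hp
      exact mul_nonneg hp (sq_nonneg _)
    · filter_upwards [hk] with p hp
      have h1 : dX L p ^ 2 ≤ 2 * (L (post p.1 p.2.1 p.2.2) - L p.1) ^ 2 +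
          2 * (L (post' p.1 p.2.1 p.2.2) - L p.2.1) ^ 2 := by
        unfold dX
        nlinarith [sq_nonneg ((L (post p.1 p.2.1 p.2.2) - L p.1) -
          (L (post' p.1 p.2.1 p.2.2) - L p.2.1))]
      have h2 := mul_le_mul_of_nonneg_left h1 hp
      linarith
  rw [integral_add (i1.const_mul 2) (i2.const_mul 2), integral_const_mul, integral_const_mul, e] at step
  linarith

/-- the increments of the renormalization -/
private lemma er_inc (H : Hyp d (1 + a) s b C Ca) (h1 : 2 * s < a) (h3 : a ≤ 1) : ∃ K : ℝ, 0 ≤ K ∧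
    ∀ C₀ : ℝ, 0 < C₀ → ∀ G : Vec d → ℝ, Gd G → ∀ ε : ℝ, 0 < ε → ∀ A : ℝ, 0 ≤ A → ∀ ψ : Vec d → ℝ,
    (∀ v, |ψ v| ≤ A) → Hol a (fun _ => 1) A ψ →
    ∫ p, kx (1 + a) b ε G p * (bet' C₀ (G (post p.1 p.2.1 p.2.2)) * ψ (post p.1 p.2.1 p.2.2) -
        bet' C₀ (G p.1) * ψ p.1) ^ 2 ∂(mu3 d) ≤
      A ^ 2 * (18 * Pc (1 + a) b ε G + K * XS a G univ) := by
  have hs := H.hs
  have h0 : 0 < a := by linarith
  obtain ⟨K₁, hK₁, hinc⟩ := int_inc H h1 h3
  obtain ⟨K₂, hK₂, hcoer⟩ := coer H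
  obtain ⟨K₃, hK₃, hneg⟩ := int_neg H h0 h3
  refine ⟨2 * K₁ + 18 * K₂ + 2 * K₃, by positivity, ?_⟩
  intro C₀ hC₀ G hG ε hε A hA ψ hψA hψ
  have hG0 : ∀ v, 0 ≤ G v := fun v => (hG.pos v).le
  have hc := hol_cont h0 (fun _ _ => le_rfl) hA hψ
  have mpost := (continuous_post (d := d)).measurable
  have mv : Measurable fun p : Vec d × Vec d × Vec d => p.1 := measurable_fst
  have hbm : Measurable fun v => bet' C₀ (G v) := by
    unfold bet'
    exact ((measurable_const.div (hG.cont.measurable.const_add C₀))).pow_const 2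
  have hbc0 : ∀ v, 0 ≤ bet' C₀ (G v) := fun v => bet_nonneg _ _
  have hbc1 : ∀ v, bet' C₀ (G v) ≤ 1 := fun v => bet_le_one hC₀ (hG0 v)
  -- the two pieces
  set X : Vec d × Vec d × Vec d → ℝ := fun p =>
    (bet' C₀ (G (post p.1 p.2.1 p.2.2)) - bet' C₀ (G p.1)) ^ 2 with hX
  set Y : Vec d × Vec d × Vec d → ℝ := fun p => (ψ (post p.1 p.2.1 p.2.2) - ψ p.1) ^ 2 with hY
  have mX : Measurable X := ((hbm.comp mpost).sub (hbm.comp mv)).pow_const 2
  have mY : Measurable Y := ((hc.measurable.comp mpost).sub (hc.measurable.comp mv)).pow_const 2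
  have hX1 : ∀ p, X p ≤ 1 := by
    intro p
    have a1 := hbc0 (post p.1 p.2.1 p.2.2)
    have a2 := hbc1 (post p.1 p.2.1 p.2.2)
    have a3 := hbc0 p.1
    have a4 := hbc1 p.1
    simp only [hX]
    nlinarith
  have hX0 : ∀ p, 0 ≤ X p := fun p => sq_nonneg _
  have hY0 : ∀ p, 0 ≤ Y p := fun p => sq_nonneg _
  have hY1 : ∀ p, Y p ≤ (2 * A) ^ 2 := by
    intro p
    have h1 := abs_le.1 (hψA (post p.1 p.2.1 p.2.2))
    have h2 := abs_le.1 (hψA p.1)
    have h3 : |ψ (post p.1 p.2.1 p.2.2) - ψ p.1| ≤ 2 * A := by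
      rw [abs_le]
      constructor <;> linarith
    calc Y p = |ψ (post p.1 p.2.1 p.2.2) - ψ p.1| ^ 2 := (sq_abs _).symm
      _ ≤ (2 * A) ^ 2 := pow_le_pow_left₀ (abs_nonneg _) h3 2
  have iX : Integrable (fun p => kx (1 + a) b ε G p * X p) (mu3 d) :=
    kx_int H hε hG.rd hG.cont mX (er_PB (A := 1) zero_le_one fun p => by
      rw [abs_of_nonneg (hX0 p)]; exact hX1 p)
  have iY : Integrable (fun p => kx (1 + a) b ε G p * Y p) (mu3 d) :=
    kx_int H hε hG.rd hG.cont mY (er_PB (A := (2 * A) ^ 2) (by positivity) fun p => by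
      rw [abs_of_nonneg (hY0 p)]; exact hY1 p)
  have hk := kx_nonneg H hε hG0
  have step : ∫ p, kx (1 + a) b ε G p * (bet' C₀ (G (post p.1 p.2.1 p.2.2)) *
        ψ (post p.1 p.2.1 p.2.2) - bet' C₀ (G p.1) * ψ p.1) ^ 2 ∂(mu3 d) ≤
      ∫ p, (2 * A ^ 2 * (kx (1 + a) b ε G p * X p) + 2 * (kx (1 + a) b ε G p * Y p)) ∂(mu3 d) := by
    refine integral_mono_of_nonneg ?_ ((iX.const_mul _).add (iY.const_mul 2)) ?_
    · filter_upwards [hk] with p hp
      exact mul_nonneg hp (sq_nonneg _)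
    · filter_upwards [hk] with p hp
      have h1 : (bet' C₀ (G (post p.1 p.2.1 p.2.2)) * ψ (post p.1 p.2.1 p.2.2) -
          bet' C₀ (G p.1) * ψ p.1) ^ 2 ≤ 2 * A ^ 2 * X p + 2 * Y p := by
        have e : bet' C₀ (G (post p.1 p.2.1 p.2.2)) * ψ (post p.1 p.2.1 p.2.2) -
            bet' C₀ (G p.1) * ψ p.1 =
            (bet' C₀ (G (post p.1 p.2.1 p.2.2)) - bet' C₀ (G p.1)) * ψ (post p.1 p.2.1 p.2.2) +
              bet' C₀ (G p.1) * (ψ (post p.1 p.2.1 p.2.2) - ψ p.1) := by ring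
        rw [e]
        set u := bet' C₀ (G (post p.1 p.2.1 p.2.2)) - bet' C₀ (G p.1) with hu
        set z := ψ (post p.1 p.2.1 p.2.2) with hz
        set y := ψ (post p.1 p.2.1 p.2.2) - ψ p.1 with hy
        set c := bet' C₀ (G p.1) with hcd
        have c0 : 0 ≤ c := hbc0 _
        have c1 : c ≤ 1 := hbc1 _
        have z1 : z ^ 2 ≤ A ^ 2 := by
          rw [← sq_abs]
          exact pow_le_pow_left₀ (abs_nonneg _) (hψA _) 2
        have c2 : c ^ 2 ≤ 1 := pow_le_one₀ c0 c1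
        have eX : X p = u ^ 2 := rfl
        have eY : Y p = y ^ 2 := rfl
        rw [eX, eY]
        have q1 : (u * z) ^ 2 ≤ A ^ 2 * u ^ 2 := by
          have := mul_le_mul_of_nonneg_right z1 (sq_nonneg u)
          calc (u * z) ^ 2 = z ^ 2 * u ^ 2 := by ring
            _ ≤ _ := this
        have q2 : (c * y) ^ 2 ≤ y ^ 2 := by
          have := mul_le_mul_of_nonneg_right c2 (sq_nonneg y)
          calc (c * y) ^ 2 = c ^ 2 * y ^ 2 := by ring
            _ ≤ 1 * y ^ 2 := this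
            _ = y ^ 2 := one_mul _
        nlinarith [sq_nonneg (u * z - c * y)]
      have h2 := mul_le_mul_of_nonneg_left h1 hp
      linarith
  rw [integral_add (iX.const_mul _) (iY.const_mul 2), integral_const_mul, integral_const_mul] at step
  have bY : ∫ p, kx (1 + a) b ε G p * Y p ∂(mu3 d) ≤ K₁ * A ^ 2 * XS a G univ :=
    hinc G hG.rd hG.cont hG0 ε hε A hA ψ hψA hψ
  have hXS : 0 ≤ XS a G univ := XS_nonneg hG0 univ
  have hGG : GG (1 + a) G ≤ XS a G univ := GG_le h0.le h3 hG.rd hG.cont hG0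
  -- the coercive piece
  have bX : ∫ p, kx (1 + a) b ε G p * X p ∂(mu3 d) ≤
      9 * (Pc (1 + a) b ε G + K₂ * XS a G univ) + K₃ * XS a G univ := by
    rw [← integral_add_compl Hf_meas iX]
    obtain ⟨ic, hc1⟩ := hcoer ε hε G hG
    have p1 : ∫ p in Hf d, kx (1 + a) b ε G p * X p ∂(mu3 d) ≤
        ∫ p in Hf d, 9 * (kerB (1 + a) b ε p.1 p.2.1 p.2.2 *
          (G p.2.1 * (Real.sqrt (G (post p.1 p.2.1 p.2.2)) - Real.sqrt (G p.1)) ^ 2)) ∂(mu3 d) := by
      refine integral_mono_ae iX.integrableOn (ic.const_mul 9) (ae_restrict_of_ae ?_)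
      filter_upwards [ae_good H.hd1] with p hp
      obtain ⟨v, w, σ⟩ := p
      have hkb : 0 ≤ kerB (1 + a) b ε v w σ := kerB_nonneg H.bd hε hp.2
      have h4 := bet_sq hC₀ (hG0 v) (hG0 (post v w σ))
      have h5 := mul_le_mul_of_nonneg_left h4 (mul_nonneg hkb (hG0 w))
      show kerB (1 + a) b ε v w σ * (G w * G v) *
          (bet' C₀ (G (post v w σ)) - bet' C₀ (G v)) ^ 2 ≤
        9 * (kerB (1 + a) b ε v w σ *
          (G w * (Real.sqrt (G (post v w σ)) - Real.sqrt (G v)) ^ 2))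
      calc kerB (1 + a) b ε v w σ * (G w * G v) * (bet' C₀ (G (post v w σ)) - bet' C₀ (G v)) ^ 2
          = kerB (1 + a) b ε v w σ * G w *
            (G v * (bet' C₀ (G (post v w σ)) - bet' C₀ (G v)) ^ 2) := by ring
        _ ≤ _ := h5
        _ = _ := by ring
    rw [integral_const_mul] at p1
    have ik : Integrable (fun p => kx (1 + a) b ε G p) (mu3 d) := by
      have := kx_int H hε hG.rd hG.cont (measurable_const (a := (1 : ℝ)))
        (er_PB (A := 1) zero_le_one fun _ => by simp)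
      simpa using this
    have p2 : ∫ p in (Hf d)ᶜ, kx (1 + a) b ε G p * X p ∂(mu3 d) ≤
        ∫ p in (Hf d)ᶜ, kx (1 + a) b ε G p ∂(mu3 d) := by
      refine integral_mono_ae iX.integrableOn ik.integrableOn (ae_restrict_of_ae ?_)
      filter_upwards [hk] with p hp
      exact mul_le_of_le_one_right hp (hX1 p)
    have p3 := hneg G hG.rd hG.cont hG0 ε hε
    have p4 : K₂ * GG (1 + a) G ≤ K₂ * XS a G univ := mul_le_mul_of_nonneg_left hGG hK₂
    linarith
  have f1 := mul_le_mul_of_nonneg_left bX (by positivity : (0 : ℝ) ≤ 2 * A ^ 2)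
  have f2 : 2 * A ^ 2 * (9 * (Pc (1 + a) b ε G + K₂ * XS a G univ) + K₃ * XS a G univ) +
      2 * (K₁ * A ^ 2 * XS a G univ) =
      A ^ 2 * (18 * Pc (1 + a) b ε G + (2 * K₁ + 18 * K₂ + 2 * K₃) * XS a G univ) := by ring
  linarith

/-- the estimate at the cut-off level -/
private lemma er_cut (H : Hyp d (1 + a) s b C Ca) (h1 : 2 * s < a) (h3 : a ≤ 1) : ∃ K : ℝ, 0 ≤ K ∧
    ∀ e₀ : ℝ, 0 < e₀ → e₀ ≤ 1 → ∀ C₀ : ℝ, 0 < C₀ → ∀ G : Vec d → ℝ, Gd G → ∀ ε : ℝ, 0 < ε →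
    ∀ A : ℝ, 0 ≤ A → ∀ ψ : Vec d → ℝ, (∀ v, |ψ v| ≤ A) → Hol a (fun _ => 1) A ψ →
    2 * |∫ v, boltzCut (1 + a) b ε G v * (bet' C₀ (G v) * ψ v)| ≤
      A * ((1 / e₀ + K) * Pc (1 + a) b ε G + e₀ * K * XS a G univ) := by
  have hs := H.hs
  have h0 : 0 < a := by linarith
  obtain ⟨K, hK, hinc⟩ := er_inc H h1 h3
  refine ⟨K + 18, by positivity, ?_⟩
  intro e₀ he₀ he₁ C₀ hC₀ G hG ε hε A hA ψ hψA hψ
  have hG0 : ∀ v, 0 ≤ G v := fun v => (hG.pos v).le
  have hPc : 0 ≤ Pc (1 + a) b ε G := Pc_nonneg H hε hG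
  have hXS : 0 ≤ XS a G univ := XS_nonneg hG0 univ
  rcases hA.eq_or_lt with hA0 | hA0
  · have hz : ∀ v, ψ v = 0 := fun v => by
      have := hψA v
      rw [← hA0] at this
      exact abs_eq_zero.1 (le_antisymm this (abs_nonneg _))
    have : ∫ v, boltzCut (1 + a) b ε G v * (bet' C₀ (G v) * ψ v) = 0 := by
      simp only [hz, mul_zero, integral_zero]
    rw [this, ← hA0]
    simp
  · have hc := hol_cont h0 (fun _ _ => le_rfl) hA hψ
    have hbm : Measurable fun v => bet' C₀ (G v) := by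
      unfold bet'
      exact ((measurable_const.div (hG.cont.measurable.const_add C₀))).pow_const 2
    set L : Vec d → ℝ := fun v => bet' C₀ (G v) * ψ v with hL
    have hLm : Measurable L := hbm.mul hc.measurable
    have hLA : ∀ v, |L v| ≤ A := by
      intro v
      simp only [hL]
      rw [abs_mul, abs_of_nonneg (bet_nonneg _ _)]
      calc bet' C₀ (G v) * |ψ v| ≤ 1 * A :=
            mul_le_mul (bet_le_one hC₀ (hG0 v)) (hψA v) (abs_nonneg _) zero_le_one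
        _ = A := one_mul A
    have hLP : PG L := er_PG hLA
    have hw := er_weak H hε hG.rd hG.cont hLP hLm
    have a1 := cs_cut H hε hG hLP hLm MeasurableSet.univ (fun _ _ _ _ _ => by simp)
      (lam := e₀ / A) (by positivity)
    simp only [Measure.restrict_univ] at a1
    have a2 := er_sq H hε hG.rd hG.cont hG0 hLA hLm
    have a3 := hinc C₀ hC₀ G hG ε hε A hA ψ hψA hψ
    have a4 : 2 * |∫ v, boltzCut (1 + a) b ε G v * L v| =
        |∫ p, kx (1 + a) b ε G p * dX L p ∂(mu3 d)| := by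
      rw [hw, abs_mul, abs_of_pos (by norm_num : (0 : ℝ) < 1 / 2)]
      ring
    rw [a4]
    have a5 : ∫ p, kx (1 + a) b ε G p * dX L p ^ 2 ∂(mu3 d) ≤
        4 * (A ^ 2 * (18 * Pc (1 + a) b ε G + K * XS a G univ)) := by
      refine a2.trans (mul_le_mul_of_nonneg_left a3 (by norm_num))
    have a6 := mul_le_mul_of_nonneg_left a5 (by positivity : (0 : ℝ) ≤ e₀ / A / 4)
    have a7 : e₀ / A / 4 * (4 * (A ^ 2 * (18 * Pc (1 + a) b ε G + K * XS a G univ))) =
        A * (e₀ * 18 * Pc (1 + a) b ε G + e₀ * K * XS a G univ) := by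
      field_simp
    have a8 : 1 / (e₀ / A) * Pc (1 + a) b ε G = A * (1 / e₀ * Pc (1 + a) b ε G) := by
      field_simp
    have a9 : A * (e₀ * 18 * Pc (1 + a) b ε G + e₀ * K * XS a G univ) +
        A * (1 / e₀ * Pc (1 + a) b ε G) ≤
        A * ((1 / e₀ + (K + 18)) * Pc (1 + a) b ε G + e₀ * (K + 18) * XS a G univ) := by
      rw [← mul_add]
      refine mul_le_mul_of_nonneg_left ?_ hA
      have q1 : e₀ * 18 * Pc (1 + a) b ε G ≤ (K + 18) * Pc (1 + a) b ε G := by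
        refine mul_le_mul_of_nonneg_right ?_ hPc
        linarith
      have q2 : e₀ * K * XS a G univ ≤ e₀ * (K + 18) * XS a G univ := by
        refine mul_le_mul_of_nonneg_right ?_ hXS
        have := mul_le_mul_of_nonneg_left (by linarith : K ≤ K + 18) he₀.le
        exact this
      linarith
    rw [a8] at a1
    rw [a7] at a6
    linarith

private lemma er_gau (v : Vec d) : 0 < gau v ∧ gau v ≤ 1 := by
  refine ⟨Real.exp_pos _, ?_⟩
  unfold gau
  rw [← Real.exp_zero]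
  exact Real.exp_le_exp.2 (by linarith [sq_nonneg' v])

theorem err_ren (H : Hyp d (1 + a) s b C Ca) (h1 : 2 * s < a) (h3 : a ≤ 1) :
    ∃ K : ℝ, 0 ≤ K ∧ ∀ e₀ : ℝ, 0 < e₀ → e₀ ≤ 1 → ∀ C₀ : ℝ, 0 < C₀ →
      ∀ (A₁ : ℝ) (Cl : ℕ → ℝ) (η : ℝ), 0 < η →
      ∃ δ₀ > 0, ∀ δ ∈ Ioc (0 : ℝ) δ₀, ∀ g : Vec d → ℝ, UNice Cl g →
      ∀ A : ℝ, 0 ≤ A → A ≤ A₁ → ∀ ψ : Vec d → ℝ, (∀ w, |ψ w| ≤ A) →
      (∀ w w' : Vec d, |ψ w - ψ w'| ≤ A * len (w - w') ^ a) →
      |∫ w, bet' C₀ (g w) * boltzQ (1 + a) b g w * ψ w| ≤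
        A * ((1 / e₀ + K) * Dn (1 + a) b δ g + e₀ * K * XS a g univ) + η := by
  have hs := H.hs
  have h0 : 0 < a := by linarith
  obtain ⟨K, hK, hcut⟩ := er_cut H h1 h3
  refine ⟨K, hK, fun e₀ he₀ he₁ C₀ hC₀ A₁ Cl η hη => ?_⟩
  obtain ⟨D, hD, hdec⟩ := Pool.Agent.H15.AV.boltzCut_decay_unif H Cl (d + 1)
  have hI0 : 0 ≤ ∫ z, wt d z := integral_nonneg fun z => wt_nonneg z
  set B : ℝ := |A₁| * (1 / e₀ + K) + |A₁| * (e₀ * K) + 2 with hB
  have hB0 : 0 < B := by positivity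
  set η' : ℝ := η / B with hη'
  have hη'0 : 0 < η' := div_pos hη hB0
  have hηB : B * η' = η := by
    rw [hη']
    field_simp
  obtain ⟨δa, hδa, hδah, htra⟩ := tra H Cl (2 * A₁) hη'0
  obtain ⟨δb, hδb, hδbh, hPc⟩ := Pc_lim H Cl hη'0
  obtain ⟨δc, hδc, hXS⟩ := XS_reg (d := d) h0.le h3 Cl hη'0
  set Z : ℝ := 2 / C₀ * |A₁| * D * (∫ z, wt d z) with hZ
  have hZ0 : 0 ≤ Z := by positivity
  refine ⟨min (min δa δb) (min δc (η' / (Z + 1))),
    lt_min (lt_min hδa hδb) (lt_min hδc (by positivity)), ?_⟩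
  intro δ hδ g hg A hA hAA ψ hψA hψ
  have hd0 : 0 < δ := hδ.1
  have hda : δ ≤ δa := hδ.2.trans ((min_le_left _ _).trans (min_le_left _ _))
  have hdb : δ ≤ δb := hδ.2.trans ((min_le_left _ _).trans (min_le_right _ _))
  have hdc : δ ≤ δc := hδ.2.trans ((min_le_right _ _).trans (min_le_left _ _))
  have hde : δ ≤ η' / (Z + 1) := hδ.2.trans ((min_le_right _ _).trans (min_le_right _ _))
  have hdZ : δ * Z ≤ η' := by
    rw [le_div_iff₀ (by linarith)] at hde
    nlinarith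
  have hd1 : δ ≤ 1 := by linarith
  have hA1 : 0 ≤ A₁ := hA.trans hAA
  have hψ' : Hol a (fun _ => 1) A ψ := fun w w' => by
    have := hψ w w'
    rwa [one_mul]
  have hc := hol_cont h0 (fun _ _ => le_rfl) hA hψ'
  have hG := gd_reg hg hd0 hd1
  have hG0 : ∀ v, 0 ≤ g v + δ * gau v := fun v => (hG.pos v).le
  have hbm : ∀ f : Vec d → ℝ, Measurable f → Measurable fun v => bet' C₀ (f v) := by
    intro f hf
    unfold bet'
    exact ((measurable_const.div (hf.const_add C₀))).pow_const 2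
  set L : Vec d → ℝ := fun v => bet' C₀ (g v + δ * gau v) * ψ v with hL
  have hLm : Measurable L := (hbm _ hG.cont.measurable).mul hc.measurable
  have hLA : ∀ v, |L v| ≤ A := by
    intro v
    simp only [hL]
    rw [abs_mul, abs_of_nonneg (bet_nonneg _ _)]
    calc bet' C₀ (g v + δ * gau v) * |ψ v| ≤ 1 * A :=
          mul_le_mul (bet_le_one hC₀ (hG0 v)) (hψA v) (abs_nonneg _) zero_le_one
      _ = A := one_mul A
  have hLP : PG L := er_PG hLA
  have hlin : ∀ v, |L v - L 0| ≤ 2 * A₁ * (1 + ‖v‖) := by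
    intro v
    have q1 := abs_le.1 (hLA v)
    have q2 := abs_le.1 (hLA 0)
    have q3 : |L v - L 0| ≤ 2 * A := by
      rw [abs_le]
      constructor <;> linarith
    have q4 : 2 * A₁ * 1 ≤ 2 * A₁ * (1 + ‖v‖) :=
      mul_le_mul_of_nonneg_left (one_le_w v) (by positivity)
    linarith
  obtain ⟨hDn, hev⟩ := hPc δ ⟨hd0, hdb⟩ g hg
  have hx1 := hXS δ ⟨hd0, hdc⟩ g hg univ MeasurableSet.univ
  have hlim := (boltz_weak_tendsto H hg.nice hLP hLm).abs
  -- the estimate with the regularized renormalization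
  have hmain : |∫ v, boltzQ (1 + a) b g v * L v| ≤
      A * ((1 / e₀ + K) * Dn (1 + a) b δ g + e₀ * K * XS a g univ) +
        (|A₁| * (1 / e₀ + K) * η' + |A₁| * (e₀ * K) * η' + η') := by
    refine le_of_tendsto hlim ?_
    filter_upwards [hev, self_mem_nhdsWithin] with ε hPε hε
    have hε0 : 0 < ε := hε
    have t1 := htra δ ⟨hd0, hda⟩ g hg L hLm hlin ε hε0
    have t2 := hcut e₀ he₀ he₁ C₀ hC₀ _ hG ε hε0 A hA ψ hψA hψ'
    have hAa : A ≤ |A₁| := hAA.trans (le_abs_self _)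
    have s1 : (1 / e₀ + K) * Pc (1 + a) b ε (fun v => g v + δ * gau v) ≤
        (1 / e₀ + K) * Dn (1 + a) b δ g + (1 / e₀ + K) * η' := by
      have := mul_le_mul_of_nonneg_left hPε (by positivity : (0 : ℝ) ≤ 1 / e₀ + K)
      linarith
    have s2 : e₀ * K * XS a (fun v => g v + δ * gau v) univ ≤
        e₀ * K * XS a g univ + e₀ * K * η' := by
      have := mul_le_mul_of_nonneg_left hx1 (by positivity : (0 : ℝ) ≤ e₀ * K)
      linarith
    have s3 : A * ((1 / e₀ + K) * Pc (1 + a) b ε (fun v => g v + δ * gau v) +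
        e₀ * K * XS a (fun v => g v + δ * gau v) univ) ≤
        A * ((1 / e₀ + K) * Dn (1 + a) b δ g + e₀ * K * XS a g univ) +
          A * ((1 / e₀ + K) * η' + e₀ * K * η') := by
      rw [← mul_add]
      refine mul_le_mul_of_nonneg_left ?_ hA
      linarith
    have s4 : A * ((1 / e₀ + K) * η' + e₀ * K * η') ≤
        |A₁| * (1 / e₀ + K) * η' + |A₁| * (e₀ * K) * η' := by
      have q : 0 ≤ (1 / e₀ + K) * η' + e₀ * K * η' := by positivity
      have := mul_le_mul_of_nonneg_right hAa q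
      calc _ ≤ |A₁| * ((1 / e₀ + K) * η' + e₀ * K * η') := this
        _ = _ := by ring
    linarith
  -- back to `bet' (g)`
  have hQd : ∀ v, |boltzQ (1 + a) b g v| ≤ D * wt d v := by
    intro v
    refine le_of_tendsto (boltz_tendsto H hg.nice v).abs ?_
    filter_upwards [self_mem_nhdsWithin] with ε hε
    exact hdec g hg ε hε v
  have hQm : Measurable fun v => boltzQ (1 + a) b g v := by
    refine measurable_of_tendsto_metrizable' (𝓝[>] (0 : ℝ)) (f := fun ε v => boltzCut (1 + a) b ε g v)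
      (fun ε => (boltzCut_meas H.bm hg.nice.cont ε).measurable) ?_
    rw [tendsto_pi_nhds]
    exact fun v => boltz_tendsto H hg.nice v
  have iQ : ∀ F : Vec d → ℝ, Measurable F → (∀ v, |F v| ≤ A) →
      Integrable fun v => boltzQ (1 + a) b g v * F v := by
    intro F hF hFA
    refine (integrable_wt.const_mul (D * A)).mono' (hQm.mul hF).aestronglyMeasurable
      (Eventually.of_forall fun v => ?_)
    rw [norm_mul, Real.norm_eq_abs, Real.norm_eq_abs]
    calc |boltzQ (1 + a) b g v| * |F v| ≤ (D * wt d v) * A :=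
          mul_le_mul (hQd v) (hFA v) (abs_nonneg _) (mul_nonneg hD (wt_nonneg v))
      _ = D * A * wt d v := by ring
  set L' : Vec d → ℝ := fun v => bet' C₀ (g v) * ψ v with hL'
  have hLm' : Measurable L' := (hbm _ hg.nice.cont.measurable).mul hc.measurable
  have hLA' : ∀ v, |L' v| ≤ A := by
    intro v
    simp only [hL']
    rw [abs_mul, abs_of_nonneg (bet_nonneg _ _)]
    calc bet' C₀ (g v) * |ψ v| ≤ 1 * A :=
          mul_le_mul (bet_le_one hC₀ (hg.nonneg v)) (hψA v) (abs_nonneg _) zero_le_one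
      _ = A := one_mul A
  have hdiff : |(∫ v, boltzQ (1 + a) b g v * L' v) - ∫ v, boltzQ (1 + a) b g v * L v| ≤ η' := by
    rw [← integral_sub (iQ L' hLm' hLA') (iQ L hLm hLA), ← Real.norm_eq_abs]
    have hb : ∀ v, ‖boltzQ (1 + a) b g v * L' v - boltzQ (1 + a) b g v * L v‖ ≤
        (δ * (2 / C₀ * |A₁| * D)) * wt d v := by
      intro v
      obtain ⟨g0, g1⟩ := er_gau v
      have q0 : 0 ≤ δ * gau v := mul_nonneg hd0.le g0.le
      have q1 := bet_lip hC₀ (hg.nonneg v) (hG0 v)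
      have q2 : |g v - (g v + δ * gau v)| ≤ δ := by
        have : g v - (g v + δ * gau v) = -(δ * gau v) := by ring
        rw [this, abs_neg, abs_of_nonneg q0]
        exact mul_le_of_le_one_right hd0.le g1
      have q3 : |L' v - L v| ≤ 2 / C₀ * δ * |A₁| := by
        have e : L' v - L v = (bet' C₀ (g v) - bet' C₀ (g v + δ * gau v)) * ψ v := by
          simp only [hL, hL']
          ring
        rw [e, abs_mul]
        have q4 : |bet' C₀ (g v) - bet' C₀ (g v + δ * gau v)| ≤ 2 / C₀ * δ :=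
          q1.trans (mul_le_mul_of_nonneg_left q2 (by positivity))
        exact mul_le_mul q4 ((hψA v).trans (hAA.trans (le_abs_self _))) (abs_nonneg _)
          (by positivity)
      have e2 : boltzQ (1 + a) b g v * L' v - boltzQ (1 + a) b g v * L v =
          boltzQ (1 + a) b g v * (L' v - L v) := by ring
      rw [e2, norm_mul, Real.norm_eq_abs, Real.norm_eq_abs]
      calc |boltzQ (1 + a) b g v| * |L' v - L v| ≤ (D * wt d v) * (2 / C₀ * δ * |A₁|) :=
            mul_le_mul (hQd v) q3 (abs_nonneg _) (mul_nonneg hD (wt_nonneg v))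
        _ = _ := by ring
    refine (norm_integral_le_of_norm_le (integrable_wt.const_mul _)
      (Eventually.of_forall hb)).trans ?_
    rw [integral_const_mul]
    calc δ * (2 / C₀ * |A₁| * D) * ∫ z, wt d z = δ * Z := by rw [hZ]; ring
      _ ≤ η' := hdZ
  have efin : ∫ w, bet' C₀ (g w) * boltzQ (1 + a) b g w * ψ w =
      ∫ v, boltzQ (1 + a) b g v * L' v := by
    refine integral_congr_ae (Eventually.of_forall fun v => ?_)
    simp only [hL']
    ring
  rw [efin]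
  have k1 : |∫ v, boltzQ (1 + a) b g v * L' v| ≤
      |(∫ v, boltzQ (1 + a) b g v * L' v) - ∫ v, boltzQ (1 + a) b g v * L v| +
        |∫ v, boltzQ (1 + a) b g v * L v| := by
    have := abs_add_le ((∫ v, boltzQ (1 + a) b g v * L' v) - ∫ v, boltzQ (1 + a) b g v * L v)
      (∫ v, boltzQ (1 + a) b g v * L v)
    rwa [sub_add_cancel] at this
  have k2 : B * η' = |A₁| * (1 / e₀ + K) * η' + |A₁| * (e₀ * K) * η' + 2 * η' := by
    rw [hB]
    ring
  linarith

end Pool.Agent.H87.PE
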