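import Pool.Agent.H87.PE.Sym

/-!
# Module CanA: the angular defect of the cancellation

`β = bp b ε` is the kernel cut to `0 ≤ x ≤ 1 - ε`. For `e = dir m` (`nsq e = 1`, `co m σ = dot (dir m) σ`: `co_eq`), `c = co m σ`, `x = 2c² - 1`, `c > 0`:
`Kn d γ β c = 2^(d-1) c^(-2-γ) β x = 2^(d-1) c^(d-2) · c^(-d-γ) β x`, and `β x ≠ 0` only for `x ≥ 0`, i.e. `c² ≥ 1/2`, where `c^(-d-γ) ≤ 2^((d+γ)/2)` (`d + γ ≥ 0`,
as `d ≥ 2`, `γ > -2`) and `1 - c^(d+γ) ≤ (d+γ+1)(1-c) ≤ (d+γ+1)(1-c²) = (d+γ+1)(1-x)/2` (`bernoulli_ineq`, BK/Pw). So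
`Kn d γ β c ≤ 2^(d-1) c^(d-2) [c^(-d-γ) β x c^(d+γ) + κ β x (1 - x)]`, `κ = 2^((d+γ)/2)(d+γ+1)/2`: the first part is `2^(d-1) c^(d-2) β x`. Integrate over `{0 < dot m σ}` and use
`half_angle` (BK/HA) twice, with `β` and with `x ↦ β x (1 - x)` (both vanish at `x = -1`): the result is `∫ β(dot e σ) + κ ∫ β(dot e σ)(1 - dot e σ)`, and the last
integral is `≤ C A 2^(1-s)` by `ang_small` (H48/PL/Ang, `τ = 1`, `u = 2`) and `β x ≤ C (1-x)^(-((d-1)/2+s))` (`AngBound`, as in `ker_small`).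
-/

set_option autoImplicit false

open MeasureTheory Set Filter Topology Pool.Agent.H25.Kin Pool.Agent.H48.PL
open Pool.Agent.H82.BK (bcut Kn hh co dir)
open scoped ENNReal

namespace Pool.Agent.H87.PE

variable {d : ℕ} {γ s C Ca : ℝ} {b : ℝ → ℝ}

/-- the angular kernel cut to `0 ≤ x ≤ 1 - ε` -/
noncomputable def bp (b : ℝ → ℝ) (ε x : ℝ) : ℝ := if 0 ≤ x then bcut b ε x else 0

lemma bp_meas (hb : Measurable b) (ε : ℝ) : Measurable (bp b ε) := by
  unfold bp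
  refine Measurable.ite measurableSet_Ici ?_ measurable_const
  unfold bcut
  exact Measurable.ite measurableSet_Iic hb measurable_const

lemma bp_ker (γ : ℝ) (b : ℝ → ℝ) (ε : ℝ) (v w σ : Vec d) :
    len (v - w) ^ γ * bp b ε (cosTh v w σ) = if 0 ≤ cosTh v w σ then kerB γ b ε v w σ else 0 := by
  unfold bp bcut kerB
  split_ifs <;> simp

/-- the factor for the half angle -/
private lemma CanA_pow {c p : ℝ} (hc : 0 < c) (hc1 : c ≤ 1) (hc2 : 1 / 2 ≤ c ^ 2) (hp : 0 ≤ p) :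
    c ^ (-p) ≤ 1 + 2 ^ (p / 2) * (p + 1) / 2 * (1 - (2 * c ^ 2 - 1)) := by
  have h1 : c ^ (-p) ≤ 2 ^ (p / 2) := by
    have e1 : c ^ (-p) = (c ^ 2) ^ (-(p / 2)) := by
      rw [← Real.rpow_natCast c 2, ← Real.rpow_mul hc.le]
      congr 1
      push_cast
      ring
    have e2 : (2 : ℝ) ^ (p / 2) = (1 / 2 : ℝ) ^ (-(p / 2)) := by
      rw [Real.rpow_neg (by norm_num), one_div, Real.inv_rpow (by norm_num), inv_inv]
    rw [e1, e2]
    exact Real.rpow_le_rpow_of_nonpos (by norm_num) hc2 (by linarith)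
  have h2 := Pool.Agent.H82.BK.bernoulli_ineq hc hc1 hp
  have h3 : c ^ (-p) * c ^ p = 1 := by
    rw [← Real.rpow_add hc, neg_add_cancel, Real.rpow_zero]
  have h4 : 0 < c ^ (-p) := Real.rpow_pos_of_pos hc _
  have h5 : c ^ p ≤ 1 := Real.rpow_le_one hc.le hc1 hp
  have h6 : 1 - c ≤ 1 - c ^ 2 := by nlinarith
  have h7 : 1 - c ^ p ≤ (p + 1) * (1 - c ^ 2) :=
    h2.trans (mul_le_mul_of_nonneg_left h6 (by linarith))
  calc c ^ (-p) = 1 + c ^ (-p) * (1 - c ^ p) := by rw [mul_sub, h3]; ring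
    _ ≤ 1 + 2 ^ (p / 2) * ((p + 1) * (1 - c ^ 2)) := by
        have h8 : c ^ (-p) * (1 - c ^ p) ≤ 2 ^ (p / 2) * ((p + 1) * (1 - c ^ 2)) :=
          mul_le_mul h1 h7 (by linarith) (by positivity)
        linarith
    _ = _ := by ring

/-- pointwise bound -/
private lemma CanA_pt (H : Hyp d γ s b C Ca) {ε : ℝ} (hε : 0 < ε) {c : ℝ} (hc : 0 < c) (hc1 : c ≤ 1) :
    Kn d γ (bp b ε) c ≤ 2 ^ (d - 1) * c ^ (d - 2) * (bp b ε (2 * c ^ 2 - 1) +
      2 ^ (((d : ℝ) + γ) / 2) * ((d : ℝ) + γ + 1) / 2 *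
        (bp b ε (2 * c ^ 2 - 1) * (1 - (2 * c ^ 2 - 1)))) := by
  unfold Kn
  by_cases h0 : 0 ≤ 2 * c ^ 2 - 1
  · by_cases h1 : 2 * c ^ 2 - 1 ≤ 1 - ε
    · have hb : bp b ε (2 * c ^ 2 - 1) = b (2 * c ^ 2 - 1) := by
        unfold bp bcut
        rw [if_pos h0, if_pos h1]
      have hb0 : 0 ≤ b (2 * c ^ 2 - 1) := (H.bd.2 _ (by linarith) (by linarith)).1
      have hd2 : (2 : ℝ) ≤ d := by exact_mod_cast H.hd
      have hp : 0 ≤ (d : ℝ) + γ := by
        have := H.g1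
        linarith
      have h2 := CanA_pow hc hc1 (by linarith) hp
      have h3 : c ^ (-2 - γ) = c ^ (d - 2) * c ^ (-((d : ℝ) + γ)) := by
        rw [← Real.rpow_natCast c (d - 2), ← Real.rpow_add hc]
        congr 1
        rw [Nat.cast_sub H.hd]
        push_cast
        ring
      rw [hb, h3]
      have h4 : 0 ≤ 2 ^ (d - 1) * c ^ (d - 2) * b (2 * c ^ 2 - 1) := by positivity
      calc 2 ^ (d - 1) * (c ^ (d - 2) * c ^ (-((d : ℝ) + γ))) * b (2 * c ^ 2 - 1)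
          = 2 ^ (d - 1) * c ^ (d - 2) * b (2 * c ^ 2 - 1) * c ^ (-((d : ℝ) + γ)) := by ring
        _ ≤ 2 ^ (d - 1) * c ^ (d - 2) * b (2 * c ^ 2 - 1) *
            (1 + 2 ^ (((d : ℝ) + γ) / 2) * ((d : ℝ) + γ + 1) / 2 * (1 - (2 * c ^ 2 - 1))) :=
          mul_le_mul_of_nonneg_left h2 h4
        _ = _ := by ring
    · have hb : bp b ε (2 * c ^ 2 - 1) = 0 := by
        unfold bp bcut
        rw [if_pos h0, if_neg h1]
      rw [hb]
      simp
  · have hb : bp b ε (2 * c ^ 2 - 1) = 0 := by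
      unfold bp
      rw [if_neg h0]
    rw [hb]
    simp

theorem can_ang (H : Hyp d γ s b C Ca) : ∃ K : ℝ, 0 ≤ K ∧ ∀ ε : ℝ, 0 < ε → ∀ m : Vec d, m ≠ 0 →
    ∫⁻ σ in {σ : Vec d | 0 < dot m σ}, ENNReal.ofReal (Kn d γ (bp b ε) (co m σ)) ∂(surf d) ≤
      (∫⁻ σ, ENNReal.ofReal (bp b ε (dot (dir m) σ)) ∂(surf d)) + ENNReal.ofReal K := by
  obtain ⟨A, hA, hang⟩ := ang_small H H.hs1 le_rfl
  have hC := H.bd.1
  have hd2 : (2 : ℝ) ≤ d := by exact_mod_cast H.hd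
  have hp : 0 ≤ (d : ℝ) + γ := by
    have := H.g1
    linarith
  set κ : ℝ := 2 ^ (((d : ℝ) + γ) / 2) * ((d : ℝ) + γ + 1) / 2 with hκ
  have hκ0 : 0 ≤ κ := by positivity
  refine ⟨κ * C * (A * 2 ^ (1 - s)), by positivity, fun ε hε m hm => ?_⟩
  set e := dir m with he
  have hne : nsq e = 1 := Pool.Agent.H82.BK.nsq_dir hm
  have hset : {σ : Vec d | 0 < dot m σ} = {σ : Vec d | 0 < dot e σ} := by
    ext σ
    show 0 < dot m σ ↔ 0 < dot e σ
    rw [he, ← Pool.Agent.H82.BK.co_eq]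
    unfold co
    exact ⟨fun h => div_pos h (len_pos hm), fun h => by
      have := mul_pos h (len_pos hm)
      rwa [div_mul_cancel₀ _ (len_pos hm).ne'] at this⟩
  have hbm := bp_meas H.bm ε
  have hβ1 : Measurable fun x : ℝ => ENNReal.ofReal (bp b ε x) := hbm.ennreal_ofReal
  have hβ2 : Measurable fun x : ℝ => ENNReal.ofReal (κ * (bp b ε x * (1 - x))) :=
    ((hbm.mul (measurable_const.sub measurable_id)).const_mul κ).ennreal_ofReal
  have hbneg : bp b ε (-1) = 0 := by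
    unfold bp
    rw [if_neg (by norm_num)]
  have hhalf1 := Pool.Agent.H82.BK.half_angle H.hd hne hβ1 (by rw [hbneg, ENNReal.ofReal_zero])
  have hhalf2 := Pool.Agent.H82.BK.half_angle H.hd hne hβ2 (by rw [hbneg]; simp)
  have hm1 : Measurable fun σ : Vec d => ENNReal.ofReal (2 ^ (d - 1) * dot e σ ^ (d - 2)) :=
    (((Pool.Agent.H25.Kin.dot_cont e).measurable.pow_const _).const_mul _).ennreal_ofReal
  have hx : Measurable fun σ : Vec d => 2 * dot e σ ^ 2 - 1 :=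
    (((Pool.Agent.H25.Kin.dot_cont e).measurable.pow_const _).const_mul _).sub_const _
  have step1 : ∫⁻ σ in {σ : Vec d | 0 < dot m σ}, ENNReal.ofReal (Kn d γ (bp b ε) (co m σ)) ∂(surf d) ≤
      (∫⁻ σ, ENNReal.ofReal (bp b ε (dot e σ)) ∂(surf d)) +
        ∫⁻ σ, ENNReal.ofReal (κ * (bp b ε (dot e σ) * (1 - dot e σ))) ∂(surf d) := by
    have hm4 : Measurable fun σ : Vec d => ENNReal.ofReal (2 ^ (d - 1) * dot e σ ^ (d - 2)) *
        ENNReal.ofReal (bp b ε (2 * dot e σ ^ 2 - 1)) := hm1.mul (hβ1.comp hx)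
    rw [← hhalf1, ← hhalf2, ← lintegral_add_left hm4, hset]
    refine lintegral_mono_ae ?_
    have hms : MeasurableSet {σ : Vec d | 0 < dot e σ} :=
      measurableSet_lt measurable_const (Pool.Agent.H25.Kin.dot_cont e).measurable
    filter_upwards [ae_restrict_of_ae surf_ae, ae_restrict_mem hms] with σ hσ hpos
    have hc : 0 < dot e σ := hpos
    have hc1 : dot e σ ≤ 1 := (abs_le.1 (dot_le_one hne hσ)).2
    rw [Pool.Agent.H82.BK.co_eq, ← he]
    have h1 := CanA_pt (γ := γ) H hε hc hc1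
    have h2 : (0 : ℝ) ≤ 2 ^ (d - 1) * dot e σ ^ (d - 2) := by positivity
    refine (ENNReal.ofReal_le_ofReal h1).trans ?_
    rw [mul_add (2 ^ (d - 1) * dot e σ ^ (d - 2))]
    refine ENNReal.ofReal_add_le.trans ?_
    rw [ENNReal.ofReal_mul h2, ENNReal.ofReal_mul h2]
  refine step1.trans (add_le_add le_rfl ?_)
  have hS : MeasurableSet {σ : Vec d | 1 - dot e σ ≤ 2} :=
    (isClosed_le (continuous_const.sub (Pool.Agent.H25.Kin.dot_cont e)) continuous_const).measurableSet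
  have hm3 : Measurable fun σ : Vec d => ENNReal.ofReal
      ((1 - dot e σ) ^ (-(((d : ℝ) - 1) / 2 + s)) * (1 - dot e σ) ^ (1 : ℝ)) := by
    have h0 : Measurable fun σ : Vec d => 1 - dot e σ :=
      (continuous_const.sub (Pool.Agent.H25.Kin.dot_cont e)).measurable
    exact ((h0.pow_const _).mul (h0.pow_const _)).ennreal_ofReal
  calc ∫⁻ σ, ENNReal.ofReal (κ * (bp b ε (dot e σ) * (1 - dot e σ))) ∂(surf d)
      ≤ ∫⁻ σ, {σ : Vec d | 1 - dot e σ ≤ 2}.indicator (fun σ => ENNReal.ofReal (κ * C) *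
          ENNReal.ofReal ((1 - dot e σ) ^ (-(((d : ℝ) - 1) / 2 + s)) *
            (1 - dot e σ) ^ (1 : ℝ))) σ ∂(surf d) := by
        refine lintegral_mono_ae ?_
        filter_upwards [surf_ae] with σ hσ
        have h1 := abs_le.1 (dot_le_one hne hσ)
        rw [indicator_of_mem (show σ ∈ {σ : Vec d | 1 - dot e σ ≤ 2} from by
          show 1 - dot e σ ≤ 2
          linarith [h1.1])]
        rw [← ENNReal.ofReal_mul (by positivity)]
        refine ENNReal.ofReal_le_ofReal ?_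
        rw [mul_assoc]
        refine mul_le_mul_of_nonneg_left ?_ hκ0
        rw [Real.rpow_one, ← mul_assoc]
        have h2 : 0 ≤ 1 - dot e σ := by linarith [h1.2]
        refine mul_le_mul_of_nonneg_right ?_ h2
        have h3 : 0 ≤ (1 - dot e σ) ^ (-(((d : ℝ) - 1) / 2 + s)) := Real.rpow_nonneg h2 _
        unfold bp bcut
        split_ifs with h4 h5
        · exact (H.bd.2 _ (by linarith) (by linarith)).2
        · positivity
        · positivity
    _ = ENNReal.ofReal (κ * C) * ∫⁻ σ in {σ : Vec d | 1 - dot e σ ≤ 2}, ENNReal.ofReal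
          ((1 - dot e σ) ^ (-(((d : ℝ) - 1) / 2 + s)) * (1 - dot e σ) ^ (1 : ℝ)) ∂(surf d) := by
        rw [lintegral_indicator hS, lintegral_const_mul _ hm3]
    _ ≤ ENNReal.ofReal (κ * C) * ENNReal.ofReal (A * 2 ^ (1 - s)) :=
        mul_le_mul_right (hang e hne 2 (by norm_num)) _
    _ = ENNReal.ofReal (κ * C * (A * 2 ^ (1 - s))) := by
        rw [← ENNReal.ofReal_mul (by positivity)]

end Pool.Agent.H87.PE
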