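import Pool.Agent.H87.PE.Sym

/-!
# Module CoA: the asymmetric form of the production on `cos θ ≥ 0`

`∫_{Hf} (kx - ky) lg ≤ ∫ (kx - ky) lg = 4 Pc` (`prd_nonneg`, `prd_int`, `prd_eq`). With `F = (Hf d).indicator (lg G)`, `F (coll p) = -F p` for good `p`
(`lg_coll`, `cos_coll`): `∫ ky F = -∫ kx F` (`coll_sw`, `ae_good`), so `2 ∫_{Hf} kx lg = ∫_{Hf} (kx - ky) lg ≤ 4 Pc`. Further
`lg = (log G(v) - log G(v')) + (log G(w) - log G(w'))`, and `exch` maps the second summand to the first (`post w v (-σ) = post' v w σ`; `cos_exch`, `exch_sw`):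
`∫_{Hf} kx lg = 2 ∫_{Hf} kx (log G(v) - log G(v'))`.
-/

set_option autoImplicit false

open MeasureTheory Set Filter Topology Pool.Agent.H25.Kin Pool.Agent.H48.PL

namespace Pool.Agent.H87.PE

variable {d : ℕ} {γ s C Ca : ℝ} {b : ℝ → ℝ}

/-- the first half of `lg` -/
private noncomputable def lA (G : Vec d → ℝ) (p : Vec d × Vec d × Vec d) : ℝ :=
  Real.log (G p.1) - Real.log (G (post p.1 p.2.1 p.2.2))

private lemma lA_meas {G : Vec d → ℝ} (hG : Gd G) : Measurable (lA G) := by
  have mpost := (continuous_post (d := d)).measurable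
  have mv : Measurable fun p : Vec d × Vec d × Vec d => p.1 := measurable_fst
  exact (Real.measurable_log.comp (hG.cont.measurable.comp mv)).sub
    (Real.measurable_log.comp (hG.cont.measurable.comp mpost))

private lemma lA_PB {G : Vec d → ℝ} (hG : Gd G) : PB (lA G) := by
  obtain ⟨K, B, hB0, hB⟩ := pg_post_le hG.log
  refine ⟨K, 2 * B, by positivity, fun v w σ hσ => ?_⟩
  obtain ⟨h1, h2, h3, h4⟩ := hB v w σ hσ
  change |Real.log (G v) - Real.log (G (post v w σ))| ≤ _
  obtain ⟨a1, a2⟩ := abs_le.1 h1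
  obtain ⟨c1, c2⟩ := abs_le.1 h3
  rw [abs_le]
  constructor <;> linarith

private lemma lg_split {G : Vec d → ℝ} (hG : Gd G) (p : Vec d × Vec d × Vec d) :
    lg G p = lA G p + lA G (exch p) := by
  obtain ⟨v, w, σ⟩ := p
  change Real.log (G w * G v) - Real.log (G (post v w σ) * G (post' v w σ)) =
    (Real.log (G v) - Real.log (G (post v w σ))) + (Real.log (G w) - Real.log (G (post w v (-σ))))
  rw [post_swap, Real.log_mul (hG.pos _).ne' (hG.pos _).ne', Real.log_mul (hG.pos _).ne' (hG.pos _).ne']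
  ring

theorem co_log (H : Hyp d γ s b C Ca) {ε : ℝ} (hε : 0 < ε) {G : Vec d → ℝ} (hG : Gd G) :
    Integrable (fun p => kx γ b ε G p * (Real.log (G p.1) - Real.log (G (post p.1 p.2.1 p.2.2))))
      (mu3 d) ∧
    ∫ p in Hf d, kx γ b ε G p * (Real.log (G p.1) - Real.log (G (post p.1 p.2.1 p.2.2))) ∂(mu3 d) ≤
      Pc γ b ε G := by
  have hGm : Measurable G := hG.cont.measurable
  have hmA := lA_meas hG
  have hpA := lA_PB hG
  have hiA : Integrable (fun p => kx γ b ε G p * lA G p) (mu3 d) := kx_int H hε hG.rd hG.cont hmA hpA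
  refine ⟨hiA, ?_⟩
  change ∫ p in Hf d, kx γ b ε G p * lA G p ∂(mu3 d) ≤ Pc γ b ε G
  -- the indicators
  have ind : ∀ X : Vec d × Vec d × Vec d → ℝ, ∫ p in Hf d, kx γ b ε G p * X p ∂(mu3 d) =
      ∫ p, kx γ b ε G p * (Hf d).indicator X p ∂(mu3 d) := by
    intro X
    rw [← integral_indicator Hf_meas]
    refine integral_congr_ae (Eventually.of_forall fun p => ?_)
    by_cases hp : p ∈ Hf d
    · simp only [indicator_of_mem hp]
    · simp only [indicator_of_notMem hp, mul_zero]
  -- the exchange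
  have e1 : ∫ p in Hf d, kx γ b ε G p * lA G (exch p) ∂(mu3 d) =
      ∫ p in Hf d, kx γ b ε G p * lA G p ∂(mu3 d) := by
    rw [ind, ind, ← exch_sw H ε hGm (hmA.indicator Hf_meas)]
    refine integral_congr_ae (Eventually.of_forall fun p => ?_)
    by_cases hp : p ∈ Hf d
    · have hp' : exch p ∈ Hf d := (cos_exch p).2 hp
      simp only [indicator_of_mem hp, indicator_of_mem hp']
    · have hp' : exch p ∉ Hf d := fun h => hp ((cos_exch p).1 h)
      simp only [indicator_of_notMem hp, indicator_of_notMem hp']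
  have hpE : PB fun p => lA G (exch p) := by
    have h1 : (fun p => lA G (exch p)) = fun p => lg G p - lA G p := by
      funext p; rw [lg_split hG]; ring
    obtain ⟨K, B, hB0, hB⟩ := lg_PB hG
    obtain ⟨K', B', hB0', hB'⟩ := hpA
    rw [h1]
    refine ⟨K + K', B + B', by positivity, fun v w σ hσ => ?_⟩
    have hq : (1:ℝ) ≤ (1 + ‖v‖) * (1 + ‖w‖) := by nlinarith [norm_nonneg v, norm_nonneg w]
    have b1 : B * ((1 + ‖v‖) * (1 + ‖w‖)) ^ K ≤ B * ((1 + ‖v‖) * (1 + ‖w‖)) ^ (K + K') :=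
      mul_le_mul_of_nonneg_left (pow_le_pow_right₀ hq (Nat.le_add_right _ _)) hB0
    have b2 : B' * ((1 + ‖v‖) * (1 + ‖w‖)) ^ K' ≤ B' * ((1 + ‖v‖) * (1 + ‖w‖)) ^ (K + K') :=
      mul_le_mul_of_nonneg_left (pow_le_pow_right₀ hq (Nat.le_add_left _ _)) hB0'
    obtain ⟨c1, c2⟩ := abs_le.1 (hB v w σ hσ)
    obtain ⟨d1, d2⟩ := abs_le.1 (hB' v w σ hσ)
    rw [abs_le]
    constructor <;> linarith
  have hmE : Measurable fun p => lA G (exch p) := hmA.comp (exch_preserving H.hd1).measurable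
  have hiE : Integrable (fun p => kx γ b ε G p * lA G (exch p)) (mu3 d) :=
    kx_int H hε hG.rd hG.cont hmE hpE
  have e2 : ∫ p in Hf d, kx γ b ε G p * lg G p ∂(mu3 d) =
      2 * ∫ p in Hf d, kx γ b ε G p * lA G p ∂(mu3 d) := by
    have h1 : ∫ p in Hf d, kx γ b ε G p * lg G p ∂(mu3 d) =
        ∫ p in Hf d, (kx γ b ε G p * lA G p + kx γ b ε G p * lA G (exch p)) ∂(mu3 d) := by
      refine integral_congr_ae (Eventually.of_forall fun p => ?_)
      simp only [lg_split hG p]
      ring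
    rw [h1, integral_add hiA.integrableOn hiE.integrableOn, e1]
    ring
  -- the collision
  have hmF : Measurable ((Hf d).indicator (lg G)) := (lg_meas hGm).indicator Hf_meas
  have hpF : PB ((Hf d).indicator (lg G)) := PB_ind (lg_PB hG) _
  have hix : Integrable (fun p => kx γ b ε G p * (Hf d).indicator (lg G) p) (mu3 d) :=
    kx_int H hε hG.rd hG.cont hmF hpF
  have hiy : Integrable (fun p => ky γ b ε G p * (Hf d).indicator (lg G) p) (mu3 d) :=
    ky_int H hε hG.rd hG.cont hmF hpF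
  have e3 : ∫ p, ky γ b ε G p * (Hf d).indicator (lg G) p ∂(mu3 d) =
      -∫ p, kx γ b ε G p * (Hf d).indicator (lg G) p ∂(mu3 d) := by
    rw [← coll_sw H ε hGm hmF, ← integral_neg]
    refine integral_congr_ae ?_
    filter_upwards [ae_good (d := d) H.hd1] with p hp
    obtain ⟨v, w, σ⟩ := p
    have h1 : v ≠ w := hp.1
    have h2 : nsq σ = 1 := hp.2
    by_cases hq : ((v, w, σ) : Vec d × Vec d × Vec d) ∈ Hf d
    · have hq' : coll (v, w, σ) ∈ Hf d := (cos_coll h1 h2).2 hq
      simp only [indicator_of_mem hq, indicator_of_mem hq']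
      rw [lg_coll hG h1 h2]
      ring
    · have hq' : coll (v, w, σ) ∉ Hf d := fun h => hq ((cos_coll h1 h2).1 h)
      simp only [indicator_of_notMem hq, indicator_of_notMem hq']
      ring
  have e4 : ∫ p in Hf d, (kx γ b ε G p - ky γ b ε G p) * lg G p ∂(mu3 d) =
      2 * ∫ p in Hf d, kx γ b ε G p * lg G p ∂(mu3 d) := by
    rw [ind, ← integral_indicator Hf_meas]
    have h1 : ∫ p, (Hf d).indicator (fun p => (kx γ b ε G p - ky γ b ε G p) * lg G p) p ∂(mu3 d) =
        ∫ p, (kx γ b ε G p * (Hf d).indicator (lg G) p - ky γ b ε G p * (Hf d).indicator (lg G) p) ∂(mu3 d) := by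
      refine integral_congr_ae (Eventually.of_forall fun p => ?_)
      by_cases hp : p ∈ Hf d
      · simp only [indicator_of_mem hp]
        ring
      · simp only [indicator_of_notMem hp]
        ring
    rw [h1, integral_sub hix hiy, e3]
    ring
  have e5 : ∫ p in Hf d, (kx γ b ε G p - ky γ b ε G p) * lg G p ∂(mu3 d) ≤ 4 * Pc γ b ε G := by
    rw [← prd_eq H hε hG]
    exact setIntegral_le_integral (prd_int H hε hG) (prd_nonneg H hε hG)
  linarith

end Pool.Agent.H87.PE
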