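import Pool.Agent.H48.PI.Defs
import Pool.Agent.H48.PL.EntF

/-!
# Error terms of the potential: definitions (MP_c15324_an, plane symmetric solutions)

Block (C) of /team-store/h48_pinf_paper.md. A collision is `p = (v, w, σ)`, `v' = post v w σ`, `w' = post' v w σ`.
-/

set_option autoImplicit false

open MeasureTheory Set Filter Topology Pool.Agent.H25.Kin Pool.Agent.H48.PL
open Pool.Agent.H15.AV (gau UNice)

namespace Pool.Agent.H87.PE

variable {d : ℕ}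

/-- admissible functions at the cut-off level -/
structure Gd (G : Vec d → ℝ) : Prop where
  rd : RD G
  cont : Continuous G
  pos : ∀ v, 0 < G v
  log : PG fun v => Real.log (G v)

/-- the increment `φ(v') + φ(w') - φ(v) - φ(w)` -/
noncomputable def dX (φ : Vec d → ℝ) (p : Vec d × Vec d × Vec d) : ℝ :=
  φ (post p.1 p.2.1 p.2.2) + φ (post' p.1 p.2.1 p.2.2) - φ p.1 - φ p.2.1

/-- `B_ε G(w) G(v)` -/
noncomputable def kx (γ : ℝ) (b : ℝ → ℝ) (ε : ℝ) (G : Vec d → ℝ) (p : Vec d × Vec d × Vec d) : ℝ :=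
  kerB γ b ε p.1 p.2.1 p.2.2 * (G p.2.1 * G p.1)

/-- `B_ε G(v') G(w')` -/
noncomputable def ky (γ : ℝ) (b : ℝ → ℝ) (ε : ℝ) (G : Vec d → ℝ) (p : Vec d × Vec d × Vec d) : ℝ :=
  kerB γ b ε p.1 p.2.1 p.2.2 * (G (post p.1 p.2.1 p.2.2) * G (post' p.1 p.2.1 p.2.2))

/-- `log (G(w) G(v)) - log (G(v') G(w'))` -/
noncomputable def lg (G : Vec d → ℝ) (p : Vec d × Vec d × Vec d) : ℝ :=
  Real.log (G p.2.1 * G p.1) - Real.log (G (post p.1 p.2.1 p.2.2) * G (post' p.1 p.2.1 p.2.2))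

/-- the entropy production at the cut-off level -/
noncomputable def Pc (γ : ℝ) (b : ℝ → ℝ) (ε : ℝ) (G : Vec d → ℝ) : ℝ :=
  -∫ v, boltzCut γ b ε G v * Real.log (G v)

/-- the collisions with `cos θ ≥ 0` -/
def Hf (d : ℕ) : Set (Vec d × Vec d × Vec d) := {p | 0 ≤ cosTh p.1 p.2.1 p.2.2}

/-- polynomial bound on the collisions -/
def PB (X : Vec d × Vec d × Vec d → ℝ) : Prop := ∃ (K : ℕ) (B : ℝ), 0 ≤ B ∧
  ∀ v w σ : Vec d, nsq σ = 1 → |X (v, w, σ)| ≤ B * ((1 + ‖v‖) * (1 + ‖w‖)) ^ K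

/-- `∫∫ G(v) G(w) |v-w|^γ` -/
noncomputable def GG (γ : ℝ) (G : Vec d → ℝ) : ℝ := ∫ q : Vec d × Vec d, G q.1 * G q.2 * len (q.1 - q.2) ^ γ

/-- Holder functions with a weight -/
def Hol (a : ℝ) (ω : ℝ → ℝ) (A : ℝ) (ψ : Vec d → ℝ) : Prop :=
  ∀ w w' : Vec d, |ψ w - ψ w'| ≤ A * (ω (max (jb w) (jb w')) * len (w - w') ^ a)

end Pool.Agent.H87.PE
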