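import Pool.Agent.H87.PE.Defs

/-!
# Module Sym: integrability and symmetries at the cut-off level

`kx_int`, `ky_int`: `int_piece` with `prod_le'` and `post_prod_le` (see `pr_int`, `pr_int'` in H48/PL/Prod.lean).
`coll_sw`: `integral_comp_mp (coll_preserving H.hd1)` for the measurable function `kx * F`: `kx (coll p) = ky p` for good `p`
(`ae_good`, `kerB_post`; `G (post' v w σ) * G (post v w σ)`). `exch_sw`: `exch_preserving`; `kx (exch p) = kx p`: `cosTh w v (-σ) = cosTh v w σ`,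
`len (w - v) = len (v - w)`. `lg_coll`: `post_post`, `post'_post`. `lg_PB`: `Real.log_mul`, `pg_post_le` (see `prX_le`). `prd_nonneg`: as in Prod.lean.
`prd_eq`: as in the proof of `prod_ineq` (Prod.lean: steps e1, e2, step4): `∫ (kx - ky) lg = -2 ∫ kx dX(log G) = 4 Pc`, by `weak_cut`, `dX (log G) = -lg`.
`cos_coll`: `cosTh_post` (used in H48/PL/EntA.lean `ent_geo`).
-/

set_option autoImplicit false

open MeasureTheory Set Filter Topology Pool.Agent.H25.Kin Pool.Agent.H48.PL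

namespace Pool.Agent.H87.PE

variable {d : ℕ} {γ s C Ca : ℝ} {b : ℝ → ℝ}

private lemma m_v : Measurable fun p : Vec d × Vec d × Vec d => p.1 := measurable_fst

private lemma m_w : Measurable fun p : Vec d × Vec d × Vec d => p.2.1 :=
  measurable_fst.comp measurable_snd

lemma kx_meas (H : Hyp d γ s b C Ca) (ε : ℝ) {G : Vec d → ℝ} (hG : Measurable G) :
    Measurable (kx γ b ε G) :=
  (measurable_kerB (d := d) γ H.bm ε).mul ((hG.comp m_w).mul (hG.comp m_v))

lemma ky_meas (H : Hyp d γ s b C Ca) (ε : ℝ) {G : Vec d → ℝ} (hG : Measurable G) :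
    Measurable (ky γ b ε G) :=
  (measurable_kerB (d := d) γ H.bm ε).mul
    ((hG.comp (continuous_post (d := d)).measurable).mul
      (hG.comp (continuous_post' (d := d)).measurable))

lemma kx_int (H : Hyp d γ s b C Ca) {ε : ℝ} (hε : 0 < ε) {G : Vec d → ℝ} (hG : RD G)
    (hGc : Continuous G) {X : Vec d × Vec d × Vec d → ℝ} (hX : Measurable X) (hB : PB X) :
    Integrable (fun p => kx γ b ε G p * X p) (mu3 d) := by
  obtain ⟨K, B, hB0, hB⟩ := hB
  obtain ⟨A2, hA2, hA2'⟩ := prod_le' hG (d + 1 + (d + 5) + K)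
  exact int_piece (P := fun p : Vec d × Vec d × Vec d => G p.2.1 * G p.1) (Φ := X)
    H.hd H.g1 H.g2 H.bm H.bd H.β0 hε
    ((hGc.measurable.comp m_w).mul (hGc.measurable.comp m_v)) hX hA2 hB0
    (fun v w σ _ => by have := hA2' v w; rw [mul_comm] at this; exact this)
    (fun v w σ hσ => hB v w σ hσ)

lemma ky_int (H : Hyp d γ s b C Ca) {ε : ℝ} (hε : 0 < ε) {G : Vec d → ℝ} (hG : RD G)
    (hGc : Continuous G) {X : Vec d × Vec d × Vec d → ℝ} (hX : Measurable X) (hB : PB X) :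
    Integrable (fun p => ky γ b ε G p * X p) (mu3 d) := by
  obtain ⟨K, B, hB0, hB⟩ := hB
  obtain ⟨A1, hA1, hA1'⟩ := post_prod_le hG (d + 1 + (d + 5) + K)
  exact int_piece (P := fun p : Vec d × Vec d × Vec d =>
      G (post p.1 p.2.1 p.2.2) * G (post' p.1 p.2.1 p.2.2)) (Φ := X)
    H.hd H.g1 H.g2 H.bm H.bd H.β0 hε
    ((hGc.measurable.comp (continuous_post (d := d)).measurable).mul
      (hGc.measurable.comp (continuous_post' (d := d)).measurable)) hX hA1 hB0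
    (fun v w σ hσ => hA1' v w σ hσ)
    (fun v w σ hσ => hB v w σ hσ)

lemma kx_nonneg (H : Hyp d γ s b C Ca) {ε : ℝ} (hε : 0 < ε) {G : Vec d → ℝ} (h0 : ∀ v, 0 ≤ G v) :
    ∀ᵐ p ∂(mu3 d), 0 ≤ kx γ b ε G p := by
  filter_upwards [ae_good H.hd1] with p hp
  exact mul_nonneg (kerB_nonneg H.bd hε hp.2) (mul_nonneg (h0 _) (h0 _))

lemma ky_nonneg (H : Hyp d γ s b C Ca) {ε : ℝ} (hε : 0 < ε) {G : Vec d → ℝ} (h0 : ∀ v, 0 ≤ G v) :
    ∀ᵐ p ∂(mu3 d), 0 ≤ ky γ b ε G p := by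
  filter_upwards [ae_good H.hd1] with p hp
  exact mul_nonneg (kerB_nonneg H.bd hε hp.2) (mul_nonneg (h0 _) (h0 _))

private lemma kx_coll (γ : ℝ) (b : ℝ → ℝ) (ε : ℝ) (G : Vec d → ℝ) {v w σ : Vec d} (h : v ≠ w)
    (hσ : nsq σ = 1) : kx γ b ε G (coll (v, w, σ)) = ky γ b ε G (v, w, σ) := by
  simp only [kx, ky, coll]
  rw [kerB_post γ b ε h hσ]
  ring

lemma coll_sw (H : Hyp d γ s b C Ca) (ε : ℝ) {G : Vec d → ℝ} (hG : Measurable G)
    {F : Vec d × Vec d × Vec d → ℝ} (hF : Measurable F) :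
    ∫ p, ky γ b ε G p * F (coll p) ∂(mu3 d) = ∫ p, kx γ b ε G p * F p ∂(mu3 d) := by
  have mF : Measurable fun p : Vec d × Vec d × Vec d => kx γ b ε G p * F p :=
    (kx_meas H ε hG).mul hF
  rw [← integral_comp_mp (coll_preserving H.hd1) mF]
  refine integral_congr_ae ?_
  filter_upwards [ae_good H.hd1] with p hp
  obtain ⟨v, w, σ⟩ := p
  have hp1 : v ≠ w := hp.1
  have hp2 : nsq σ = 1 := hp.2
  change ky γ b ε G (v, w, σ) * F (coll (v, w, σ)) =
    kx γ b ε G (coll (v, w, σ)) * F (coll (v, w, σ))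
  rw [kx_coll γ b ε G hp1 hp2]

lemma exch_sw (H : Hyp d γ s b C Ca) (ε : ℝ) {G : Vec d → ℝ} (hG : Measurable G)
    {F : Vec d × Vec d × Vec d → ℝ} (hF : Measurable F) :
    ∫ p, kx γ b ε G p * F (exch p) ∂(mu3 d) = ∫ p, kx γ b ε G p * F p ∂(mu3 d) := by
  have mF : Measurable fun p : Vec d × Vec d × Vec d => kx γ b ε G p * F p :=
    (kx_meas H ε hG).mul hF
  rw [← integral_comp_mp (exch_preserving H.hd1) mF]
  refine integral_congr_ae (Eventually.of_forall fun p => ?_)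
  obtain ⟨v, w, σ⟩ := p
  change kx γ b ε G (v, w, σ) * F (exch (v, w, σ)) =
    kx γ b ε G (exch (v, w, σ)) * F (exch (v, w, σ))
  have e : kx γ b ε G (exch (v, w, σ)) = kx γ b ε G (v, w, σ) := by
    simp only [kx, exch]
    rw [kerB_swap, mul_comm (G v) (G w)]
  rw [e]

lemma dX_meas {φ : Vec d → ℝ} (hφ : Measurable φ) : Measurable (dX φ) :=
  (((hφ.comp (continuous_post (d := d)).measurable).add
    (hφ.comp (continuous_post' (d := d)).measurable)).sub (hφ.comp m_v)).sub (hφ.comp m_w)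

lemma dX_PB {φ : Vec d → ℝ} (hφ : PG φ) : PB (dX φ) := by
  obtain ⟨K, B, hB0, hB⟩ := pg_post_le hφ
  refine ⟨K, 4 * B, by positivity, fun v w σ hσ => ?_⟩
  obtain ⟨h1, h2, h3, h4⟩ := hB v w σ hσ
  change |φ (post v w σ) + φ (post' v w σ) - φ v - φ w| ≤ _
  obtain ⟨a1, a2⟩ := abs_le.1 h1
  obtain ⟨b1, b2⟩ := abs_le.1 h2
  obtain ⟨c1, c2⟩ := abs_le.1 h3
  obtain ⟨e1, e2⟩ := abs_le.1 h4
  rw [abs_le]
  constructor <;> linarith

lemma dX_coll (φ : Vec d → ℝ) {v w σ : Vec d} (h : v ≠ w) (hσ : nsq σ = 1) :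
    dX φ (coll (v, w, σ)) = -dX φ (v, w, σ) := by
  simp only [dX, coll]
  rw [post_post h hσ, post'_post h hσ]
  ring

lemma lg_meas {G : Vec d → ℝ} (hG : Measurable G) : Measurable (lg G) :=
  (((hG.comp m_w).mul (hG.comp m_v)).log).sub
    (((hG.comp (continuous_post (d := d)).measurable).mul
      (hG.comp (continuous_post' (d := d)).measurable)).log)

private lemma lg_dX {G : Vec d → ℝ} (hG : Gd G) (p : Vec d × Vec d × Vec d) :
    dX (fun v => Real.log (G v)) p = -lg G p := by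
  obtain ⟨v, w, σ⟩ := p
  simp only [dX, lg]
  rw [Real.log_mul (hG.pos _).ne' (hG.pos _).ne', Real.log_mul (hG.pos _).ne' (hG.pos _).ne']
  ring

lemma lg_PB {G : Vec d → ℝ} (hG : Gd G) : PB (lg G) := by
  obtain ⟨K, B, hB0, hB⟩ := dX_PB hG.log
  refine ⟨K, B, hB0, fun v w σ hσ => ?_⟩
  have h1 := hB v w σ hσ
  rwa [lg_dX hG, abs_neg] at h1

lemma lg_coll {G : Vec d → ℝ} (hG : Gd G) {v w σ : Vec d} (h : v ≠ w) (hσ : nsq σ = 1) :
    lg G (coll (v, w, σ)) = -lg G (v, w, σ) := by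
  have h1 := dX_coll (fun v => Real.log (G v)) h hσ
  rw [lg_dX hG, lg_dX hG] at h1
  linarith

lemma cos_coll {v w σ : Vec d} (h : v ≠ w) (hσ : nsq σ = 1) :
    coll (v, w, σ) ∈ Hf d ↔ (v, w, σ) ∈ Hf d := by
  change 0 ≤ cosTh (post v w σ) (post' v w σ) (dirk v w) ↔ 0 ≤ cosTh v w σ
  rw [cosTh_post h hσ]

lemma cos_exch (p : Vec d × Vec d × Vec d) : exch p ∈ Hf d ↔ p ∈ Hf d := by
  obtain ⟨v, w, σ⟩ := p
  change 0 ≤ cosTh w v (-σ) ↔ 0 ≤ cosTh v w σ
  rw [cosTh_swap]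

lemma Hf_meas : MeasurableSet (Hf d) :=
  measurableSet_le measurable_const measurable_cosTh

lemma PB_mul {X Y : Vec d × Vec d × Vec d → ℝ} (hX : PB X) (hY : PB Y) : PB fun p => X p * Y p := by
  obtain ⟨K, B, hB0, hB⟩ := hX
  obtain ⟨L, D, hD0, hD⟩ := hY
  refine ⟨K + L, B * D, by positivity, fun v w σ hσ => ?_⟩
  have h1 := hB v w σ hσ
  have h2 := hD v w σ hσ
  change |X (v, w, σ) * Y (v, w, σ)| ≤ _
  rw [abs_mul, pow_add]
  calc |X (v, w, σ)| * |Y (v, w, σ)|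
      ≤ (B * ((1 + ‖v‖) * (1 + ‖w‖)) ^ K) * (D * ((1 + ‖v‖) * (1 + ‖w‖)) ^ L) :=
        mul_le_mul h1 h2 (abs_nonneg _) (by positivity)
    _ = _ := by ring

lemma PB_ind {X : Vec d × Vec d × Vec d → ℝ} (hX : PB X) (S : Set (Vec d × Vec d × Vec d)) :
    PB (S.indicator X) := by
  obtain ⟨K, B, hB0, hB⟩ := hX
  refine ⟨K, B, hB0, fun v w σ hσ => ?_⟩
  by_cases hm : (v, w, σ) ∈ S
  · rw [indicator_of_mem hm]
    exact hB v w σ hσ
  · rw [indicator_of_notMem hm, abs_zero]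
    positivity

theorem prd_nonneg (H : Hyp d γ s b C Ca) {ε : ℝ} (hε : 0 < ε) {G : Vec d → ℝ} (hG : Gd G) :
    ∀ᵐ p ∂(mu3 d), 0 ≤ (kx γ b ε G p - ky γ b ε G p) * lg G p := by
  filter_upwards [ae_good H.hd1] with p hp
  obtain ⟨v, w, σ⟩ := p
  have hp2 : nsq σ = 1 := hp.2
  have hk : 0 ≤ kerB γ b ε v w σ := kerB_nonneg H.bd hε hp2
  have g1 := hG.pos v
  have g2 := hG.pos w
  have g3 := hG.pos (post v w σ)
  have g4 := hG.pos (post' v w σ)
  have hm : 0 ≤ (G w * G v - G (post v w σ) * G (post' v w σ)) *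
      (Real.log (G w * G v) - Real.log (G (post v w σ) * G (post' v w σ))) := by
    rcases le_total (G w * G v) (G (post v w σ) * G (post' v w σ)) with h | h
    · exact mul_nonneg_of_nonpos_of_nonpos (by linarith) (by
        have := Real.log_le_log (mul_pos g2 g1) h
        linarith)
    · exact mul_nonneg (by linarith) (by
        have := Real.log_le_log (mul_pos g3 g4) h
        linarith)
  change 0 ≤ (kerB γ b ε v w σ * (G w * G v) -
    kerB γ b ε v w σ * (G (post v w σ) * G (post' v w σ))) *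
      (Real.log (G w * G v) - Real.log (G (post v w σ) * G (post' v w σ)))
  have := mul_nonneg hk hm
  linarith

private lemma prd_split (γ : ℝ) (b : ℝ → ℝ) (ε : ℝ) (G : Vec d → ℝ) :
    (fun p => (kx γ b ε G p - ky γ b ε G p) * lg G p) =
      fun p => kx γ b ε G p * lg G p - ky γ b ε G p * lg G p := by
  funext p
  ring

theorem prd_int (H : Hyp d γ s b C Ca) {ε : ℝ} (hε : 0 < ε) {G : Vec d → ℝ} (hG : Gd G) :
    Integrable (fun p => (kx γ b ε G p - ky γ b ε G p) * lg G p) (mu3 d) := by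
  rw [prd_split]
  exact (kx_int H hε hG.rd hG.cont (lg_meas hG.cont.measurable) (lg_PB hG)).sub
    (ky_int H hε hG.rd hG.cont (lg_meas hG.cont.measurable) (lg_PB hG))

theorem prd_eq (H : Hyp d γ s b C Ca) {ε : ℝ} (hε : 0 < ε) {G : Vec d → ℝ} (hG : Gd G) :
    ∫ p, (kx γ b ε G p - ky γ b ε G p) * lg G p ∂(mu3 d) = 4 * Pc γ b ε G := by
  have hlm : Measurable fun v => Real.log (G v) := hG.cont.measurable.log
  have ml := lg_meas hG.cont.measurable
  have i1 := kx_int H hε hG.rd hG.cont ml (lg_PB hG)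
  have i2 := ky_int H hε hG.rd hG.cont ml (lg_PB hG)
  have e1 : ∫ p, ky γ b ε G p * lg G p ∂(mu3 d) = -∫ p, kx γ b ε G p * lg G p ∂(mu3 d) := by
    rw [← coll_sw H ε hG.cont.measurable ml, ← integral_neg]
    refine integral_congr_ae ?_
    filter_upwards [ae_good H.hd1] with p hp
    obtain ⟨v, w, σ⟩ := p
    have hp1 : v ≠ w := hp.1
    have hp2 : nsq σ = 1 := hp.2
    rw [lg_coll hG hp1 hp2]
    ring
  have e2 : Pc γ b ε G = (1 / 2) * ∫ p, kx γ b ε G p * lg G p ∂(mu3 d) := by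
    unfold Pc
    rw [weak_cut H.hd H.g1 H.g2 H.bm H.bd H.β0 hε hG.rd hG.cont hG.log hlm]
    change -((1 / 2) * ∫ p, kx γ b ε G p * dX (fun v => Real.log (G v)) p ∂(mu3 d)) = _
    rw [← mul_neg, ← integral_neg]
    congr 1
    refine integral_congr_ae (Eventually.of_forall fun p => ?_)
    simp only
    rw [lg_dX hG]
    ring
  rw [prd_split, integral_sub i1 i2, e1, e2]
  ring

end Pool.Agent.H87.PE
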